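import Mathlib
import Pool.Agent.Lib.MP_7ab245_nt.Len.Defs
import Pool.Agent.Lib.MP_7ab245_nt.Len.Defs2

/-! Definitions for the lower bound of the Mahler measure in terms of the mean of `|log |f||`. -/

set_option autoImplicit false

open Polynomial Finset

namespace Pool.Agent.Lib.MP_7ab245_nt.L1

open Pool.Agent.Lib.MP_7ab245_nt.Len

/-- Poisson integral of a function on the unit circle -/
noncomputable def PP (W : ℂ → ℝ) (z : ℂ) : ℝ :=
  Real.circleAverage (fun ζ => poissonKernel 0 z ζ * W ζ) 0 1

/-- mean over the unit circle of the modulus of the potential of the points `y l` -/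
noncomputable def kap {m : ℕ} (y : Fin m → ℂ) : ℝ :=
  Real.circleAverage (fun ζ => |VV y 0 ζ|) 0 1

/-- the point `z` moved radially towards the origin, by an amount depending on the position -/
noncomputable def sm (s : ℂ → ℝ) (z : ℂ) : ℂ := (Real.exp (-(s z)) : ℂ) * z

/-- mutual logarithmic energy of two families of points of the open unit disc -/
noncomputable def IE {ι κ : Type} [Fintype ι] [Fintype κ] (x : ι → ℂ) (y : κ → ℂ) : ℝ :=
  ∑ i, ∑ j, ker 0 (x i) (y j)

/-- the first dyadic scale from which on the Poisson integral of `W` is small over `z` -/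
noncomputable def JJ (W : ℂ → ℝ) (m : ℕ) (z : ℂ) : ℕ :=
  sInf {j : ℕ | ∀ i : ℕ, j ≤ i → PP W (pt ((2 : ℝ) ^ i / m) z.arg) ≤ (2 : ℝ) ^ i}

/-- a square root -/
noncomputable def rt (z : ℂ) : ℂ := Complex.exp (Complex.log z / 2)

/-- push forward of a function on the circle under squaring -/
noncomputable def TT (W : ℂ → ℝ) (z : ℂ) : ℝ := 2 * W (rt z)

/-- average over the circle of radius `e^{-s}` of the positive part of `PP W - c` -/
noncomputable def PhiW (W : ℂ → ℝ) (c s : ℝ) : ℝ :=
  (2 * Real.pi)⁻¹ * ∫ θ in (0 : ℝ)..(2 * Real.pi), max (PP W (pt s θ) - c) 0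

/-- proportion of the circle of radius `e^{-s}` on which `PP W` is at least `c` -/
noncomputable def lvlW (W : ℂ → ℝ) (c s : ℝ) : ℝ :=
  (2 * Real.pi)⁻¹ * ∫ θ in (0 : ℝ)..(2 * Real.pi), if c ≤ PP W (pt s θ) then 1 else 0

/-- mean over the unit circle of `|log |f||` -/
noncomputable def mlog (f : ℤ[X]) : ℝ :=
  Real.circleAverage (fun z => |Real.log ‖(f.map (Int.castRingHom ℂ)).eval z‖|) 0 1

end Pool.Agent.Lib.MP_7ab245_nt.L1
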