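import Mathlib
import Pool.Agent.Lib.MP_7ab245_nt.L1.Defs

/-! Poisson integrals: elementary properties. -/

set_option autoImplicit false

open Polynomial Finset

namespace Pool.Agent.Lib.MP_7ab245_nt.L1

open Pool.Agent.Lib.MP_7ab245_nt.Len

/-! ### the kernel on the unit circle -/

theorem poisson_ne {z ζ : ℂ} (hz : ‖z‖ < 1) (hζ : ‖ζ‖ = 1) : ζ - z ≠ 0 := by
  intro h
  rw [sub_eq_zero] at h
  rw [h] at hζ
  linarith

theorem poissonKernel_zero_eq (z ζ : ℂ) :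
    poissonKernel 0 z ζ = (‖ζ‖ ^ 2 - ‖z‖ ^ 2) / ‖ζ - z‖ ^ 2 := by
  rw [poissonKernel_def, sub_zero, sub_zero]

theorem poissonKernel_zero_nonneg {z ζ : ℂ} (hz : ‖z‖ < 1) (hζ : ‖ζ‖ = 1) :
    0 ≤ poissonKernel 0 z ζ := by
  rw [poissonKernel_zero_eq, hζ]
  apply div_nonneg
  · nlinarith [norm_nonneg z]
  · positivity

theorem continuousOn_poissonKernel_sphere {z : ℂ} (hz : ‖z‖ < 1) :
    ContinuousOn (poissonKernel 0 z) (Metric.sphere 0 |(1 : ℝ)|) := by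
  rw [poissonKernel_eq_re_herglotzRieszKernel]
  apply Complex.continuous_re.comp_continuousOn
  apply continuousOn_herglotzRieszKernel_sphere
  rw [mem_ball_zero_iff]
  exact hz

theorem circleIntegrable_PP (W : ℂ → ℝ) (hWi : CircleIntegrable W 0 1) (z : ℂ) (hz : ‖z‖ < 1) :
    CircleIntegrable (fun ζ => poissonKernel 0 z ζ * W ζ) 0 1 := by
  have h := CircleIntegrable.continuousOn_smul hWi (continuousOn_poissonKernel_sphere hz)
  exact h

theorem norm_of_mem_sphere {ζ : ℂ} (h : ζ ∈ Metric.sphere (0 : ℂ) |(1 : ℝ)|) : ‖ζ‖ = 1 := by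
  rw [mem_sphere_zero_iff_norm, abs_one] at h
  exact h

theorem PP_nonneg (W : ℂ → ℝ) (hW0 : ∀ ζ : ℂ, ‖ζ‖ = 1 → 0 ≤ W ζ) (z : ℂ) (hz : ‖z‖ < 1) :
    0 ≤ PP W z := by
  unfold PP
  apply Real.circleAverage_nonneg_of_nonneg
  intro ζ hζ
  have h1 := norm_of_mem_sphere hζ
  exact mul_nonneg (poissonKernel_zero_nonneg hz h1) (hW0 ζ h1)

theorem PP_mono (W W' : ℂ → ℝ) (hWi : CircleIntegrable W 0 1) (hWi' : CircleIntegrable W' 0 1)
    (h : ∀ ζ : ℂ, ‖ζ‖ = 1 → W ζ ≤ W' ζ) (z : ℂ) (hz : ‖z‖ < 1) : PP W z ≤ PP W' z := by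
  unfold PP
  apply Real.circleAverage_mono (circleIntegrable_PP W hWi z hz) (circleIntegrable_PP W' hWi' z hz)
  intro ζ hζ
  have h1 := norm_of_mem_sphere hζ
  exact mul_le_mul_of_nonneg_left (h ζ h1) (poissonKernel_zero_nonneg hz h1)

theorem PP_add (W W' : ℂ → ℝ) (hWi : CircleIntegrable W 0 1) (hWi' : CircleIntegrable W' 0 1)
    (z : ℂ) (hz : ‖z‖ < 1) : PP (fun ζ => W ζ + W' ζ) z = PP W z + PP W' z := by
  unfold PP
  rw [← Real.circleAverage_fun_add (circleIntegrable_PP W hWi z hz)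
    (circleIntegrable_PP W' hWi' z hz)]
  congr 1
  ext ζ
  ring

/-- rotation invariance of averages over the unit circle -/
theorem circleAverage_rot (F : ℂ → ℝ) (ω : ℂ) (hω : ‖ω‖ = 1) :
    Real.circleAverage (fun ζ => F (ω * ζ)) 0 1 = Real.circleAverage F 0 1 := by
  rw [Real.circleAverage_eq_integral_add (f := F) ω.arg]
  unfold Real.circleAverage
  congr 2
  ext θ
  show F (ω * circleMap 0 1 θ) = F (circleMap 0 1 (θ + ω.arg))
  congr 1
  have h : ω = Complex.exp (ω.arg * Complex.I) := by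
    conv_lhs => rw [← Complex.norm_mul_exp_arg_mul_I ω]
    rw [hω, Complex.ofReal_one, one_mul]
  unfold circleMap
  rw [Complex.ofReal_one, one_mul, zero_add, one_mul, zero_add]
  conv_lhs => rw [h]
  rw [← Complex.exp_add]
  congr 1
  push_cast
  ring

/-- invariance under a rotation -/
theorem PP_rot (W : ℂ → ℝ) (ω : ℂ) (hω : ‖ω‖ = 1) (hW : ∀ ζ : ℂ, ‖ζ‖ = 1 → W (ω * ζ) = W ζ)
    (z : ℂ) (hz : ‖z‖ < 1) : PP W (ω * z) = PP W z := by
  unfold PP
  rw [← circleAverage_rot (fun ζ => poissonKernel 0 (ω * z) ζ * W ζ) ω hω]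
  apply Real.circleAverage_congr_sphere
  intro ζ hζ
  have h1 := norm_of_mem_sphere hζ
  show poissonKernel 0 (ω * z) (ω * ζ) * W (ω * ζ) = poissonKernel 0 z ζ * W ζ
  rw [hW ζ h1]
  congr 1
  rw [poissonKernel_zero_eq, poissonKernel_zero_eq, ← mul_sub, norm_mul, norm_mul, norm_mul, hω,
    one_mul, one_mul, one_mul]

/-! ### squaring -/

theorem periodic_circle (F : ℂ → ℝ) :
    Function.Periodic (fun t => F (circleMap 0 1 t)) (2 * Real.pi) := by
  intro t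
  show F _ = F _
  rw [periodic_circleMap 0 1 t]

theorem circleMap_sq (θ : ℝ) : (circleMap 0 1 θ) ^ 2 = circleMap 0 1 (2 * θ) := by
  unfold circleMap
  simp only [Complex.ofReal_one, one_mul, zero_add]
  rw [← Complex.exp_nat_mul]
  congr 1
  push_cast
  ring

theorem intervalIntegrable_circle (F : ℂ → ℝ) (hF : CircleIntegrable F 0 1) (a b : ℝ) :
    IntervalIntegrable (fun t => F (circleMap 0 1 t)) MeasureTheory.volume a b :=
  (periodic_circle F).intervalIntegrable₀ (by positivity) hF a b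

theorem norm_circleMap_one (θ : ℝ) : ‖circleMap 0 1 θ‖ = 1 := by
  rw [norm_circleMap_zero, abs_one]

/-- composition with squaring -/
theorem circleIntegrable_sq (W : ℂ → ℝ) (hWi : CircleIntegrable W 0 1) :
    CircleIntegrable (fun ζ => W (ζ ^ 2)) 0 1 := by
  unfold CircleIntegrable
  have h1 : (fun θ : ℝ => W ((circleMap 0 1 θ) ^ 2)) = fun θ : ℝ => W (circleMap 0 1 (2 * θ)) := by
    ext θ
    rw [circleMap_sq]
  show IntervalIntegrable (fun θ : ℝ => W ((circleMap 0 1 θ) ^ 2)) MeasureTheory.volume 0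
    (2 * Real.pi)
  rw [h1]
  have h2 := (intervalIntegrable_circle W hWi 0 (2 * (2 * Real.pi))).comp_mul_left (c := 2)
  have h3 : (0 : ℝ) / 2 = 0 := zero_div 2
  have h4 : 2 * (2 * Real.pi) / 2 = 2 * Real.pi := by ring
  rw [h3, h4] at h2
  exact h2

theorem circleAverage_comp_sq (F : ℂ → ℝ) (hF : CircleIntegrable F 0 1) :
    Real.circleAverage (fun ζ => F (ζ ^ 2)) 0 1 = Real.circleAverage F 0 1 := by
  unfold Real.circleAverage
  congr 1
  have h1 : (fun θ : ℝ => F ((circleMap 0 1 θ) ^ 2)) =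
      fun θ : ℝ => (fun t => F (circleMap 0 1 t)) (2 * θ) := by
    ext θ
    rw [circleMap_sq]
  rw [h1]
  rw [intervalIntegral.integral_comp_mul_left (fun t => F (circleMap 0 1 t)) two_ne_zero]
  have h2 : (∫ x in (0 : ℝ)..(2 * (2 * Real.pi)), F (circleMap 0 1 x)) =
      2 * ∫ x in (0 : ℝ)..(2 * Real.pi), F (circleMap 0 1 x) := by
    have := (periodic_circle F).intervalIntegral_add_zsmul_eq (2 : ℤ) 0
      (intervalIntegrable_circle F hF)
    simpa using this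
  rw [mul_zero, h2, smul_eq_mul]
  ring

theorem poissonKernel_sq {z ζ : ℂ} (hz : ‖z‖ < 1) (hζ : ‖ζ‖ = 1) :
    poissonKernel 0 z ζ + poissonKernel 0 z (-ζ) = 2 * poissonKernel 0 (z ^ 2) (ζ ^ 2) := by
  have h1 : ζ - z ≠ 0 := poisson_ne hz hζ
  have h2 : ζ + z ≠ 0 := by
    intro h
    have h3 : z = -ζ := by linear_combination h
    rw [h3, norm_neg, hζ] at hz
    exact lt_irrefl _ hz
  have e1 : -ζ - z = -(ζ + z) := by ring
  have e2 : ζ ^ 2 - z ^ 2 = (ζ - z) * (ζ + z) := by ring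
  rw [poissonKernel_zero_eq, poissonKernel_zero_eq, poissonKernel_zero_eq, e1, e2, norm_neg,
    norm_neg, norm_mul, norm_pow, norm_pow, hζ]
  have h3 : ‖ζ - z‖ ≠ 0 := norm_ne_zero_iff.mpr h1
  have h4 : ‖ζ + z‖ ≠ 0 := norm_ne_zero_iff.mpr h2
  have h5 : ‖ζ + z‖ ^ 2 + ‖ζ - z‖ ^ 2 = 2 * (1 + ‖z‖ ^ 2) := by
    have := parallelogram_law_with_norm ℝ ζ z
    rw [hζ] at this
    nlinarith [this]
  field_simp
  nlinarith [h5]

theorem PP_sq (W : ℂ → ℝ) (hWi : CircleIntegrable W 0 1) (z : ℂ) (hz : ‖z‖ < 1) :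
    PP (fun ζ => W (ζ ^ 2)) z = PP W (z ^ 2) := by
  have hz2 : ‖z ^ 2‖ < 1 := by
    rw [norm_pow]
    exact pow_lt_one₀ (norm_nonneg z) hz two_ne_zero
  have hi := circleIntegrable_PP _ (circleIntegrable_sq W hWi) z hz
  have h1 : PP (fun ζ => W (ζ ^ 2)) z =
      Real.circleAverage (fun ζ => poissonKernel 0 z (-ζ) * W (ζ ^ 2)) 0 1 := by
    unfold PP
    rw [← circleAverage_rot (fun ζ => poissonKernel 0 z ζ * W (ζ ^ 2)) (-1) (by simp)]
    congr 1
    ext ζ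
    rw [neg_one_mul, neg_sq]
  have hi2 : CircleIntegrable (fun ζ => poissonKernel 0 z (-ζ) * W (ζ ^ 2)) 0 1 := by
    have hc : ContinuousOn (fun ζ => poissonKernel 0 z (-ζ)) (Metric.sphere 0 |(1 : ℝ)|) := by
      apply (continuousOn_poissonKernel_sphere hz).comp continuous_neg.continuousOn
      intro ζ hζ
      rw [mem_sphere_zero_iff_norm] at hζ ⊢
      rw [norm_neg]
      exact hζ
    exact CircleIntegrable.continuousOn_smul (circleIntegrable_sq W hWi) hc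
  have h2 : PP (fun ζ => W (ζ ^ 2)) z + PP (fun ζ => W (ζ ^ 2)) z = 2 * PP W (z ^ 2) := by
    conv_lhs => rw [h1]
    rw [← h1]
    conv_lhs => enter [2]; rw [h1]
    unfold PP
    rw [← Real.circleAverage_fun_add hi hi2]
    rw [← circleAverage_comp_sq _ (circleIntegrable_PP W hWi (z ^ 2) hz2)]
    rw [← smul_eq_mul, ← Real.circleAverage_fun_smul]
    apply Real.circleAverage_congr_sphere
    intro ζ hζ
    have h3 := norm_of_mem_sphere hζ
    show poissonKernel 0 z ζ * W (ζ ^ 2) + poissonKernel 0 z (-ζ) * W (ζ ^ 2) =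
      2 • (poissonKernel 0 (z ^ 2) (ζ ^ 2) * W (ζ ^ 2))
    rw [← add_mul, poissonKernel_sq hz h3, smul_eq_mul, mul_assoc]
  linarith

theorem rt_sq {z : ℂ} (hz : z ≠ 0) : (rt z) ^ 2 = z := by
  unfold rt
  rw [← Complex.exp_nat_mul]
  have : ((2 : ℕ) : ℂ) * (Complex.log z / 2) = Complex.log z := by
    push_cast
    ring
  rw [this, Complex.exp_log hz]

/-- push forward under squaring -/
theorem TT_sq (W : ℂ → ℝ) (hW : ∀ ζ : ℂ, ‖ζ‖ = 1 → W (-ζ) = W ζ) (ζ : ℂ) (hζ : ‖ζ‖ = 1) :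
    TT W (ζ ^ 2) = 2 * W ζ := by
  have h0 : ζ ≠ 0 := by
    rw [← norm_ne_zero_iff, hζ]
    exact one_ne_zero
  have h1 : (rt (ζ ^ 2)) ^ 2 = ζ ^ 2 := rt_sq (pow_ne_zero 2 h0)
  unfold TT
  rcases sq_eq_sq_iff_eq_or_eq_neg.mp h1 with h | h
  · rw [h]
  · rw [h, hW ζ hζ]

theorem TT_circleMap (W : ℂ → ℝ) (hW : ∀ ζ : ℂ, ‖ζ‖ = 1 → W (-ζ) = W ζ) (θ : ℝ) :
    TT W (circleMap 0 1 θ) = 2 * W (circleMap 0 1 (θ / 2)) := by
  have h : circleMap 0 1 θ = (circleMap 0 1 (θ / 2)) ^ 2 := by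
    rw [circleMap_sq]
    congr 1
    ring
  rw [h, TT_sq W hW _ (norm_circleMap_one _)]

theorem circleIntegrable_TT (W : ℂ → ℝ) (hWi : CircleIntegrable W 0 1)
    (hW : ∀ ζ : ℂ, ‖ζ‖ = 1 → W (-ζ) = W ζ) : CircleIntegrable (TT W) 0 1 := by
  unfold CircleIntegrable
  have h1 : (fun θ : ℝ => TT W (circleMap 0 1 θ)) =
      fun θ : ℝ => 2 * W (circleMap 0 1 (2⁻¹ * θ)) := by
    ext θ
    rw [TT_circleMap W hW]
    congr 3
    ring
  show IntervalIntegrable (fun θ : ℝ => TT W (circleMap 0 1 θ)) MeasureTheory.volume 0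
    (2 * Real.pi)
  rw [h1]
  apply IntervalIntegrable.const_mul
  have h2 := (intervalIntegrable_circle W hWi 0 Real.pi).comp_mul_left (c := 2⁻¹)
  have h3 : (0 : ℝ) / 2⁻¹ = 0 := zero_div _
  have h4 : Real.pi / 2⁻¹ = 2 * Real.pi := by
    rw [div_inv_eq_mul]
    ring
  rw [h3, h4] at h2
  exact h2

theorem circleAverage_TT (W : ℂ → ℝ) (hWi : CircleIntegrable W 0 1)
    (hW : ∀ ζ : ℂ, ‖ζ‖ = 1 → W (-ζ) = W ζ) :
    Real.circleAverage (TT W) 0 1 = 2 * Real.circleAverage W 0 1 := by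
  rw [← circleAverage_comp_sq _ (circleIntegrable_TT W hWi hW)]
  rw [← smul_eq_mul, ← Real.circleAverage_fun_smul]
  apply Real.circleAverage_congr_sphere
  intro ζ hζ
  show TT W (ζ ^ 2) = 2 • W ζ
  rw [TT_sq W hW ζ (norm_of_mem_sphere hζ), smul_eq_mul]

theorem PP_TT (W : ℂ → ℝ) (hWi : CircleIntegrable W 0 1)
    (hW : ∀ ζ : ℂ, ‖ζ‖ = 1 → W (-ζ) = W ζ) (z : ℂ) (hz : ‖z‖ < 1) :
    PP (TT W) (z ^ 2) = 2 * PP W z := by
  rw [← PP_sq _ (circleIntegrable_TT W hWi hW) z hz]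
  unfold PP
  rw [← smul_eq_mul, ← Real.circleAverage_fun_smul]
  apply Real.circleAverage_congr_sphere
  intro ζ hζ
  show poissonKernel 0 z ζ * TT W (ζ ^ 2) = 2 • (poissonKernel 0 z ζ * W ζ)
  rw [TT_sq W hW ζ (norm_of_mem_sphere hζ), smul_eq_mul]
  ring

end Pool.Agent.Lib.MP_7ab245_nt.L1
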