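import Mathlib
import Pool.Agent.Lib.MP_7ab245_nt.L1.Poi1

/-! Poisson integrals: Harnack inequalities from inequalities between the kernels. -/

set_option autoImplicit false

open Polynomial Finset

namespace Pool.Agent.Lib.MP_7ab245_nt.L1

open Pool.Agent.Lib.MP_7ab245_nt.Len

/-- the kernel at `e^{-s+iθ}` -/
theorem poissonKernel_pt (s θ φ : ℝ) (hs : 0 < s) :
    poissonKernel 0 (pt s θ) (circleMap 0 1 φ) =
      Real.sinh s / (Real.cosh s - Real.cos (θ - φ)) := by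
  have hz : pt s θ = ((Real.exp (-s) * Real.cos θ : ℝ) : ℂ) +
      ((Real.exp (-s) * Real.sin θ : ℝ) : ℂ) * Complex.I := by
    unfold pt
    rw [Complex.exp_add, Complex.exp_mul_I]
    push_cast
    ring
  have hζ : circleMap 0 1 φ = ((Real.cos φ : ℝ) : ℂ) + ((Real.sin φ : ℝ) : ℂ) * Complex.I := by
    unfold circleMap
    rw [Complex.exp_mul_I]
    push_cast
    ring
  have hE : 0 < Real.exp (-s) := Real.exp_pos _
  have hEs : Real.exp (-s) * Real.exp s = 1 := by rw [← Real.exp_add]; simp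
  have h1 := Real.sin_sq_add_cos_sq θ
  have h2 := Real.sin_sq_add_cos_sq φ
  have hn1 : ‖circleMap 0 1 φ - 0‖ ^ 2 = 1 := by
    rw [sub_zero, ← Complex.normSq_eq_norm_sq, hζ, Complex.normSq_add_mul_I]
    linarith
  have hn2 : ‖pt s θ - 0‖ ^ 2 = Real.exp (-s) ^ 2 := by
    rw [sub_zero, ← Complex.normSq_eq_norm_sq, hz, Complex.normSq_add_mul_I]
    calc (Real.exp (-s) * Real.cos θ) ^ 2 + (Real.exp (-s) * Real.sin θ) ^ 2
        = Real.exp (-s) ^ 2 * (Real.sin θ ^ 2 + Real.cos θ ^ 2) := by ring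
      _ = _ := by rw [h1, mul_one]
  have hn3 : ‖circleMap 0 1 φ - 0 - (pt s θ - 0)‖ ^ 2 =
      1 + Real.exp (-s) ^ 2 - 2 * Real.exp (-s) * Real.cos (θ - φ) := by
    rw [sub_zero, sub_zero, ← Complex.normSq_eq_norm_sq]
    have e1 : circleMap 0 1 φ - pt s θ =
        ((Real.cos φ - Real.exp (-s) * Real.cos θ : ℝ) : ℂ) +
          ((Real.sin φ - Real.exp (-s) * Real.sin θ : ℝ) : ℂ) * Complex.I := by
      rw [hz, hζ]
      push_cast
      ring
    rw [e1, Complex.normSq_add_mul_I, Real.cos_sub]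
    calc (Real.cos φ - Real.exp (-s) * Real.cos θ) ^ 2 + (Real.sin φ - Real.exp (-s) * Real.sin θ) ^ 2
        = (Real.sin φ ^ 2 + Real.cos φ ^ 2) + Real.exp (-s) ^ 2 * (Real.sin θ ^ 2 + Real.cos θ ^ 2)
          - 2 * Real.exp (-s) * (Real.cos θ * Real.cos φ + Real.sin θ * Real.sin φ) := by ring
      _ = _ := by rw [h1, h2]; ring
  rw [poissonKernel_def, hn1, hn2, hn3]
  have h3 : Real.sinh s = (1 - Real.exp (-s) ^ 2) / (2 * Real.exp (-s)) := by
    rw [Real.sinh_eq, div_eq_div_iff two_ne_zero (by positivity)]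
    linear_combination 2 * hEs
  have h4 : Real.cosh s - Real.cos (θ - φ) =
      (1 + Real.exp (-s) ^ 2 - 2 * Real.exp (-s) * Real.cos (θ - φ)) / (2 * Real.exp (-s)) := by
    rw [Real.cosh_eq, eq_div_iff (by positivity)]
    linear_combination hEs
  rw [h3, h4, div_div_div_cancel_right₀ (by positivity)]

private theorem cosh_sub_cos_pos {s : ℝ} (hs : 0 < s) (x : ℝ) : 0 < Real.cosh s - Real.cos x := by
  have h1 : 1 < Real.cosh s := Real.one_lt_cosh.mpr hs.ne'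
  have h2 := Real.cos_le_one x
  linarith

/-- comparison of two Poisson integrals from a comparison of the kernels -/
private theorem PP_le_of_kernel (W : ℂ → ℝ) (hWi : CircleIntegrable W 0 1)
    (hW0 : ∀ ζ : ℂ, ‖ζ‖ = 1 → 0 ≤ W ζ) (s θ s' θ' C : ℝ) (hs : 0 < s) (hs' : 0 < s')
    (h : ∀ φ : ℝ, Real.sinh s / (Real.cosh s - Real.cos (θ - φ)) ≤
      C * (Real.sinh s' / (Real.cosh s' - Real.cos (θ' - φ)))) :
    PP W (pt s θ) ≤ C * PP W (pt s' θ') := by
  have hz : ∀ {t : ℝ}, 0 < t → ∀ x : ℝ, ‖pt t x‖ < 1 := by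
    intro t ht x
    unfold pt
    rw [Complex.norm_exp]
    simp only [Complex.add_re, Complex.ofReal_re, Complex.mul_re, Complex.I_re, mul_zero,
      Complex.ofReal_im, Complex.I_im, zero_mul, sub_self, add_zero]
    rw [Real.exp_lt_one_iff]
    linarith
  have hi := circleIntegrable_PP W hWi (pt s θ) (hz hs θ)
  have hi' := circleIntegrable_PP W hWi (pt s' θ') (hz hs' θ')
  have hi'' : CircleIntegrable (fun ζ => C • (poissonKernel 0 (pt s' θ') ζ * W ζ)) 0 1 :=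
    hi'.const_fun_smul
  have h1 : C * PP W (pt s' θ') =
      Real.circleAverage (fun ζ => C • (poissonKernel 0 (pt s' θ') ζ * W ζ)) 0 1 := by
    rw [Real.circleAverage_fun_smul]
    rfl
  rw [h1]
  unfold PP
  refine Real.circleAverage_mono hi hi'' ?_
  intro ζ hζ
  rw [abs_one] at hζ
  have hn : ‖ζ‖ = 1 := by simpa using hζ
  obtain ⟨φ, hφ⟩ : ∃ φ : ℝ, circleMap 0 1 φ = ζ := by
    refine ⟨ζ.arg, ?_⟩
    unfold circleMap
    have := Complex.norm_mul_exp_arg_mul_I ζ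
    rw [hn] at this
    simpa using this
  rw [← hφ, poissonKernel_pt s θ φ hs, poissonKernel_pt s' θ' φ hs', smul_eq_mul, ← mul_assoc]
  refine mul_le_mul_of_nonneg_right (h φ) ?_
  rw [hφ]
  exact hW0 ζ hn

private theorem sinh_conv {t₁ t₂ : ℝ} (h1 : 0 ≤ t₁) (h12 : t₁ ≤ t₂) :
    t₂ * Real.sinh t₁ ≤ t₁ * Real.sinh t₂ := by
  have hconv : ConvexOn ℝ (Set.Ici 0) Real.sinh := by
    refine MonotoneOn.convexOn_of_deriv (convex_Ici 0) Real.continuous_sinh.continuousOn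
      Real.differentiable_sinh.differentiableOn ?_
    rw [Real.deriv_sinh, interior_Ici]
    intro x hx y hy hxy
    exact Real.cosh_le_cosh.mpr (by
      rw [abs_of_pos hx, abs_of_pos hy]; exact hxy)
  rcases eq_or_lt_of_le (h1.trans h12) with h0 | h0
  · have : t₁ = 0 := le_antisymm (by rw [h0]; exact h12) h1
    rw [this, ← h0]
  have e0 : (0 : ℝ) ≤ 1 - t₁ / t₂ := by rw [sub_nonneg, div_le_one h0]; exact h12
  have e1 : (0 : ℝ) ≤ t₁ / t₂ := by positivity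
  have h2 := hconv.2 (Set.mem_Ici.mpr (le_refl (0 : ℝ))) (Set.mem_Ici.mpr h0.le) e0 e1 (by ring)
  simp only [smul_eq_mul, mul_zero, zero_add, Real.sinh_zero] at h2
  rw [div_mul_cancel₀ _ h0.ne'] at h2
  calc t₂ * Real.sinh t₁ ≤ t₂ * (t₁ / t₂ * Real.sinh t₂) := by gcongr
    _ = t₁ * Real.sinh t₂ := by field_simp

/-- the two half-angle inequalities -/
private theorem half_A {a b : ℝ} (ha : 0 < a) (hab : a ≤ b) :
    a * (Real.sinh a * Real.cosh b) ≤ b * (Real.sinh b * Real.cosh a) := by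
  have h1 : Real.sinh a * Real.cosh b ≤ Real.sinh b * Real.cosh a := by
    have h2 : 0 ≤ Real.sinh (b - a) := Real.sinh_nonneg_iff.mpr (by linarith)
    rw [Real.sinh_sub] at h2
    linarith
  have h3 : 0 ≤ Real.sinh a * Real.cosh b :=
    mul_nonneg (Real.sinh_nonneg_iff.mpr ha.le) (Real.cosh_pos _).le
  exact mul_le_mul hab h1 h3 (ha.le.trans hab)

private theorem half_B {a b : ℝ} (ha : 0 < a) (hab : a ≤ b) :
    a * (Real.sinh b * Real.cosh a) ≤ b * (Real.sinh a * Real.cosh b) := by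
  have h1 := sinh_conv (t₁ := b - a) (t₂ := a + b) (by linarith) (by linarith)
  rw [Real.sinh_sub, Real.sinh_add] at h1
  nlinarith

private theorem cosh_eq_half (σ : ℝ) : Real.cosh σ = 1 + 2 * Real.sinh (σ / 2) ^ 2 := by
  have h := Real.cosh_two_mul (σ / 2)
  have h2 := Real.cosh_sq (σ / 2)
  rw [show 2 * (σ / 2) = σ by ring] at h
  rw [h, h2]; ring

private theorem cosh_eq_half' (σ : ℝ) : Real.cosh σ = 2 * Real.cosh (σ / 2) ^ 2 - 1 := by
  have h := cosh_eq_half σ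
  have h2 := Real.cosh_sq (σ / 2)
  rw [h, h2]; ring

private theorem sinh_eq_half (σ : ℝ) :
    Real.sinh σ = 2 * Real.sinh (σ / 2) * Real.cosh (σ / 2) := by
  have h := Real.sinh_two_mul (σ / 2)
  rwa [show 2 * (σ / 2) = σ by ring] at h

private theorem radial_one {σ τ x : ℝ} (hσ : 0 < σ) (hστ : σ ≤ τ) (hx1 : -1 ≤ x) (hx2 : x ≤ 1) :
    σ * (Real.sinh τ * (Real.cosh σ - x)) ≤ τ * (Real.sinh σ * (Real.cosh τ - x)) := by
  set a := σ / 2 with ha
  set b := τ / 2 with hb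
  have ha0 : 0 < a := by positivity
  have hab : a ≤ b := by rw [ha, hb]; linarith
  have hA := half_A ha0 hab
  have hB := half_B ha0 hab
  have sa : 0 < Real.sinh a := Real.sinh_pos_iff.mpr ha0
  have sb : 0 < Real.sinh b := Real.sinh_pos_iff.mpr (ha0.trans_le hab)
  have ca : 0 < Real.cosh a := Real.cosh_pos _
  have cb : 0 < Real.cosh b := Real.cosh_pos _
  -- values at the end points
  have v1 : 0 ≤ τ * (Real.sinh σ * (Real.cosh τ - 1)) - σ * (Real.sinh τ * (Real.cosh σ - 1)) := by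
    rw [sinh_eq_half σ, sinh_eq_half τ, cosh_eq_half σ, cosh_eq_half τ, ← ha, ← hb]
    have e : τ * (2 * Real.sinh a * Real.cosh a * (1 + 2 * Real.sinh b ^ 2 - 1)) -
        σ * (2 * Real.sinh b * Real.cosh b * (1 + 2 * Real.sinh a ^ 2 - 1)) =
        8 * (Real.sinh a * Real.sinh b) * (b * (Real.sinh b * Real.cosh a) -
          a * (Real.sinh a * Real.cosh b)) := by
      rw [ha, hb]; ring
    rw [e]
    exact mul_nonneg (by positivity) (by linarith)
  have v2 : 0 ≤ τ * (Real.sinh σ * (Real.cosh τ + 1)) - σ * (Real.sinh τ * (Real.cosh σ + 1)) := by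
    rw [sinh_eq_half σ, sinh_eq_half τ, cosh_eq_half' σ, cosh_eq_half' τ, ← ha, ← hb]
    have e : τ * (2 * Real.sinh a * Real.cosh a * (2 * Real.cosh b ^ 2 - 1 + 1)) -
        σ * (2 * Real.sinh b * Real.cosh b * (2 * Real.cosh a ^ 2 - 1 + 1)) =
        8 * (Real.cosh a * Real.cosh b) * (b * (Real.sinh a * Real.cosh b) -
          a * (Real.sinh b * Real.cosh a)) := by
      rw [ha, hb]; ring
    rw [e]
    exact mul_nonneg (by positivity) (by linarith)
  have h1 := mul_nonneg (show 0 ≤ (1 + x) / 2 by linarith) v1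
  have h2 := mul_nonneg (show 0 ≤ (1 - x) / 2 by linarith) v2
  nlinarith

private theorem radial_two {σ τ x : ℝ} (hσ : 0 < σ) (hστ : σ ≤ τ) (hx1 : -1 ≤ x) (hx2 : x ≤ 1) :
    σ * (Real.sinh σ * (Real.cosh τ - x)) ≤ τ * (Real.sinh τ * (Real.cosh σ - x)) := by
  set a := σ / 2 with ha
  set b := τ / 2 with hb
  have ha0 : 0 < a := by positivity
  have hab : a ≤ b := by rw [ha, hb]; linarith
  have hA := half_A ha0 hab
  have hB := half_B ha0 hab
  have sa : 0 < Real.sinh a := Real.sinh_pos_iff.mpr ha0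
  have sb : 0 < Real.sinh b := Real.sinh_pos_iff.mpr (ha0.trans_le hab)
  have ca : 0 < Real.cosh a := Real.cosh_pos _
  have cb : 0 < Real.cosh b := Real.cosh_pos _
  have v1 : 0 ≤ τ * (Real.sinh τ * (Real.cosh σ - 1)) - σ * (Real.sinh σ * (Real.cosh τ - 1)) := by
    rw [sinh_eq_half σ, sinh_eq_half τ, cosh_eq_half σ, cosh_eq_half τ, ← ha, ← hb]
    have e : τ * (2 * Real.sinh b * Real.cosh b * (1 + 2 * Real.sinh a ^ 2 - 1)) -
        σ * (2 * Real.sinh a * Real.cosh a * (1 + 2 * Real.sinh b ^ 2 - 1)) =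
        8 * (Real.sinh a * Real.sinh b) * (b * (Real.sinh a * Real.cosh b) -
          a * (Real.sinh b * Real.cosh a)) := by
      rw [ha, hb]; ring
    rw [e]
    exact mul_nonneg (by positivity) (by linarith)
  have v2 : 0 ≤ τ * (Real.sinh τ * (Real.cosh σ + 1)) - σ * (Real.sinh σ * (Real.cosh τ + 1)) := by
    rw [sinh_eq_half σ, sinh_eq_half τ, cosh_eq_half' σ, cosh_eq_half' τ, ← ha, ← hb]
    have e : τ * (2 * Real.sinh b * Real.cosh b * (2 * Real.cosh a ^ 2 - 1 + 1)) -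
        σ * (2 * Real.sinh a * Real.cosh a * (2 * Real.cosh b ^ 2 - 1 + 1)) =
        8 * (Real.cosh a * Real.cosh b) * (b * (Real.sinh b * Real.cosh a) -
          a * (Real.sinh a * Real.cosh b)) := by
      rw [ha, hb]; ring
    rw [e]
    exact mul_nonneg (by positivity) (by linarith)
  have h1 := mul_nonneg (show 0 ≤ (1 + x) / 2 by linarith) v1
  have h2 := mul_nonneg (show 0 ≤ (1 - x) / 2 by linarith) v2
  nlinarith

theorem PP_radial_le (W : ℂ → ℝ) (hWi : CircleIntegrable W 0 1)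
    (hW0 : ∀ ζ : ℂ, ‖ζ‖ = 1 → 0 ≤ W ζ) (σ τ θ : ℝ) (hσ : 0 < σ) (hστ : σ ≤ τ) :
    PP W (pt τ θ) ≤ τ / σ * PP W (pt σ θ) := by
  have hτ : 0 < τ := hσ.trans_le hστ
  refine PP_le_of_kernel W hWi hW0 τ θ σ θ (τ / σ) hτ hσ (fun φ => ?_)
  have h1 := cosh_sub_cos_pos hσ (θ - φ)
  have h2 := cosh_sub_cos_pos hτ (θ - φ)
  have h3 := radial_one hσ hστ (Real.neg_one_le_cos (θ - φ)) (Real.cos_le_one (θ - φ))
  rw [div_mul_div_comm, div_le_div_iff₀ h2 (by positivity)]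
  calc Real.sinh τ * (σ * (Real.cosh σ - Real.cos (θ - φ)))
      = σ * (Real.sinh τ * (Real.cosh σ - Real.cos (θ - φ))) := by ring
    _ ≤ τ * (Real.sinh σ * (Real.cosh τ - Real.cos (θ - φ))) := h3
    _ = τ * Real.sinh σ * (Real.cosh τ - Real.cos (θ - φ)) := by ring

theorem PP_radial_ge (W : ℂ → ℝ) (hWi : CircleIntegrable W 0 1)
    (hW0 : ∀ ζ : ℂ, ‖ζ‖ = 1 → 0 ≤ W ζ) (σ τ θ : ℝ) (hσ : 0 < σ) (hστ : σ ≤ τ) :
    PP W (pt σ θ) ≤ τ / σ * PP W (pt τ θ) := by
  have hτ : 0 < τ := hσ.trans_le hστ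
  refine PP_le_of_kernel W hWi hW0 σ θ τ θ (τ / σ) hσ hτ (fun φ => ?_)
  have h1 := cosh_sub_cos_pos hσ (θ - φ)
  have h2 := cosh_sub_cos_pos hτ (θ - φ)
  have h3 := radial_two hσ hστ (Real.neg_one_le_cos (θ - φ)) (Real.cos_le_one (θ - φ))
  rw [div_mul_div_comm, div_le_div_iff₀ h1 (by positivity)]
  calc Real.sinh σ * (σ * (Real.cosh τ - Real.cos (θ - φ)))
      = σ * (Real.sinh σ * (Real.cosh τ - Real.cos (θ - φ))) := by ring
    _ ≤ τ * (Real.sinh τ * (Real.cosh σ - Real.cos (θ - φ))) := h3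
    _ = τ * Real.sinh τ * (Real.cosh σ - Real.cos (θ - φ)) := by ring

private theorem cos_eq_half (x : ℝ) : Real.cos x = 1 - 2 * Real.sin (x / 2) ^ 2 := by
  have h := Real.cos_two_mul (x / 2)
  have h2 := Real.sin_sq_add_cos_sq (x / 2)
  rw [show 2 * (x / 2) = x by ring] at h
  rw [h]; linarith

private theorem sin_half_shift (a b : ℝ) :
    Real.sin (a / 2) ^ 2 ≤ 2 * Real.sin (b / 2) ^ 2 + 2 * Real.sin ((a - b) / 2) ^ 2 := by
  have h1 : Real.sin (a / 2) = Real.sin (b / 2) * Real.cos ((a - b) / 2) +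
      Real.cos (b / 2) * Real.sin ((a - b) / 2) := by
    rw [← Real.sin_add]; congr 1; ring
  rw [h1]
  have h2 := Real.sin_sq_add_cos_sq (b / 2)
  have h3 := Real.sin_sq_add_cos_sq ((a - b) / 2)
  set x := Real.sin (b / 2)
  set y := Real.cos (b / 2)
  set u := Real.sin ((a - b) / 2)
  set v := Real.cos ((a - b) / 2)
  have h4 : (x * v + y * u) ^ 2 ≤ 2 * (x * v) ^ 2 + 2 * (y * u) ^ 2 := by
    nlinarith [sq_nonneg (x * v - y * u)]
  have h5 : (x * v) ^ 2 ≤ x ^ 2 := by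
    rw [mul_pow]
    have : v ^ 2 ≤ 1 := by nlinarith [sq_nonneg u]
    nlinarith [sq_nonneg x]
  have h6 : (y * u) ^ 2 ≤ u ^ 2 := by
    rw [mul_pow]
    have : y ^ 2 ≤ 1 := by nlinarith [sq_nonneg x]
    nlinarith [sq_nonneg u]
  linarith

private theorem sin_half_le {s x : ℝ} (hs : 0 < s) (h : Real.cos s ≤ Real.cos x) :
    Real.sin (x / 2) ^ 2 ≤ Real.sinh (s / 2) ^ 2 := by
  rw [cos_eq_half s, cos_eq_half x] at h
  have h1 : Real.sin (s / 2) ^ 2 ≤ (s / 2) ^ 2 := by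
    rw [sq_le_sq]
    exact Real.abs_sin_le_abs
  have h2 : (s / 2) ^ 2 ≤ Real.sinh (s / 2) ^ 2 := by
    have h3 : s / 2 ≤ Real.sinh (s / 2) := Real.self_le_sinh_iff.mpr (by positivity)
    exact pow_le_pow_left₀ (by positivity) h3 2
  linarith

theorem PP_shift (W : ℂ → ℝ) (hWi : CircleIntegrable W 0 1)
    (hW0 : ∀ ζ : ℂ, ‖ζ‖ = 1 → 0 ≤ W ζ) (s θ θ' : ℝ) (hs : 0 < s) (hs' : s ≤ Real.pi)
    (hθ : Real.cos s ≤ Real.cos (θ - θ')) : PP W (pt s θ') ≤ 3 * PP W (pt s θ) := by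
  refine PP_le_of_kernel W hWi hW0 s θ' s θ 3 hs hs (fun φ => ?_)
  have h1 := cosh_sub_cos_pos hs (θ - φ)
  have h2 := cosh_sub_cos_pos hs (θ' - φ)
  have hsh : 0 < Real.sinh s := Real.sinh_pos_iff.mpr hs
  rw [← mul_div_assoc, div_le_div_iff₀ h2 h1]
  have h3 : Real.cosh s - Real.cos (θ - φ) ≤ 3 * (Real.cosh s - Real.cos (θ' - φ)) := by
    have h4 := sin_half_shift (θ - φ) (θ' - φ)
    have h5 : Real.sin ((θ - φ - (θ' - φ)) / 2) ^ 2 ≤ Real.sinh (s / 2) ^ 2 := by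
      rw [show θ - φ - (θ' - φ) = θ - θ' by ring]
      exact sin_half_le hs hθ
    rw [cosh_eq_half s, cos_eq_half (θ - φ), cos_eq_half (θ' - φ)]
    nlinarith [sq_nonneg (Real.sin ((θ' - φ) / 2))]
  calc Real.sinh s * (Real.cosh s - Real.cos (θ - φ))
      ≤ Real.sinh s * (3 * (Real.cosh s - Real.cos (θ' - φ))) := by gcongr
    _ = 3 * Real.sinh s * (Real.cosh s - Real.cos (θ' - φ)) := by ring

theorem PP_shift_two (W : ℂ → ℝ) (hWi : CircleIntegrable W 0 1)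
    (hW0 : ∀ ζ : ℂ, ‖ζ‖ = 1 → 0 ≤ W ζ) (s θ θ' : ℝ) (hs : 0 < s) (hs' : s ≤ Real.pi)
    (hθ : Real.cos s ≤ Real.cos (θ - θ')) :
    PP W (pt (2 * s) θ') ≤ 2 * PP W (pt (2 * s) θ) := by
  have h2s : 0 < 2 * s := by positivity
  refine PP_le_of_kernel W hWi hW0 (2 * s) θ' (2 * s) θ 2 h2s h2s (fun φ => ?_)
  have h1 := cosh_sub_cos_pos h2s (θ - φ)
  have h2 := cosh_sub_cos_pos h2s (θ' - φ)
  have hsh : 0 < Real.sinh (2 * s) := Real.sinh_pos_iff.mpr h2s
  rw [← mul_div_assoc, div_le_div_iff₀ h2 h1]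
  have h3 : Real.cosh (2 * s) - Real.cos (θ - φ) ≤ 2 * (Real.cosh (2 * s) - Real.cos (θ' - φ)) := by
    have h4 := sin_half_shift (θ - φ) (θ' - φ)
    have h5 : Real.sin ((θ - φ - (θ' - φ)) / 2) ^ 2 ≤ Real.sinh (s / 2) ^ 2 := by
      rw [show θ - φ - (θ' - φ) = θ - θ' by ring]
      exact sin_half_le hs hθ
    have h6 : Real.sinh (s / 2) ^ 2 ≤ Real.sinh s ^ 2 / 4 := by
      rw [sinh_eq_half s]
      have h7 : 1 ≤ Real.cosh (s / 2) ^ 2 := one_le_pow₀ (Real.one_le_cosh _)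
      have h8 : (2 * Real.sinh (s / 2) * Real.cosh (s / 2)) ^ 2 / 4 =
          Real.sinh (s / 2) ^ 2 * Real.cosh (s / 2) ^ 2 := by ring
      rw [h8]
      exact le_mul_of_one_le_right (sq_nonneg _) h7
    have h9 : Real.cosh (2 * s) = 1 + 2 * Real.sinh s ^ 2 := by
      rw [cosh_eq_half (2 * s)]
      congr 4
      ring
    rw [h9, cos_eq_half (θ - φ), cos_eq_half (θ' - φ)]
    nlinarith [sq_nonneg (Real.sin ((θ' - φ) / 2)), sq_nonneg (Real.sinh s)]
  calc Real.sinh (2 * s) * (Real.cosh (2 * s) - Real.cos (θ - φ))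
      ≤ Real.sinh (2 * s) * (2 * (Real.cosh (2 * s) - Real.cos (θ' - φ))) := by gcongr
    _ = 2 * Real.sinh (2 * s) * (Real.cosh (2 * s) - Real.cos (θ' - φ)) := by ring

theorem PP_large (W : ℂ → ℝ) (hWi : CircleIntegrable W 0 1)
    (hW0 : ∀ ζ : ℂ, ‖ζ‖ = 1 → 0 ≤ W ζ) (s θ : ℝ) (hs : 1 ≤ s) :
    PP W (pt s θ) ≤ 3 * Real.circleAverage W 0 1 := by
  have hs0 : 0 < s := by linarith
  have hz : ‖pt s θ‖ < 1 := by
    unfold pt
    rw [Complex.norm_exp]
    simp only [Complex.add_re, Complex.ofReal_re, Complex.mul_re, Complex.I_re, mul_zero,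
      Complex.ofReal_im, Complex.I_im, zero_mul, sub_self, add_zero]
    rw [Real.exp_lt_one_iff]
    linarith
  have hi := circleIntegrable_PP W hWi (pt s θ) hz
  have hi'' : CircleIntegrable (fun ζ => (3 : ℝ) • W ζ) 0 1 := hWi.const_fun_smul
  have h1 : 3 * Real.circleAverage W 0 1 =
      Real.circleAverage (fun ζ => (3 : ℝ) • W ζ) 0 1 := by
    rw [Real.circleAverage_fun_smul]
    rfl
  rw [h1]
  unfold PP
  refine Real.circleAverage_mono hi hi'' ?_
  intro ζ hζ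
  rw [abs_one] at hζ
  have hn : ‖ζ‖ = 1 := by simpa using hζ
  obtain ⟨φ, hφ⟩ : ∃ φ : ℝ, circleMap 0 1 φ = ζ := by
    refine ⟨ζ.arg, ?_⟩
    unfold circleMap
    have := Complex.norm_mul_exp_arg_mul_I ζ
    rw [hn] at this
    simpa using this
  have hk : poissonKernel 0 (pt s θ) ζ ≤ 3 := by
    rw [← hφ, poissonKernel_pt s θ φ hs0, div_le_iff₀ (cosh_sub_cos_pos hs0 _)]
    have h2 : Real.sinh s ≤ 3 * (Real.cosh s - 1) := by
      rw [Real.sinh_eq, Real.cosh_eq]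
      have hE : 0 < Real.exp (-s) := Real.exp_pos _
      have hEs : Real.exp (-s) * Real.exp s = 1 := by rw [← Real.exp_add]; simp
      have h3 : 2 ≤ Real.exp s := by
        have := Real.add_one_le_exp s
        linarith
      have h4 : 0 ≤ Real.exp (-s) * ((Real.exp s - 1) * (Real.exp s - 2)) :=
        mul_nonneg hE.le (mul_nonneg (by linarith) (by linarith))
      have h5 : Real.exp (-s) * ((Real.exp s - 1) * (Real.exp s - 2)) =
          Real.exp s + 2 * Real.exp (-s) - 3 := by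
        linear_combination (Real.exp s - 3) * hEs
      rw [h5] at h4
      linarith
    have h3 := Real.cos_le_one (θ - φ)
    linarith
  rw [smul_eq_mul]
  exact mul_le_mul_of_nonneg_right hk (hW0 ζ hn)

end Pool.Agent.Lib.MP_7ab245_nt.L1
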