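import Mathlib
import Pool.Agent.Lib.MP_7ab245_nt.L1.Poi1

/-! Poisson integrals: harmonicity and averages over circles. -/

set_option autoImplicit false

open Polynomial Finset

namespace Pool.Agent.Lib.MP_7ab245_nt.L1

open Pool.Agent.Lib.MP_7ab245_nt.Len

private lemma p3_pt (s θ : ℝ) : pt s θ = circleMap 0 (Real.exp (-s)) θ := by
  unfold pt circleMap
  rw [Complex.exp_add, zero_add, Complex.ofReal_exp]

private lemma p3_cont (s : ℝ) : Continuous (pt s) := by
  unfold pt
  fun_prop

private lemma p3_norm (s θ : ℝ) : ‖pt s θ‖ = Real.exp (-s) := by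
  unfold pt
  rw [Complex.norm_exp]
  simp

private lemma p3_lt {s : ℝ} (hs : 0 < s) (θ : ℝ) : ‖pt s θ‖ < 1 := by
  rw [p3_norm]
  exact Real.exp_lt_one_iff.mpr (by linarith)

theorem PP_harmonicAt (W : ℂ → ℝ) (hWi : CircleIntegrable W 0 1) (z : ℂ) (hz : ‖z‖ < 1) :
    InnerProductSpace.HarmonicAt (PP W) z := by
  have h1 : CircleIntegrable (fun ζ => (W ζ : ℂ)) 0 1 := by
    simp only [CircleIntegrable, intervalIntegrable_iff] at hWi ⊢
    exact Complex.ofRealCLM.integrable_comp hWi
  have h2 := analyticOnNhd_circleAverage_herglotzRieszKernel_smul h1 z (by simpa using hz)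
  have h3 := h2.harmonicAt_re
  refine (InnerProductSpace.harmonicAt_congr_nhds ?_).1 h3
  have h4 : Metric.ball (0 : ℂ) 1 ∈ nhds z :=
    Metric.isOpen_ball.mem_nhds (by simpa using hz)
  filter_upwards [h4] with w hw
  rw [re_circleAverage_herglotzRieszKernel_smul hWi hw]
  unfold PP
  rw [← poissonKernel_eq_re_herglotzRieszKernel]
  rfl

theorem continuous_PP_pt (W : ℂ → ℝ) (hWi : CircleIntegrable W 0 1) (s : ℝ) (hs : 0 < s) :
    Continuous fun θ => PP W (pt s θ) := by
  rw [continuous_iff_continuousAt]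
  intro θ
  have h1 : ContinuousAt (PP W) (pt s θ) :=
    (PP_harmonicAt W hWi (pt s θ) (p3_lt hs θ)).1.continuousAt
  exact ContinuousAt.comp (f := pt s) (g := PP W) h1 (p3_cont s).continuousAt

theorem PhiW_nonneg (W : ℂ → ℝ) (c s : ℝ) : 0 ≤ PhiW W c s := by
  unfold PhiW
  refine mul_nonneg (by positivity) ?_
  exact intervalIntegral.integral_nonneg (by positivity) fun θ _ => le_max_right _ _

/-- the kernel between two concentric circles -/
private noncomputable def p3_k (a b x : ℝ) : ℝ :=
  (a ^ 2 - b ^ 2) / (a ^ 2 + b ^ 2 - 2 * a * b * Real.cos x)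

private lemma p3_den (a b x : ℝ) (hb : 0 < b) (hab : b < a) :
    0 < a ^ 2 + b ^ 2 - 2 * a * b * Real.cos x := by
  have h1 : Real.cos x ≤ 1 := Real.cos_le_one x
  have h2 : 0 < a * b := mul_pos (hb.trans hab) hb
  nlinarith [sq_pos_of_pos (sub_pos.2 hab), mul_le_mul_of_nonneg_left h1 h2.le]

private lemma p3_k_cont (a b : ℝ) (hb : 0 < b) (hab : b < a) : Continuous (p3_k a b) := by
  unfold p3_k
  refine Continuous.div (by fun_prop) (by fun_prop) ?_
  intro x
  exact (p3_den a b x hb hab).ne'

private lemma p3_k_nonneg (a b x : ℝ) (hb : 0 < b) (hab : b < a) : 0 ≤ p3_k a b x := by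
  unfold p3_k
  refine div_nonneg ?_ (p3_den a b x hb hab).le
  nlinarith [hb.trans hab]

private lemma p3_kernel (s t θ φ : ℝ) : poissonKernel 0 (pt t θ) (pt s φ) =
    p3_k (Real.exp (-s)) (Real.exp (-t)) (θ - φ) := by
  rw [poissonKernel_def, sub_zero, sub_zero, p3_norm, p3_norm]
  unfold p3_k
  congr 1
  rw [← Complex.normSq_eq_norm_sq, Complex.normSq_apply]
  unfold pt
  rw [Complex.exp_add, Complex.exp_add, ← Complex.ofReal_exp, ← Complex.ofReal_exp]
  simp only [Complex.sub_re, Complex.sub_im, Complex.re_ofReal_mul, Complex.im_ofReal_mul,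
    Complex.exp_ofReal_mul_I_re, Complex.exp_ofReal_mul_I_im]
  rw [Real.cos_sub]
  have h1 := Real.sin_sq_add_cos_sq θ
  have h2 := Real.sin_sq_add_cos_sq φ
  have h3 : Real.cos θ ^ 2 = 1 - Real.sin θ ^ 2 := by linarith
  have h4 : Real.cos φ ^ 2 = 1 - Real.sin φ ^ 2 := by linarith
  ring_nf
  rw [h3, h4]
  ring

/-- Poisson formula on the circle of radius `e^{-s}` -/
private lemma p3_poisson (f : ℂ → ℝ) (hf : ∀ z : ℂ, ‖z‖ < 1 → InnerProductSpace.HarmonicAt f z)
    (s t θ : ℝ) (hs : 0 < s) (hst : s < t) :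
    f (pt t θ) = (2 * Real.pi)⁻¹ * ∫ φ in (0 : ℝ)..(2 * Real.pi),
      p3_k (Real.exp (-s)) (Real.exp (-t)) (θ - φ) * f (pt s φ) := by
  have h1 : InnerProductSpace.HarmonicOnNhd f (Metric.closedBall 0 (Real.exp (-s))) := by
    intro z hz
    apply hf
    rw [mem_closedBall_zero_iff] at hz
    exact lt_of_le_of_lt hz (Real.exp_lt_one_iff.mpr (by linarith))
  have h2 : pt t θ ∈ Metric.ball (0 : ℂ) (Real.exp (-s)) := by
    rw [mem_ball_zero_iff, p3_norm]
    exact Real.exp_lt_exp.mpr (by linarith)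
  have h3 := h1.circleAverage_poissonKernel_smul h2
  rw [Real.circleAverage_def, smul_eq_mul] at h3
  rw [← h3]
  congr 1
  apply intervalIntegral.integral_congr
  intro φ _
  simp only [Pi.smul_apply', smul_eq_mul]
  rw [← p3_pt, p3_kernel]

/-- the kernel has mean one -/
private lemma p3_mean (s t φ : ℝ) (hs : 0 < s) (hst : s < t) :
    (2 * Real.pi)⁻¹ * ∫ θ in (0 : ℝ)..(2 * Real.pi),
      p3_k (Real.exp (-s)) (Real.exp (-t)) (θ - φ) = 1 := by
  have h1 := p3_poisson (fun _ => (1 : ℝ))
    (fun z _ => InnerProductSpace.harmonicAt_const (x := z) (1 : ℝ)) s t φ hs hst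
  rw [h1]
  congr 1
  apply intervalIntegral.integral_congr
  intro θ _
  simp only [mul_one]
  unfold p3_k
  rw [← Real.cos_neg (θ - φ), neg_sub]

theorem PhiW_anti (W : ℂ → ℝ) (hWi : CircleIntegrable W 0 1) (c s t : ℝ) (hs : 0 < s)
    (hst : s ≤ t) : PhiW W c t ≤ PhiW W c s := by
  rcases hst.eq_or_lt with rfl | hst
  · exact le_rfl
  have ht : 0 < t := hs.trans hst
  set a : ℝ := Real.exp (-s) with ha
  set b : ℝ := Real.exp (-t) with hb
  have hb0 : 0 < b := Real.exp_pos _
  have hab : b < a := Real.exp_lt_exp.mpr (by linarith)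
  have hcs := continuous_PP_pt W hWi s hs
  have hct := continuous_PP_pt W hWi t ht
  have hk := p3_k_cont a b hb0 hab
  have hg : Continuous fun φ => max (PP W (pt s φ) - c) 0 :=
    (hcs.sub continuous_const).max continuous_const
  have hF : Continuous (fun x : ℝ × ℝ => p3_k a b (x.1 - x.2) * max (PP W (pt s x.2) - c) 0) :=
    (hk.comp (continuous_fst.sub continuous_snd)).mul (hg.comp continuous_snd)
  have hpi : (0 : ℝ) ≤ (2 * Real.pi)⁻¹ := by positivity
  -- pointwise inequality
  have h1 : ∀ θ : ℝ, max (PP W (pt t θ) - c) 0 ≤ (2 * Real.pi)⁻¹ *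
      ∫ φ in (0 : ℝ)..(2 * Real.pi), p3_k a b (θ - φ) * max (PP W (pt s φ) - c) 0 := by
    intro θ
    have hcθ : Continuous fun φ : ℝ => p3_k a b (θ - φ) := hk.comp (by fun_prop)
    refine max_le ?_ ?_
    · have h2 := p3_poisson (fun z => PP W z - c) (fun z hz =>
        (PP_harmonicAt W hWi z hz).sub (InnerProductSpace.harmonicAt_const (x := z) c))
        s t θ hs hst
      rw [h2]
      refine mul_le_mul_of_nonneg_left ?_ hpi
      apply intervalIntegral.integral_mono_on (by positivity)
      · exact (hcθ.mul (hcs.sub continuous_const)).intervalIntegrable _ _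
      · exact (hcθ.mul hg).intervalIntegrable _ _
      · intro φ _
        exact mul_le_mul_of_nonneg_left (le_max_left _ _) (p3_k_nonneg a b _ hb0 hab)
    · refine mul_nonneg hpi ?_
      apply intervalIntegral.integral_nonneg (by positivity)
      intro φ _
      exact mul_nonneg (p3_k_nonneg a b _ hb0 hab) (le_max_right _ _)
  -- integrate
  have h2 : ∫ θ in (0 : ℝ)..(2 * Real.pi), max (PP W (pt t θ) - c) 0 ≤
      ∫ θ in (0 : ℝ)..(2 * Real.pi), (2 * Real.pi)⁻¹ *
        ∫ φ in (0 : ℝ)..(2 * Real.pi), p3_k a b (θ - φ) * max (PP W (pt s φ) - c) 0 := by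
    apply intervalIntegral.integral_mono_on (by positivity)
    · exact ((hct.sub continuous_const).max continuous_const).intervalIntegrable _ _
    · refine Continuous.intervalIntegrable ?_ _ _
      refine continuous_const.mul ?_
      exact intervalIntegral.continuous_parametric_intervalIntegral_of_continuous'
        (f := fun θ φ => p3_k a b (θ - φ) * max (PP W (pt s φ) - c) 0) hF 0 (2 * Real.pi)
    · intro θ _
      exact h1 θ
  have h3 : ∫ θ in (0 : ℝ)..(2 * Real.pi), ∫ φ in (0 : ℝ)..(2 * Real.pi),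
      p3_k a b (θ - φ) * max (PP W (pt s φ) - c) 0 =
      ∫ φ in (0 : ℝ)..(2 * Real.pi), ∫ θ in (0 : ℝ)..(2 * Real.pi),
        p3_k a b (θ - φ) * max (PP W (pt s φ) - c) 0 := by
    apply MeasureTheory.intervalIntegral_intervalIntegral_swap
      (F := fun θ φ => p3_k a b (θ - φ) * max (PP W (pt s φ) - c) 0)
    have h4 : MeasureTheory.IntegrableOn
        (fun x : ℝ × ℝ => p3_k a b (x.1 - x.2) * max (PP W (pt s x.2) - c) 0)
        (Set.uIcc 0 (2 * Real.pi) ×ˢ Set.uIcc 0 (2 * Real.pi)) :=
      hF.continuousOn.integrableOn_compact (isCompact_uIcc.prod isCompact_uIcc)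
    exact h4.mono_set (Set.prod_mono Set.uIoc_subset_uIcc Set.uIoc_subset_uIcc)
  have h5 : ∀ φ : ℝ, ∫ θ in (0 : ℝ)..(2 * Real.pi),
      p3_k a b (θ - φ) * max (PP W (pt s φ) - c) 0 =
      (2 * Real.pi) * max (PP W (pt s φ) - c) 0 := by
    intro φ
    have h6 := p3_mean s t φ hs hst
    have h7 : ∫ θ in (0 : ℝ)..(2 * Real.pi), p3_k a b (θ - φ) = 2 * Real.pi := by
      rw [← ha, ← hb] at h6
      have h8 : (2 * Real.pi) ≠ 0 := by positivity
      field_simp at h6
      linarith
    rw [intervalIntegral.integral_mul_const, h7]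
  unfold PhiW
  refine mul_le_mul_of_nonneg_left ?_ hpi
  refine h2.trans ?_
  rw [intervalIntegral.integral_const_mul, h3]
  simp_rw [h5]
  rw [intervalIntegral.integral_const_mul, ← mul_assoc, inv_mul_cancel₀ (by positivity), one_mul]

theorem PhiW_le (W : ℂ → ℝ) (hWi : CircleIntegrable W 0 1)
    (hW0 : ∀ ζ : ℂ, ‖ζ‖ = 1 → 0 ≤ W ζ) (c s : ℝ) (hc : 0 ≤ c) (hs : 0 < s) :
    PhiW W c s ≤ Real.circleAverage W 0 1 := by
  have hcs := continuous_PP_pt W hWi s hs
  have h0 : PP W 0 = Real.circleAverage W 0 1 := by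
    unfold PP
    apply Real.circleAverage_congr_sphere
    intro ζ hζ
    have h1 : ‖ζ‖ = 1 := by simpa using hζ
    simp only [poissonKernel_def, sub_zero, norm_zero, h1]
    norm_num
  have hnn : ∀ θ : ℝ, 0 ≤ PP W (pt s θ) := by
    intro θ
    have hz := p3_lt hs θ
    unfold PP
    apply Real.circleAverage_nonneg_of_nonneg
    intro ζ hζ
    have h1 : ‖ζ‖ = 1 := by simpa using hζ
    refine mul_nonneg ?_ (hW0 ζ h1)
    rw [poissonKernel_def, sub_zero, sub_zero, h1]
    refine div_nonneg ?_ (by positivity)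
    have h2 := norm_nonneg (pt s θ)
    nlinarith
  have h1 : Real.circleAverage (PP W) 0 (Real.exp (-s)) = PP W 0 := by
    apply InnerProductSpace.HarmonicOnNhd.circleAverage_eq
    intro z hz
    apply PP_harmonicAt W hWi
    rw [mem_closedBall_zero_iff, abs_of_pos (Real.exp_pos _)] at hz
    exact lt_of_le_of_lt hz (Real.exp_lt_one_iff.mpr (by linarith))
  rw [Real.circleAverage_def, smul_eq_mul] at h1
  have h3 : (fun θ => PP W (pt s θ)) = fun θ => PP W (circleMap 0 (Real.exp (-s)) θ) := by
    funext θ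
    rw [p3_pt]
  rw [← h0, ← h1, ← h3]
  unfold PhiW
  refine mul_le_mul_of_nonneg_left ?_ (by positivity)
  apply intervalIntegral.integral_mono_on (by positivity)
  · exact ((hcs.sub continuous_const).max continuous_const).intervalIntegrable _ _
  · exact hcs.intervalIntegrable _ _
  · intro θ _
    refine max_le ?_ (hnn θ)
    linarith

theorem lvlW_le (W : ℂ → ℝ) (hWi : CircleIntegrable W 0 1) (c s : ℝ) (hc : 0 ≤ c)
    (hs : 0 < s) : c * lvlW W (2 * c) (2 * s) ≤ PhiW W c s - PhiW W (2 * c) (2 * s) := by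
  have h2s : 0 < 2 * s := by positivity
  have hcs := continuous_PP_pt W hWi (2 * s) h2s
  have h1 := PhiW_anti W hWi c s (2 * s) hs (by linarith)
  have hmeas : MeasurableSet {θ : ℝ | 2 * c ≤ PP W (pt (2 * s) θ)} :=
    measurableSet_le measurable_const hcs.measurable
  have hint : IntervalIntegrable (fun θ : ℝ => if 2 * c ≤ PP W (pt (2 * s) θ) then (1 : ℝ) else 0)
      MeasureTheory.volume 0 (2 * Real.pi) := by
    rw [intervalIntegrable_iff]
    refine MeasureTheory.Measure.integrableOn_of_bounded (M := 1) ?_ ?_ ?_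
    · rw [Set.uIoc_of_le (by positivity)]
      exact measure_Ioc_lt_top.ne
    · exact (Measurable.ite hmeas measurable_const measurable_const).aestronglyMeasurable
    · filter_upwards with θ
      split_ifs <;> simp
  have h2 : c * lvlW W (2 * c) (2 * s) + PhiW W (2 * c) (2 * s) ≤ PhiW W c (2 * s) := by
    unfold lvlW PhiW
    rw [← mul_assoc, mul_comm c, mul_assoc, ← mul_add]
    refine mul_le_mul_of_nonneg_left ?_ (by positivity)
    rw [← intervalIntegral.integral_const_mul, ← intervalIntegral.integral_add]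
    · apply intervalIntegral.integral_mono_on (by positivity)
      · exact (hint.const_mul c).add
          (((hcs.sub continuous_const).max continuous_const).intervalIntegrable _ _)
      · exact ((hcs.sub continuous_const).max continuous_const).intervalIntegrable _ _
      · intro θ _
        split_ifs with h
        · rw [max_eq_left (by linarith), mul_one]
          refine le_trans ?_ (le_max_left _ _)
          linarith
        · rw [max_eq_right (by linarith)]
          simp
    · exact hint.const_mul c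
    · exact ((hcs.sub continuous_const).max continuous_const).intervalIntegrable _ _
  linarith

end Pool.Agent.Lib.MP_7ab245_nt.L1
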