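import Mathlib
import Pool.Agent.Lib.MP_7ab245_nt.L1.Poi1
import Pool.Agent.Lib.MP_7ab245_nt.Len.Refl

/-! The potential `VV y 0` is the Poisson integral of its boundary values. -/

set_option autoImplicit false

open Polynomial Finset

namespace Pool.Agent.Lib.MP_7ab245_nt.L1

open Pool.Agent.Lib.MP_7ab245_nt.Len

private theorem rep_circleIntegrable_term (w : ℂ) :
    CircleIntegrable (fun z : ℂ => Real.log ‖1 - z * starRingEnd ℂ w‖) 0 1 := by
  have h : MeromorphicOn (fun z : ℂ => 1 - z * starRingEnd ℂ w) (Metric.sphere 0 |(1 : ℝ)|) := by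
    intro z _
    have h1 : AnalyticAt ℂ (fun z : ℂ => 1 - z * starRingEnd ℂ w) z := by fun_prop
    exact h1.meromorphicAt
  exact h.circleIntegrable_log_norm

theorem circleIntegrable_VV {m : ℕ} (y : Fin m → ℂ) : CircleIntegrable (VV y 0) 0 1 := by
  have h1 : VV y 0 = fun z => 0 - ∑ j, Real.log ‖1 - z * starRingEnd ℂ (y j)‖ := by
    funext z
    rfl
  rw [h1]
  have h2 : CircleIntegrable (fun z => ∑ j, Real.log ‖1 - z * starRingEnd ℂ (y j)‖) 0 1 :=
    CircleIntegrable.fun_sum _ fun j _ => rep_circleIntegrable_term (y j)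
  have h3 : (fun z : ℂ => 0 - ∑ j, Real.log ‖1 - z * starRingEnd ℂ (y j)‖) =
      -(fun z => ∑ j, Real.log ‖1 - z * starRingEnd ℂ (y j)‖) := by
    funext z
    simp
  rw [h3]
  exact h2.neg

private theorem rep_term (w : ℂ) (hw : ‖w‖ ≤ 1) (z : ℂ) (hz : ‖z‖ < 1) :
    Real.circleAverage (fun ζ => poissonKernel 0 z ζ * Real.log ‖1 - ζ * starRingEnd ℂ w‖) 0 1 =
      Real.log ‖1 - z * starRingEnd ℂ w‖ := by
  have hz' : z ∈ Metric.ball (0 : ℂ) 1 := by simpa using hz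
  rcases hw.lt_or_eq with hw1 | hw1
  · have hh : InnerProductSpace.HarmonicOnNhd
        (fun ζ : ℂ => Real.log ‖1 - ζ * starRingEnd ℂ w‖) (Metric.closedBall 0 1) := by
      intro ζ hζ
      have hζ' : ‖ζ‖ ≤ 1 := by simpa using hζ
      have h1 : AnalyticAt ℂ (fun z : ℂ => 1 - z * starRingEnd ℂ w) ζ := by fun_prop
      refine AnalyticAt.harmonicAt_log_norm h1 ?_
      intro h0
      have h2 : ζ * starRingEnd ℂ w = 1 := by
        have : (1 : ℂ) - ζ * starRingEnd ℂ w = 0 := h0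
        linear_combination -this
      have h3 : ‖ζ‖ * ‖w‖ = 1 := by
        have := congrArg norm h2
        simpa using this
      have h4 : ‖ζ‖ * ‖w‖ ≤ 1 * ‖w‖ := mul_le_mul_of_nonneg_right hζ' (norm_nonneg _)
      linarith
    exact hh.circleAverage_poissonKernel_smul hz'
  · have hww : w * starRingEnd ℂ w = 1 := by
      rw [Complex.mul_conj, Complex.normSq_eq_norm_sq, hw1]
      norm_num
    have hnorm : ∀ ζ : ℂ, ‖1 - ζ * starRingEnd ℂ w‖ = ‖ζ - w‖ := by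
      intro ζ
      have h1 : 1 - ζ * starRingEnd ℂ w = (w - ζ) * starRingEnd ℂ w := by
        linear_combination -hww
      rw [h1, norm_mul, RCLike.norm_conj, hw1, mul_one, norm_sub_rev]
    have hsph : w ∈ Metric.sphere (0 : ℂ) 1 := by simpa using hw1
    have h2 := circleAverage_re_herglotzRieszKernel_mul_log hsph hz'
    rw [hnorm, ← h2]
    congr 1
    funext ζ
    rw [hnorm, poissonKernel_eq_re_herglotzRieszKernel]
    rfl

theorem VV_eq_PP {m : ℕ} (y : Fin m → ℂ) (hy : ∀ l, ‖y l‖ ≤ 1) (z : ℂ) (hz : ‖z‖ < 1) :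
    VV y 0 z = PP (VV y 0) z := by
  unfold PP
  have h1 : (fun ζ => poissonKernel 0 z ζ * VV y 0 ζ) =
      fun ζ => (-1 : ℝ) • ∑ j, poissonKernel 0 z ζ * Real.log ‖1 - ζ * starRingEnd ℂ (y j)‖ := by
    funext ζ
    show poissonKernel 0 z ζ * (0 - ∑ j, Real.log ‖1 - ζ * starRingEnd ℂ (y j)‖) = _
    rw [zero_sub, mul_neg, mul_sum, smul_eq_mul, neg_one_mul]
  rw [h1, Real.circleAverage_fun_smul, Real.circleAverage_fun_sum]
  · have h2 : ∑ j, Real.circleAverage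
        (fun ζ => poissonKernel 0 z ζ * Real.log ‖1 - ζ * starRingEnd ℂ (y j)‖) 0 1 =
        ∑ j, Real.log ‖1 - z * starRingEnd ℂ (y j)‖ :=
      sum_congr rfl fun j _ => rep_term (y j) (hy j) z hz
    rw [h2, smul_eq_mul, neg_one_mul]
    show 0 - _ = _
    rw [zero_sub]
  · intro j _
    exact circleIntegrable_PP _ (rep_circleIntegrable_term (y j)) z hz

theorem abs_VV_le_PP {m : ℕ} (y : Fin m → ℂ) (hy : ∀ l, ‖y l‖ ≤ 1) (W : ℂ → ℝ)
    (hWi : CircleIntegrable W 0 1) (hWV : ∀ ζ : ℂ, ‖ζ‖ = 1 → |VV y 0 ζ| ≤ W ζ) (z : ℂ)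
    (hz : ‖z‖ < 1) : |VV y 0 z| ≤ PP W z := by
  have hV := circleIntegrable_VV y
  have h1 : PP (VV y 0) z ≤ PP W z :=
    PP_mono _ _ hV hWi (fun ζ hζ => (le_abs_self _).trans (hWV ζ hζ)) z hz
  have h2 : PP (-(VV y 0)) z ≤ PP W z :=
    PP_mono _ _ hV.neg hWi (fun ζ hζ => (neg_le_abs _).trans (hWV ζ hζ)) z hz
  have h3 : PP (-(VV y 0)) z = -PP (VV y 0) z := by
    unfold PP
    have h4 : (fun ζ => poissonKernel 0 z ζ * (-(VV y 0)) ζ) =
        fun ζ => (-1 : ℝ) • (poissonKernel 0 z ζ * VV y 0 ζ) := by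
      funext ζ
      simp
    rw [h4, Real.circleAverage_fun_smul, smul_eq_mul, neg_one_mul]
  rw [VV_eq_PP y hy z hz, abs_le]
  constructor
  · rw [h3] at h2
    linarith
  · exact h1

end Pool.Agent.Lib.MP_7ab245_nt.L1
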