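import Mathlib
import Pool.Agent.Lib.MP_7ab245_nt.L1.Poi2
import Pool.Agent.Lib.MP_7ab245_nt.L1.Poi3
import Pool.Agent.Lib.MP_7ab245_nt.L1.Rep
import Pool.Agent.Lib.MP_7ab245_nt.Len.Pot1
import Pool.Agent.Lib.MP_7ab245_nt.Len.Pot3

/-! Counting the points above which the Poisson integral is large. -/

set_option autoImplicit false

open Polynomial Finset

namespace Pool.Agent.Lib.MP_7ab245_nt.L1

open Pool.Agent.Lib.MP_7ab245_nt.Len

theorem count_scale {m : ℕ} (y : Fin m → ℂ) (hy : ∀ l, ‖y l‖ ≤ 1) (h0 : ∀ l, y l ≠ 0)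
    (W : ℂ → ℝ) (hWi : CircleIntegrable W 0 1) (hWV : ∀ ζ : ℂ, ‖ζ‖ = 1 → |VV y 0 ζ| ≤ W ζ)
    (σ : ℝ) (hσ : 0 < σ) (hσ' : σ ≤ Real.pi) :
    ((univ.filter fun l => Real.exp (-σ) ≤ ‖y l‖ ∧ m * σ < PP W (pt σ (y l).arg) ∧
      PP W (pt (2 * σ) (y l).arg) ≤ 2 * (m * σ)).card : ℝ) ≤
      300 * m * lvlW W (m * σ / 3) σ := by
  classical
  have hW0 : ∀ ζ : ℂ, ‖ζ‖ = 1 → 0 ≤ W ζ := fun ζ hζ => (abs_nonneg _).trans (hWV ζ hζ)
  set Z : Finset (Fin m) := univ.filter fun l => Real.exp (-σ) ≤ ‖y l‖ ∧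
      m * σ < PP W (pt σ (y l).arg) ∧ PP W (pt (2 * σ) (y l).arg) ≤ 2 * (m * σ) with hZ
  have hlog2 : 0 < Real.log 2 := Real.log_pos (by norm_num)
  have h2σ : 0 < 2 * σ := by linarith
  have hms : 0 ≤ (m : ℝ) * σ := by positivity
  have hpi := Real.pi_pos
  -- pointwise bound
  have hpt : ∀ θ : ℝ, ∑ l ∈ Z, gg σ (θ - (y l).arg) ≤
      73 * (m * σ) * (if m * σ / 3 ≤ PP W (pt σ θ) then 1 else 0) := by
    intro θ
    have hsum : ∑ l ∈ Z, gg σ (θ - (y l).arg) =
        ((Z.filter fun l => Real.cos σ ≤ Real.cos (θ - (y l).arg)).card : ℝ) := by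
      unfold gg
      rw [sum_ite]
      simp
    rw [hsum]
    set near := Z.filter fun l => Real.cos σ ≤ Real.cos (θ - (y l).arg) with hnear
    rcases near.eq_empty_or_nonempty with hem | ⟨l, hl⟩
    · rw [hem]
      simp only [card_empty, Nat.cast_zero]
      split_ifs <;> simp <;> positivity
    · have hl' := hl
      rw [hnear, mem_filter, hZ, mem_filter] at hl'
      obtain ⟨⟨_, _, h1, h2⟩, hcos⟩ := hl'
      have h3 := PP_shift W hWi hW0 σ θ (y l).arg hσ hσ' hcos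
      have h4 : m * σ / 3 ≤ PP W (pt σ θ) := by linarith
      rw [if_pos h4, mul_one]
      have hcos' : Real.cos σ ≤ Real.cos ((y l).arg - θ) := by
        rw [← Real.cos_neg ((y l).arg - θ), neg_sub]; exact hcos
      have h5 := PP_shift_two W hWi hW0 σ (y l).arg θ hσ hσ' hcos'
      have h6 := PP_radial_ge W hWi hW0 σ (2 * σ) θ hσ (by linarith)
      have h10 : 2 * σ / σ = 2 := by field_simp
      rw [h10] at h6
      have h7 := VV_sub_ge y hy 0 σ (2 * σ) θ hσ (by linarith)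
      rw [h10] at h7
      have h8 := card_le_KK y hy h0 σ θ hσ hσ'
      have h9 : (near.card : ℝ) ≤ ((univ.filter fun j => Real.exp (-σ) ≤ ‖y j‖ ∧
          Real.cos σ ≤ Real.cos (θ - (y j).arg)).card : ℝ) := by
        have : near ⊆ univ.filter fun j => Real.exp (-σ) ≤ ‖y j‖ ∧
            Real.cos σ ≤ Real.cos (θ - (y j).arg) := by
          intro i hi
          rw [hnear, mem_filter, hZ, mem_filter] at hi
          rw [mem_filter]
          exact ⟨mem_univ _, hi.1.2.1, hi.2⟩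
        exact_mod_cast card_le_card this
      have h11 := abs_VV_le_PP y hy W hWi hWV (pt σ θ) (norm_pt_lt hσ θ)
      have h12 := abs_VV_le_PP y hy W hWi hWV (pt (2 * σ) θ) (norm_pt_lt h2σ θ)
      have h13 := le_abs_self (VV y 0 (pt σ θ))
      have h14 := neg_abs_le (VV y 0 (pt (2 * σ) θ))
      have h15 : σ * KK y (pt σ θ) * Real.log 2 ≤ 25 * (m * σ) := by linarith
      have h16 := Real.log_two_gt_d9
      have h17 : 0 ≤ σ * KK y (pt σ θ) := by
        have : (0 : ℝ) ≤ (univ.filter fun j => Real.exp (-σ) ≤ ‖y j‖ ∧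
          Real.cos σ ≤ Real.cos (θ - (y j).arg)).card := Nat.cast_nonneg _
        linarith
      have h18 : σ * KK y (pt σ θ) * 0.6931471803 ≤ 25 * (m * σ) :=
        (mul_le_mul_of_nonneg_left h16.le h17).trans h15
      linarith
  -- integrability
  have hcP : Continuous fun θ => PP W (pt σ θ) := continuous_PP_pt W hWi σ hσ
  have hmeas : Measurable fun θ : ℝ => (if m * σ / 3 ≤ PP W (pt σ θ) then (1 : ℝ) else 0) :=
    Measurable.ite (measurableSet_le measurable_const hcP.measurable)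
      measurable_const measurable_const
  have hI1 : IntervalIntegrable
      (fun θ : ℝ => (if m * σ / 3 ≤ PP W (pt σ θ) then (1 : ℝ) else 0))
      MeasureTheory.volume 0 (2 * Real.pi) := by
    refine (intervalIntegrable_const (c := (1 : ℝ))).mono_fun' hmeas.aestronglyMeasurable ?_
    refine Filter.Eventually.of_forall fun θ => ?_
    show ‖(if m * σ / 3 ≤ PP W (pt σ θ) then (1 : ℝ) else 0)‖ ≤ 1
    split_ifs <;> simp
  have hI3 : IntervalIntegrable (fun θ => ∑ l ∈ Z, gg σ (θ - (y l).arg))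
      MeasureTheory.volume 0 (2 * Real.pi) := by
    have e : (fun θ => ∑ l ∈ Z, gg σ (θ - (y l).arg)) =
        ∑ l ∈ Z, fun θ => gg σ (θ - (y l).arg) := by
      funext θ
      rw [Finset.sum_apply]
    rw [e]
    apply IntervalIntegrable.sum
    intro i _
    exact intervalIntegrable_gg _ _ _ _
  have hint : ∫ θ in (0 : ℝ)..(2 * Real.pi), ∑ l ∈ Z, gg σ (θ - (y l).arg) ≤
      ∫ θ in (0 : ℝ)..(2 * Real.pi),
        73 * (m * σ) * (if m * σ / 3 ≤ PP W (pt σ θ) then (1 : ℝ) else 0) := by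
    apply intervalIntegral.integral_mono_on (by positivity) hI3 (hI1.const_mul _)
    intro θ _
    exact hpt θ
  rw [intervalIntegral.integral_const_mul,
    intervalIntegral.integral_finsetSum (fun i _ => intervalIntegrable_gg _ _ _ _)] at hint
  have hlow : (Z.card : ℝ) * (2 * σ) ≤
      ∑ l ∈ Z, ∫ θ in (0 : ℝ)..(2 * Real.pi), gg σ (θ - (y l).arg) := by
    rw [← nsmul_eq_mul]
    exact card_nsmul_le_sum _ _ _ fun i _ => integral_gg σ _ hσ hσ'
  have h20 := hlow.trans hint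
  set J : ℝ := ∫ θ in (0 : ℝ)..(2 * Real.pi),
    (if m * σ / 3 ≤ PP W (pt σ θ) then (1 : ℝ) else 0) with hJ
  have hJ0 : 0 ≤ J := by
    rw [hJ]
    apply intervalIntegral.integral_nonneg (by positivity)
    intro θ _
    split_ifs <;> norm_num
  have hlv : J = 2 * Real.pi * lvlW W (m * σ / 3) σ := by
    unfold lvlW
    rw [← hJ]
    field_simp
  have hlv0 : 0 ≤ lvlW W (m * σ / 3) σ := by
    unfold lvlW
    rw [← hJ]
    positivity
  rw [hlv] at h20
  have h21 : (Z.card : ℝ) ≤ 73 * m * (Real.pi * lvlW W (m * σ / 3) σ) := by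
    have h22 : (Z.card : ℝ) * (2 * σ) ≤
        (73 * m * (Real.pi * lvlW W (m * σ / 3) σ)) * (2 * σ) := by
      calc (Z.card : ℝ) * (2 * σ) ≤ _ := h20
        _ = _ := by ring
    exact le_of_mul_le_mul_right h22 h2σ
  have h23 : Real.pi ≤ 4 := Real.pi_le_four
  have h24 : (m : ℝ) * (Real.pi * lvlW W (m * σ / 3) σ) ≤ m * (4 * lvlW W (m * σ / 3) σ) := by
    gcongr
  nlinarith [h21, h24]

end Pool.Agent.Lib.MP_7ab245_nt.L1
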