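import Mathlib
import Pool.Agent.Lib.MP_7ab245_nt.L1.Count

/-! The sum of the first good scales. -/

set_option autoImplicit false

open Polynomial Finset

namespace Pool.Agent.Lib.MP_7ab245_nt.L1

open Pool.Agent.Lib.MP_7ab245_nt.Len

private theorem JJ_mem (W : ℂ → ℝ) (hWi : CircleIntegrable W 0 1)
    (hW0 : ∀ ζ : ℂ, ‖ζ‖ = 1 → 0 ≤ W ζ) (m : ℕ) (hm : 0 < m) (z : ℂ) :
    JJ W m z ∈ {j : ℕ | ∀ i : ℕ, j ≤ i → PP W (pt ((2 : ℝ) ^ i / m) z.arg) ≤ (2 : ℝ) ^ i} := by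
  refine Nat.sInf_mem ?_
  obtain ⟨j, hj⟩ := pow_unbounded_of_one_lt (max (m : ℝ) (3 * Real.circleAverage W 0 1))
    (show (1 : ℝ) < 2 by norm_num)
  refine ⟨j, fun i hi => ?_⟩
  have h1 : (2 : ℝ) ^ j ≤ (2 : ℝ) ^ i := pow_le_pow_right₀ (by norm_num) hi
  have hm' : (0 : ℝ) < m := by exact_mod_cast hm
  have h2 : (1 : ℝ) ≤ (2 : ℝ) ^ i / m := by
    rw [le_div_iff₀ hm', one_mul]
    exact ((le_max_left _ _).trans hj.le).trans h1
  exact (PP_large W hWi hW0 _ _ h2).trans (((le_max_right _ _).trans hj.le).trans h1)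

theorem JJ_spec (W : ℂ → ℝ) (hWi : CircleIntegrable W 0 1)
    (hW0 : ∀ ζ : ℂ, ‖ζ‖ = 1 → 0 ≤ W ζ) (m : ℕ) (hm : 0 < m) (z : ℂ) (i : ℕ)
    (hi : JJ W m z ≤ i) : PP W (pt ((2 : ℝ) ^ i / m) z.arg) ≤ (2 : ℝ) ^ i :=
  JJ_mem W hWi hW0 m hm z i hi

theorem JJ_pred (W : ℂ → ℝ) (hWi : CircleIntegrable W 0 1)
    (hW0 : ∀ ζ : ℂ, ‖ζ‖ = 1 → 0 ≤ W ζ) (m : ℕ) (hm : 0 < m) (z : ℂ) (i : ℕ)
    (hi : JJ W m z = i + 1) : (2 : ℝ) ^ i < PP W (pt ((2 : ℝ) ^ i / m) z.arg) := by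
  by_contra hcon
  rw [not_lt] at hcon
  have h1 : JJ W m z ≤ i := by
    refine Nat.sInf_le ?_
    intro i' hi'
    rcases Nat.eq_or_lt_of_le hi' with rfl | hlt
    · exact hcon
    · exact JJ_spec W hWi hW0 m hm z i' (by omega)
  omega

private theorem lvlW_nonneg (W : ℂ → ℝ) (c s : ℝ) : 0 ≤ lvlW W c s := by
  unfold lvlW
  refine mul_nonneg (by positivity) ?_
  refine intervalIntegral.integral_nonneg (by positivity) fun θ _ => ?_
  split_ifs <;> norm_num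

theorem count_main {m : ℕ} (hm : 0 < m) (y : Fin m → ℂ) (hy : ∀ l, ‖y l‖ ≤ 1)
    (h0 : ∀ l, y l ≠ 0)
    (W : ℂ → ℝ) (hWi : CircleIntegrable W 0 1) (hWV : ∀ ζ : ℂ, ‖ζ‖ = 1 → |VV y 0 ζ| ≤ W ζ) :
    ∑ l, (2 : ℝ) ^ (JJ W m (y l)) ≤
      4000 * m * (1 + Real.circleAverage W 0 1 + ∑ l, -Real.log ‖y l‖) := by
  classical
  have hW0 : ∀ ζ : ℂ, ‖ζ‖ = 1 → 0 ≤ W ζ := fun ζ hζ => (abs_nonneg _).trans (hWV ζ hζ)
  have hm' : (0 : ℝ) < m := by exact_mod_cast hm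
  set a : ℝ := Real.circleAverage W 0 1 with ha
  have ha0 : 0 ≤ a := (PhiW_nonneg W 1 1).trans (PhiW_le W hWi hW0 1 1 zero_le_one one_pos)
  have hδ : ∀ l, 0 ≤ -Real.log ‖y l‖ := fun l => by
    rw [neg_nonneg]
    exact Real.log_nonpos (norm_nonneg _) (hy l)
  -- the sets of points at a given scale
  set Z : ℕ → Finset (Fin m) := fun i => univ.filter fun l =>
    Real.exp (-((2 : ℝ) ^ i / m)) ≤ ‖y l‖ ∧ m * ((2 : ℝ) ^ i / m) < PP W (pt ((2 : ℝ) ^ i / m)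
      (y l).arg) ∧ PP W (pt (2 * ((2 : ℝ) ^ i / m)) (y l).arg) ≤ 2 * (m * ((2 : ℝ) ^ i / m)) with hZ
  set T : ℕ → Finset (Fin m) := fun i => if (2 : ℝ) ^ i / m ≤ Real.pi then Z i else ∅ with hT
  set Ψ : ℕ → ℝ := fun i => PhiW W ((2 : ℝ) ^ i / 6) ((2 : ℝ) ^ i / (2 * m)) with hΨ
  have hstep : ∀ i, (2 : ℝ) ^ i * ((T i).card : ℝ) ≤ 1800 * m * (Ψ i - Ψ (i + 1)) := by
    intro i
    have h1 := lvlW_le W hWi ((2 : ℝ) ^ i / 6) ((2 : ℝ) ^ i / (2 * m)) (by positivity)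
      (by positivity)
    have e1 : 2 * ((2 : ℝ) ^ i / 6) = (2 : ℝ) ^ (i + 1) / 6 := by ring
    have e2 : 2 * ((2 : ℝ) ^ i / (2 * m)) = (2 : ℝ) ^ (i + 1) / (2 * m) := by ring
    rw [e1, e2] at h1
    have e3 : (2 : ℝ) ^ (i + 1) / 6 = m * ((2 : ℝ) ^ i / m) / 3 := by
      field_simp; ring
    have e4 : (2 : ℝ) ^ (i + 1) / (2 * m) = (2 : ℝ) ^ i / m := by
      field_simp; ring
    have hcard : ((T i).card : ℝ) ≤ 300 * m * lvlW W (m * ((2 : ℝ) ^ i / m) / 3)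
        ((2 : ℝ) ^ i / m) := by
      simp only [hT]
      split_ifs with hpi
      · exact count_scale y hy h0 W hWi hWV _ (by positivity) hpi
      · rw [card_empty, Nat.cast_zero]
        exact mul_nonneg (by positivity) (lvlW_nonneg _ _ _)
    have h2 : (2 : ℝ) ^ i * ((T i).card : ℝ) ≤
        1800 * m * ((2 : ℝ) ^ i / 6 * lvlW W (m * ((2 : ℝ) ^ i / m) / 3) ((2 : ℝ) ^ i / m)) := by
      calc (2 : ℝ) ^ i * ((T i).card : ℝ) ≤ (2 : ℝ) ^ i * (300 * m * lvlW W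
            (m * ((2 : ℝ) ^ i / m) / 3) ((2 : ℝ) ^ i / m)) := by gcongr
        _ = _ := by ring
    refine h2.trans ?_
    refine mul_le_mul_of_nonneg_left ?_ (by positivity)
    rw [← e3, ← e4]
    exact h1
  -- pointwise bound
  obtain ⟨I, hI⟩ : ∃ I : ℕ, ∀ l, JJ W m (y l) ≤ I :=
    ⟨∑ l, JJ W m (y l), fun l => single_le_sum (f := fun l => JJ W m (y l))
      (fun _ _ => Nat.zero_le _) (mem_univ l)⟩
  have hpoint : ∀ l, (2 : ℝ) ^ (JJ W m (y l)) ≤ 1 + 6 * a + 2 * m * (-Real.log ‖y l‖)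
      + 2 * ∑ i ∈ range I, (2 : ℝ) ^ i * (if l ∈ T i then 1 else 0) := by
    intro l
    have hs0 : 0 ≤ ∑ i ∈ range I, (2 : ℝ) ^ i * (if l ∈ T i then (1 : ℝ) else 0) := by
      refine sum_nonneg fun i _ => mul_nonneg (by positivity) ?_
      split_ifs <;> norm_num
    have hd := hδ l
    have hmd : 0 ≤ 2 * m * (-Real.log ‖y l‖) := mul_nonneg (by positivity) hd
    rcases Nat.eq_zero_or_pos (JJ W m (y l)) with hz | hz
    · rw [hz, pow_zero]
      linarith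
    · obtain ⟨i, hi⟩ : ∃ i, JJ W m (y l) = i + 1 := ⟨JJ W m (y l) - 1, by omega⟩
      have hp := JJ_pred W hWi hW0 m hm (y l) i hi
      have hq := JJ_spec W hWi hW0 m hm (y l) (i + 1) hi.le
      rw [hi, pow_succ]
      by_cases hα : (2 : ℝ) ^ i / m ≤ Real.pi
      · by_cases hβ : Real.exp (-((2 : ℝ) ^ i / m)) ≤ ‖y l‖
        · have hlT : l ∈ T i := by
            simp only [hT, if_pos hα, hZ, mem_filter, mem_univ, true_and]
            have e1 : m * ((2 : ℝ) ^ i / m) = (2 : ℝ) ^ i := by field_simp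
            have e2 : 2 * ((2 : ℝ) ^ i / m) = (2 : ℝ) ^ (i + 1) / m := by ring
            rw [e1, e2]
            refine ⟨hβ, hp, ?_⟩
            rw [← pow_succ']
            exact hq
          have hiI : i ∈ range I := by
            rw [mem_range]
            have := hI l
            omega
          have h3 : (2 : ℝ) ^ i * (if l ∈ T i then (1 : ℝ) else 0) ≤
              ∑ i ∈ range I, (2 : ℝ) ^ i * (if l ∈ T i then (1 : ℝ) else 0) := by
            refine single_le_sum (f := fun i => (2 : ℝ) ^ i * (if l ∈ T i then (1 : ℝ) else 0))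
              (fun i _ => mul_nonneg (by positivity) ?_) hiI
            split_ifs <;> norm_num
          rw [if_pos hlT, mul_one] at h3
          linarith
        · rw [not_le] at hβ
          have h4 : (2 : ℝ) ^ i / m < -Real.log ‖y l‖ := by
            have h5 := Real.log_lt_log (norm_pos_iff.2 (h0 l)) hβ
            rw [Real.log_exp] at h5
            linarith
          rw [div_lt_iff₀ hm'] at h4
          nlinarith
      · rw [not_le] at hα
        have h6 := PP_large W hWi hW0 ((2 : ℝ) ^ i / m) (y l).arg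
          (by linarith [Real.pi_gt_three])
        rw [← ha] at h6
        linarith
  calc ∑ l, (2 : ℝ) ^ (JJ W m (y l))
      ≤ ∑ l, (1 + 6 * a + 2 * m * (-Real.log ‖y l‖)
        + 2 * ∑ i ∈ range I, (2 : ℝ) ^ i * (if l ∈ T i then 1 else 0)) :=
        sum_le_sum fun l _ => hpoint l
    _ = m * (1 + 6 * a) + 2 * m * (∑ l, -Real.log ‖y l‖)
        + 2 * ∑ i ∈ range I, (2 : ℝ) ^ i * ((T i).card : ℝ) := by
        rw [sum_add_distrib, sum_add_distrib, ← mul_sum, ← mul_sum, sum_comm]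
        simp only [sum_const, card_univ, Fintype.card_fin, nsmul_eq_mul]
        congr 2
        refine sum_congr rfl fun i _ => ?_
        rw [← mul_sum]
        congr 1
        rw [sum_ite_mem, univ_inter]
        simp
    _ ≤ m * (1 + 6 * a) + 2 * m * (∑ l, -Real.log ‖y l‖)
        + 2 * ∑ i ∈ range I, 1800 * m * (Ψ i - Ψ (i + 1)) := by
        have := sum_le_sum (s := range I) fun i _ => hstep i
        linarith
    _ = m * (1 + 6 * a) + 2 * m * (∑ l, -Real.log ‖y l‖) + 3600 * m * (Ψ 0 - Ψ I) := by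
        rw [← mul_sum, sum_range_sub']
        ring
    _ ≤ m * (1 + 6 * a) + 2 * m * (∑ l, -Real.log ‖y l‖) + 3600 * m * a := by
        have h7 : Ψ 0 ≤ a := PhiW_le W hWi hW0 _ _ (by positivity) (by positivity)
        have h8 : 0 ≤ Ψ I := PhiW_nonneg _ _ _
        have : 3600 * (m : ℝ) * (Ψ 0 - Ψ I) ≤ 3600 * m * a :=
          mul_le_mul_of_nonneg_left (by linarith) (by positivity)
        linarith
    _ ≤ 4000 * m * (1 + a + ∑ l, -Real.log ‖y l‖) := by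
        have hS : 0 ≤ ∑ l, -Real.log ‖y l‖ := sum_nonneg fun l _ => hδ l
        nlinarith [mul_nonneg hm'.le ha0, mul_nonneg hm'.le hS]

end Pool.Agent.Lib.MP_7ab245_nt.L1
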