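import Mathlib
import Pool.Agent.Lib.MP_7ab245_nt.L1.Defs
import Pool.Agent.Lib.MP_7ab245_nt.Len.Energy

/-! The kernel `ker 0` on the open unit disc: elementary facts, Cauchy-Schwarz. -/

set_option autoImplicit false

open Polynomial Finset

namespace Pool.Agent.Lib.MP_7ab245_nt.L1

open Pool.Agent.Lib.MP_7ab245_nt.Len

theorem ker_zero_eq (x y : ℂ) : ker 0 x y = -Real.log ‖1 - x * starRingEnd ℂ y‖ := by
  simp [ker]

theorem ker_zero_exp (a b : ℝ) (x y : ℂ) :
    ker 0 ((Real.exp (-a) : ℂ) * x) ((Real.exp (-b) : ℂ) * y) = ker (a + b) x y := by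
  have e : (Real.exp (-0) : ℂ) * ((Real.exp (-a) : ℂ) * x *
      starRingEnd ℂ ((Real.exp (-b) : ℂ) * y)) =
      (Real.exp (-(a + b)) : ℂ) * (x * starRingEnd ℂ y) := by
    rw [map_mul, Complex.conj_ofReal, neg_zero, Real.exp_zero, neg_add, Real.exp_add]
    push_cast
    ring
  rw [ker, ker, e]

theorem ker_zero_exp_pow (a b : ℝ) (p q : ℕ) (x y : ℂ) :
    ker 0 (((Real.exp (-a) : ℂ) * x) ^ p) (((Real.exp (-b) : ℂ) * y) ^ q) =
      ker (p * a + q * b) (x ^ p) (y ^ q) := by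
  have e : ∀ (a : ℝ) (p : ℕ), ((Real.exp (-a) : ℂ)) ^ p = (Real.exp (-(p * a)) : ℂ) := by
    intro a p
    rw [← Complex.ofReal_pow, ← Real.exp_nat_mul]
    congr 2
    ring
  rw [mul_pow, mul_pow, e, e, ker_zero_exp]

theorem ker_zero_symm (x y : ℂ) : ker 0 x y = ker 0 y x := by
  rw [ker_zero_eq, ker_zero_eq, ← RCLike.norm_conj (1 - x * starRingEnd ℂ y), map_sub, map_one,
    map_mul, Complex.conj_conj, mul_comm]

/-- more smoothing increases the kernel by at most the amount of smoothing -/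
theorem ker_le_add (s s' : ℝ) (x y : ℂ) (h0 : 0 ≤ s') (hss : s' ≤ s) (hx : ‖x‖ ≤ 1)
    (hy : ‖y‖ ≤ 1) (hne : 0 < s' ∨ x * starRingEnd ℂ y ≠ 1) :
    ker s x y ≤ ker s' x y + (s - s') := by
  have hw : ‖x * starRingEnd ℂ y‖ ≤ 1 := by
    rw [norm_mul, RCLike.norm_conj]
    exact mul_le_one₀ hx (norm_nonneg _) hy
  set w := x * starRingEnd ℂ y with hwdef
  set u : ℂ := (Real.exp (-s') : ℂ) * w with hu
  have hexp : Real.exp (-s') ≤ 1 := Real.exp_le_one_iff.mpr (by linarith)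
  have hnu : ‖u‖ ≤ Real.exp (-s') := by
    rw [hu, norm_mul, Complex.norm_real, Real.norm_of_nonneg (Real.exp_pos _).le]
    exact mul_le_of_le_one_right (Real.exp_pos _).le hw
  have hu1 : ‖u‖ ≤ 1 := hnu.trans hexp
  have hune : 1 - u ≠ 0 := by
    intro h
    have h1 : u = 1 := (sub_eq_zero.mp h).symm
    rcases eq_or_lt_of_le h0 with h2 | h2
    · rcases hne with h3 | h3
      · rw [← h2] at h3
        exact lt_irrefl _ h3
      · apply h3
        rw [hu, ← h2, neg_zero, Real.exp_zero] at h1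
        simpa using h1
    · rw [h1, norm_one] at hnu
      have : Real.exp (-s') < 1 := Real.exp_lt_one_iff.mpr (by linarith)
      linarith
  set t := s - s' with ht
  have ht0 : 0 ≤ t := by rw [ht]; linarith
  have het : 1 ≤ Real.exp t := Real.one_le_exp ht0
  have hkey : ‖1 - u‖ ≤ ‖(Real.exp t : ℂ) - u‖ := by
    have hre : u.re ≤ 1 := (Complex.re_le_norm u).trans hu1
    rw [← abs_of_nonneg (norm_nonneg (1 - u)), ← abs_of_nonneg (norm_nonneg ((Real.exp t : ℂ) - u)),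
      ← sq_le_sq, Complex.sq_norm, Complex.sq_norm, Complex.normSq_apply, Complex.normSq_apply]
    simp only [Complex.sub_re, Complex.sub_im, Complex.one_re, Complex.one_im, Complex.ofReal_re,
      Complex.ofReal_im]
    nlinarith
  have e1 : (Real.exp t : ℂ) - u = (Real.exp t : ℂ) * (1 - (Real.exp (-s) : ℂ) * w) := by
    have e2 : Real.exp t * Real.exp (-s) = Real.exp (-s') := by
      rw [← Real.exp_add]
      congr 1
      rw [ht]
      ring
    rw [mul_sub, mul_one, ← mul_assoc, ← Complex.ofReal_mul, e2]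
  rw [e1, norm_mul, Complex.norm_real, Real.norm_of_nonneg (Real.exp_pos _).le] at hkey
  have hpos : 0 < ‖1 - u‖ := norm_pos_iff.mpr hune
  have hne2 : ‖1 - (Real.exp (-s) : ℂ) * w‖ ≠ 0 := by
    intro h
    rw [h, mul_zero] at hkey
    linarith
  have hlog := Real.log_le_log hpos hkey
  rw [Real.log_mul (Real.exp_pos _).ne' hne2, Real.log_exp] at hlog
  rw [ker, ker, ← hwdef, ← hu]
  linarith

/-- the same for points moved towards the origin -/
theorem ker_zero_le_add (t : ℝ) (x y : ℂ) (ht : 0 ≤ t) (hx : ‖x‖ ≤ 1)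
    (hy : ‖y‖ ≤ 1) (hne : x * starRingEnd ℂ y ≠ 1) :
    ker 0 ((Real.exp (-t) : ℂ) * x) y ≤ ker 0 x y + t := by
  have h1 := ker_zero_exp t 0 x y
  rw [neg_zero, Real.exp_zero, Complex.ofReal_one, one_mul, add_zero] at h1
  rw [h1]
  have h2 := ker_le_add t 0 x y le_rfl ht hx hy (Or.inr hne)
  rwa [sub_zero] at h2

theorem ker_zero_pow (N : ℕ) (hN : 0 < N) (x y : ℂ) (hxy : ‖x‖ * ‖y‖ < 1) :
    ker 0 (x ^ N) (y ^ N) = ∑ ω ∈ nthRootsFinset N (1 : ℂ), ker 0 (ω * x) y := by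
  have hω : ∀ ω ∈ nthRootsFinset N (1 : ℂ), ‖ω‖ = 1 := by
    intro ω hω
    rw [mem_nthRootsFinset hN] at hω
    exact Complex.norm_eq_one_of_pow_eq_one hω hN.ne'
  have h1 : 1 - x ^ N * starRingEnd ℂ (y ^ N) =
      ∏ ω ∈ nthRootsFinset N (1 : ℂ), (1 - ω * x * starRingEnd ℂ y) := by
    rw [map_pow, ← mul_pow, ← prod_one_sub N hN]
    exact Finset.prod_congr rfl fun ω _ => by ring
  rw [ker_zero_eq, h1, norm_prod, Real.log_prod, ← Finset.sum_neg_distrib]
  · exact Finset.sum_congr rfl fun ω _ => (ker_zero_eq _ _).symm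
  · intro ω hω1
    apply norm_ne_zero_iff.mpr
    intro h
    have h2 : ω * x * starRingEnd ℂ y = 1 := (sub_eq_zero.mp h).symm
    have h3 := congrArg norm h2
    rw [norm_one, norm_mul, norm_mul, hω ω hω1, RCLike.norm_conj, one_mul] at h3
    linarith

theorem mul_conj_ne_one (x y : ℂ) (hxy : ‖x‖ * ‖y‖ < 1) : x * starRingEnd ℂ y ≠ 1 := by
  intro h
  have h3 := congrArg norm h
  rw [norm_one, norm_mul, RCLike.norm_conj] at h3
  linarith

theorem tendsto_ker (x y : ℂ) (hxy : ‖x‖ * ‖y‖ < 1) :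
    Filter.Tendsto (fun s => ker s x y) (nhdsWithin 0 (Set.Ioi 0)) (nhds (ker 0 x y)) := by
  have hne : ‖1 - (Real.exp (-0) : ℂ) * (x * starRingEnd ℂ y)‖ ≠ 0 := by
    rw [neg_zero, Real.exp_zero, Complex.ofReal_one, one_mul, norm_ne_zero_iff, sub_ne_zero]
    exact (mul_conj_ne_one x y hxy).symm
  have hc : Continuous fun s : ℝ => ‖1 - (Real.exp (-s) : ℂ) * (x * starRingEnd ℂ y)‖ := by
    fun_prop
  have h : ContinuousAt (fun s => ker s x y) 0 := by
    unfold ker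
    exact (hc.continuousAt.log hne).neg
  exact h.tendsto.mono_left nhdsWithin_le_nhds

private theorem hasSum_ker (s : ℝ) (hs : 0 < s) (x y : ℂ) (hx : ‖x‖ ≤ 1) (hy : ‖y‖ ≤ 1) :
    HasSum (fun l : ℕ => Real.exp (-s * l) / l * ((x * starRingEnd ℂ y) ^ l).re)
      (ker s x y) := by
  set z : ℂ := (Real.exp (-s) : ℂ) * (x * starRingEnd ℂ y) with hz
  have hz1 : ‖z‖ < 1 := by
    rw [hz, norm_mul, norm_mul, Complex.norm_real, RCLike.norm_conj, Real.norm_eq_abs,
      abs_of_pos (Real.exp_pos _)]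
    have h1 : ‖x‖ * ‖y‖ ≤ 1 := mul_le_one₀ hx (norm_nonneg _) hy
    have h2 : Real.exp (-s) < 1 := by
      rw [Real.exp_lt_one_iff]
      linarith
    calc Real.exp (-s) * (‖x‖ * ‖y‖) ≤ Real.exp (-s) * 1 :=
          mul_le_mul_of_nonneg_left h1 (Real.exp_pos _).le
      _ < 1 := by linarith
  have h' := Complex.hasSum_re (Complex.hasSum_taylorSeries_neg_log hz1)
  have e1 : (-Complex.log (1 - z)).re = ker s x y := by
    rw [Complex.neg_re, Complex.log_re, ker]
  rw [e1] at h'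
  have e2 : (fun l : ℕ => (z ^ l / (l : ℂ)).re) =
      fun l : ℕ => Real.exp (-s * l) / l * ((x * starRingEnd ℂ y) ^ l).re := by
    funext l
    have e3 : z ^ l / (l : ℂ) =
        ((Real.exp (-s * l) / l : ℝ) : ℂ) * (x * starRingEnd ℂ y) ^ l := by
      rw [hz, mul_pow, mul_comm (-s) (l : ℝ), Real.exp_nat_mul]
      push_cast
      ring
    rw [e3, Complex.re_ofReal_mul]
  rwa [e2] at h'

/-- Cauchy-Schwarz for the kernel -/
private theorem ker_cs {ι κ : Type} [Fintype ι] [Fintype κ] (x : ι → ℂ) (hx : ∀ i, ‖x i‖ ≤ 1)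
    (y : κ → ℂ) (hy : ∀ j, ‖y j‖ ≤ 1) (b : κ → ℝ) (s : ℝ) (hs : 0 < s) :
    (∑ i, ∑ j, b j * ker s (x i) (y j)) ^ 2 ≤
      (∑ i, ∑ i', ker s (x i) (x i')) * ∑ j, ∑ j', b j * b j' * ker s (y j) (y j') := by
  set A := ∑ i, ∑ i', ker s (x i) (x i') with hA
  set B := ∑ i, ∑ j, b j * ker s (x i) (y j) with hB
  set D := ∑ j, ∑ j', b j * b j' * ker s (y j) (y j') with hD
  have hA' : HasSum (fun l : ℕ => Real.exp (-s * l) / l *
      ((∑ i, x i ^ l) * starRingEnd ℂ (∑ i, x i ^ l)).re) A := by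
    have h : HasSum (fun l : ℕ => ∑ i, ∑ j,
        Real.exp (-s * l) / l * ((x i * starRingEnd ℂ (x j)) ^ l).re) A :=
      hasSum_sum fun i _ => hasSum_sum fun j _ => hasSum_ker s hs _ _ (hx i) (hx j)
    convert h using 2 with l
    rw [map_sum, Finset.sum_mul_sum, Complex.re_sum, Finset.mul_sum]
    refine Finset.sum_congr rfl fun i _ => ?_
    rw [Complex.re_sum, Finset.mul_sum]
    refine Finset.sum_congr rfl fun j _ => ?_
    rw [mul_pow, ← map_pow]
  have hB' : HasSum (fun l : ℕ => Real.exp (-s * l) / l *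
      ((∑ i, x i ^ l) * starRingEnd ℂ (∑ j, (b j : ℂ) * y j ^ l)).re) B := by
    have h : HasSum (fun l : ℕ => ∑ i, ∑ j, b j *
        (Real.exp (-s * l) / l * ((x i * starRingEnd ℂ (y j)) ^ l).re)) B :=
      hasSum_sum fun i _ => hasSum_sum fun j _ => (hasSum_ker s hs _ _ (hx i) (hy j)).mul_left _
    convert h using 2 with l
    rw [map_sum, Finset.sum_mul_sum, Complex.re_sum, Finset.mul_sum]
    refine Finset.sum_congr rfl fun i _ => ?_
    rw [Complex.re_sum, Finset.mul_sum]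
    refine Finset.sum_congr rfl fun j _ => ?_
    rw [mul_pow, ← map_pow, map_mul, Complex.conj_ofReal, mul_left_comm (x i ^ l),
      Complex.re_ofReal_mul]
    ring
  have hD' : HasSum (fun l : ℕ => Real.exp (-s * l) / l *
      ((∑ j, (b j : ℂ) * y j ^ l) * starRingEnd ℂ (∑ j, (b j : ℂ) * y j ^ l)).re) D := by
    have h : HasSum (fun l : ℕ => ∑ i, ∑ j, b i * b j *
        (Real.exp (-s * l) / l * ((y i * starRingEnd ℂ (y j)) ^ l).re)) D :=
      hasSum_sum fun i _ => hasSum_sum fun j _ => (hasSum_ker s hs _ _ (hy i) (hy j)).mul_left _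
    convert h using 2 with l
    rw [map_sum, Finset.sum_mul_sum, Complex.re_sum, Finset.mul_sum]
    refine Finset.sum_congr rfl fun i _ => ?_
    rw [Complex.re_sum, Finset.mul_sum]
    refine Finset.sum_congr rfl fun j _ => ?_
    rw [mul_pow, ← map_pow, map_mul, Complex.conj_ofReal,
      show (b i : ℂ) * y i ^ l * ((b j : ℂ) * starRingEnd ℂ (y j ^ l)) =
        ((b i * b j : ℝ) : ℂ) * (y i ^ l * starRingEnd ℂ (y j ^ l)) by push_cast; ring,
      Complex.re_ofReal_mul]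
    ring
  have hq : ∀ t : ℝ, 0 ≤ A * (t * t) + (2 * B) * t + D := by
    intro t
    have h := ((hA'.mul_left (t * t)).add (hB'.mul_left (2 * t))).add hD'
    have h0 : 0 ≤ t * t * A + 2 * t * B + D := by
      refine h.nonneg fun l => ?_
      set p := ∑ i, x i ^ l
      set r := ∑ j, (b j : ℂ) * y j ^ l
      have e : t * t * (Real.exp (-s * l) / l * (p * starRingEnd ℂ p).re) +
          2 * t * (Real.exp (-s * l) / l * (p * starRingEnd ℂ r).re) +
          Real.exp (-s * l) / l * (r * starRingEnd ℂ r).re =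
          Real.exp (-s * l) / l * Complex.normSq ((t : ℂ) * p + r) := by
        rw [Complex.normSq_add, map_mul, Complex.normSq_ofReal, Complex.mul_conj,
          Complex.mul_conj, Complex.ofReal_re, Complex.ofReal_re, mul_assoc (t : ℂ) p,
          Complex.re_ofReal_mul]
        ring
      rw [e]
      exact mul_nonneg (div_nonneg (Real.exp_pos _).le (Nat.cast_nonneg _))
        (Complex.normSq_nonneg _)
    linarith
  have := discrim_le_zero hq
  rw [discrim] at this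
  nlinarith


/-- Cauchy-Schwarz -/
theorem ker_zero_cs {ι κ : Type} [Fintype ι] [Fintype κ] (x : ι → ℂ) (hx : ∀ i, ‖x i‖ < 1)
    (y : κ → ℂ) (hy : ∀ j, ‖y j‖ < 1) (b : κ → ℝ) :
    (∑ i, ∑ j, b j * ker 0 (x i) (y j)) ^ 2 ≤
      IE x x * ∑ j, ∑ j', b j * b j' * ker 0 (y j) (y j') := by
  have hlt : ∀ a c : ℂ, ‖a‖ < 1 → ‖c‖ < 1 → ‖a‖ * ‖c‖ < 1 := fun a c ha hc =>
    mul_lt_one_of_nonneg_of_lt_one_left (norm_nonneg _) ha hc.le
  refine le_of_tendsto_of_tendsto
    (f := fun s => (∑ i, ∑ j, b j * ker s (x i) (y j)) ^ 2)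
    (g := fun s => (∑ i, ∑ i', ker s (x i) (x i')) * ∑ j, ∑ j', b j * b j' * ker s (y j) (y j'))
    (b := nhdsWithin (0 : ℝ) (Set.Ioi 0)) ?_ ?_ ?_
  · refine Filter.Tendsto.pow (tendsto_finsetSum _ fun i _ => tendsto_finsetSum _ fun j _ => ?_) 2
    exact (tendsto_ker _ _ (hlt _ _ (hx i) (hy j))).const_mul _
  · refine Filter.Tendsto.mul ?_ ?_
    · exact tendsto_finsetSum _ fun i _ => tendsto_finsetSum _ fun j _ =>
        tendsto_ker _ _ (hlt _ _ (hx i) (hx j))
    · exact tendsto_finsetSum _ fun i _ => tendsto_finsetSum _ fun j _ =>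
        (tendsto_ker _ _ (hlt _ _ (hy i) (hy j))).const_mul _
  · filter_upwards [self_mem_nhdsWithin] with s hs
    exact ker_cs x (fun i => (hx i).le) y (fun j => (hy j).le) b s hs

theorem IE_self_nonneg {ι : Type} [Fintype ι] (x : ι → ℂ) (hx : ∀ i, ‖x i‖ < 1) :
    0 ≤ IE x x := by
  have h := ker_zero_cs (κ := Unit) x hx (fun _ => (1 / 2 : ℂ)) (fun _ => by norm_num) (fun _ => 1)
  simp only [Finset.univ_unique, Finset.sum_singleton, one_mul] at h
  have h2 : 0 < ker 0 (1 / 2 : ℂ) (1 / 2) := by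
    rw [ker_zero_eq]
    have e : (1 : ℂ) - 1 / 2 * starRingEnd ℂ (1 / 2) = ((3 / 4 : ℝ) : ℂ) := by
      have : starRingEnd ℂ (1 / 2 : ℂ) = 1 / 2 := by
        rw [map_div₀, map_one, Complex.conj_ofNat]
      rw [this]
      push_cast
      norm_num
    rw [e, Complex.norm_real, Real.norm_of_nonneg (by norm_num), neg_pos]
    exact Real.log_neg (by norm_num) (by norm_num)
  have h3 := (sq_nonneg _).trans h
  exact nonneg_of_mul_nonneg_left h3 h2

theorem IE_cs {ι κ : Type} [Fintype ι] [Fintype κ] (x : ι → ℂ) (hx : ∀ i, ‖x i‖ < 1)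
    (y : κ → ℂ) (hy : ∀ j, ‖y j‖ < 1) : IE x y ^ 2 ≤ IE x x * IE y y := by
  have h := ker_zero_cs x hx y hy (fun _ => 1)
  simpa [IE] using h

theorem ker_zero_neg_neg (x y : ℂ) : ker 0 (-x) (-y) = ker 0 x y := by
  rw [ker_zero_eq, ker_zero_eq, map_neg, neg_mul_neg]

theorem IE_neg_le {ι : Type} [Fintype ι] (x : ι → ℂ) (hx : ∀ i, ‖x i‖ < 1) :
    |IE (fun i => -(x i)) x| ≤ IE x x := by
  have h := IE_cs (fun i => -(x i)) (fun i => by rw [norm_neg]; exact hx i) x hx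
  have e : IE (fun i => -(x i)) (fun i => -(x i)) = IE x x := by
    unfold IE
    exact Finset.sum_congr rfl fun i _ => Finset.sum_congr rfl fun j _ => ker_zero_neg_neg _ _
  rw [e, ← sq] at h
  exact abs_le_of_sq_le_sq h (IE_self_nonneg x hx)

theorem ker_zero_sq (x y : ℂ) (hxy : ‖x‖ * ‖y‖ < 1) :
    ker 0 (x ^ 2) (y ^ 2) = ker 0 x y + ker 0 (-x) y := by
  have h1 : 1 - x * starRingEnd ℂ y ≠ 0 := sub_ne_zero.mpr (mul_conj_ne_one x y hxy).symm
  have h2 : 1 - -x * starRingEnd ℂ y ≠ 0 :=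
    sub_ne_zero.mpr (mul_conj_ne_one (-x) y (by rwa [norm_neg])).symm
  rw [ker_zero_eq, ker_zero_eq, ker_zero_eq, ← neg_add,
    ← Real.log_mul (norm_ne_zero_iff.mpr h1) (norm_ne_zero_iff.mpr h2), ← norm_mul]
  congr 3
  rw [map_pow]
  ring

theorem IE_sq_le {ι : Type} [Fintype ι] (x : ι → ℂ) (hx : ∀ i, ‖x i‖ < 1) :
    IE (fun i => x i ^ 2) (fun i => x i ^ 2) ≤ 2 * IE x x := by
  have h := (abs_le.mp (IE_neg_le x hx)).2
  have e : IE (fun i => x i ^ 2) (fun i => x i ^ 2) = IE x x + IE (fun i => -(x i)) x := by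
    unfold IE
    rw [← Finset.sum_add_distrib]
    refine Finset.sum_congr rfl fun i _ => ?_
    rw [← Finset.sum_add_distrib]
    exact Finset.sum_congr rfl fun j _ =>
      ker_zero_sq _ _ (mul_lt_one_of_nonneg_of_lt_one_left (norm_nonneg _) (hx i) (hx j).le)
  rw [e]
  linarith

/-- more smoothing, for the energy of a family -/
theorem IE_smooth_le {ι : Type} [Fintype ι] (x : ι → ℂ) (hx : ∀ i, ‖x i‖ < 1) (t : ι → ℝ)
    (ht : ∀ i, 0 ≤ t i) :
    IE (fun i => (Real.exp (-(t i)) : ℂ) * x i) (fun i => (Real.exp (-(t i)) : ℂ) * x i) ≤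
      IE x x + 2 * Fintype.card ι * ∑ i, t i := by
  have h1 : IE (fun i => (Real.exp (-(t i)) : ℂ) * x i) (fun i => (Real.exp (-(t i)) : ℂ) * x i) ≤
      ∑ i, ∑ j, (ker 0 (x i) (x j) + (t i + t j)) := by
    unfold IE
    refine Finset.sum_le_sum fun i _ => Finset.sum_le_sum fun j _ => ?_
    rw [ker_zero_exp]
    have h2 := ker_le_add (t i + t j) 0 (x i) (x j) le_rfl (add_nonneg (ht i) (ht j)) (hx i).le
      (hx j).le (Or.inr (mul_conj_ne_one _ _
        (mul_lt_one_of_nonneg_of_lt_one_left (norm_nonneg _) (hx i) (hx j).le)))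
    rwa [sub_zero] at h2
  refine h1.trans_eq ?_
  unfold IE
  simp only [Finset.sum_add_distrib, Finset.sum_const, Finset.card_univ, nsmul_eq_mul,
    ← Finset.mul_sum]
  ring

end Pool.Agent.Lib.MP_7ab245_nt.L1
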