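import Mathlib
import Pool.Agent.Lib.MP_7ab245_nt.L1.Count2
import Pool.Agent.Lib.MP_7ab245_nt.L1.Ker0
import Pool.Agent.Lib.MP_7ab245_nt.Len.Pot5

/-! The energy of the smoothed points. -/

set_option autoImplicit false

open Polynomial Finset

namespace Pool.Agent.Lib.MP_7ab245_nt.L1

open Pool.Agent.Lib.MP_7ab245_nt.Len

private theorem sm_eq_pt (s : ℂ → ℝ) {z : ℂ} (hz : z ≠ 0) :
    sm s z = pt (s z + -Real.log ‖z‖) z.arg := by
  rw [P5.pt_eq (s z) hz]; rfl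

private theorem PP_good {m : ℕ} (hm : 0 < m) (W : ℂ → ℝ) (hWi : CircleIntegrable W 0 1)
    (hW0 : ∀ ζ : ℂ, ‖ζ‖ = 1 → 0 ≤ W ζ) (z : ℂ) (τ : ℝ)
    (hτ : (2 : ℝ) ^ (JJ W m z) / m ≤ τ) : PP W (pt τ z.arg) ≤ m * τ := by
  have hm' : (0 : ℝ) < m := by exact_mod_cast hm
  have h1 := PP_radial_le W hWi hW0 ((2 : ℝ) ^ (JJ W m z) / m) τ z.arg (by positivity) hτ
  have h2 := JJ_spec W hWi hW0 m hm z _ le_rfl
  have hτ0 : 0 < τ := lt_of_lt_of_le (by positivity) hτ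
  calc PP W (pt τ z.arg) ≤ τ / ((2 : ℝ) ^ (JJ W m z) / m) *
        PP W (pt ((2 : ℝ) ^ (JJ W m z) / m) z.arg) := h1
    _ ≤ τ / ((2 : ℝ) ^ (JJ W m z) / m) * (2 : ℝ) ^ (JJ W m z) := by gcongr
    _ = m * τ := by field_simp

/-- the potential at a smoothed point -/
private theorem VV_sm_le {m : ℕ} (hm : 0 < m) (y : Fin m → ℂ) (hy : ∀ l, ‖y l‖ ≤ 1)
    (h0 : ∀ l, y l ≠ 0)
    (W : ℂ → ℝ) (hWi : CircleIntegrable W 0 1) (hWV : ∀ ζ : ℂ, ‖ζ‖ = 1 → |VV y 0 ζ| ≤ W ζ)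
    (B : ℝ) (hB : 1 ≤ B) (s : ℂ → ℝ) (hs : ∀ z, s z = (2 : ℝ) ^ (JJ W m z) / (m * B))
    (l : Fin m) :
    VV y 0 (sm s (y l)) ≤ (1 + 6 * Real.log B) *
      ((2 : ℝ) ^ (JJ W m (y l)) + m * s (y l) + m * (-Real.log ‖y l‖)) := by
  have hW0 : ∀ ζ : ℂ, ‖ζ‖ = 1 → 0 ≤ W ζ := fun ζ hζ => (abs_nonneg _).trans (hWV ζ hζ)
  have hm' : (0 : ℝ) < m := by exact_mod_cast hm
  have hB0 : 0 < B := by linarith
  have hlB : 0 ≤ Real.log B := Real.log_nonneg hB
  have hδ : 0 ≤ -Real.log ‖y l‖ := by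
    rw [neg_nonneg]
    exact Real.log_nonpos (norm_nonneg _) (hy l)
  set J := JJ W m (y l) with hJ
  set θ := (y l).arg with hθ
  have hs0 : 0 < s (y l) := by rw [hs]; positivity
  set s' : ℝ := s (y l) + -Real.log ‖y l‖ with hs'
  have hs'0 : 0 < s' := by linarith
  set τ : ℝ := max ((2 : ℝ) ^ J / m) s' with hτ
  have hτ1 : (2 : ℝ) ^ J / m ≤ τ := le_max_left _ _
  have hτ2 : s' ≤ τ := le_max_right _ _
  have hτ0 : 0 < τ := hs'0.trans_le hτ2
  have hP1 : PP W (pt τ θ) ≤ m * τ := PP_good hm W hWi hW0 (y l) τ hτ1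
  have hP2 : PP W (pt (2 * τ) θ) ≤ m * (2 * τ) :=
    PP_good hm W hWi hW0 (y l) (2 * τ) (by linarith)
  have hV1 := abs_VV_le_PP y hy W hWi hWV (pt τ θ) (norm_pt_lt hτ0 θ)
  have hV2 := abs_VV_le_PP y hy W hWi hWV (pt (2 * τ) θ) (norm_pt_lt (by linarith) θ)
  have hge := VV_sub_ge y hy 0 τ (2 * τ) θ hτ0 (by linarith)
  have hle := VV_sub_le y hy 0 s' τ θ hs'0 hτ2
  have e1 : 2 * τ / τ = 2 := by field_simp
  rw [e1] at hge
  have hV1' := abs_le.1 hV1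
  have hV2' := abs_le.1 hV2
  have hl2 : 0.6931471803 < Real.log 2 := Real.log_two_gt_d9
  -- bound for the sum of kernels
  have hK : τ * KK y (pt τ θ) * Real.log 2 ≤ 7 * (m * τ) := by
    have : (m : ℝ) * (2 * τ - τ) / 2 = m * τ / 2 := by ring
    rw [this] at hge
    nlinarith
  have hmτ : 0 < m * τ := by positivity
  have hK2 : τ * KK y (pt τ θ) ≤ 12 * (m * τ) := by
    by_contra hcon
    rw [not_le] at hcon
    have : 12 * (m * τ) * Real.log 2 < τ * KK y (pt τ θ) * Real.log 2 :=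
      mul_lt_mul_of_pos_right hcon (by linarith)
    nlinarith
  have hlr0 : 0 ≤ Real.log (τ / s') := Real.log_nonneg (by rw [le_div_iff₀ hs'0]; linarith)
  have hlr : Real.log (τ / s') ≤ Real.log B := by
    refine Real.log_le_log (by positivity) ?_
    rw [div_le_iff₀ hs'0]
    refine max_le ?_ (by nlinarith)
    have h3 : B * s (y l) = (2 : ℝ) ^ J / m := by
      rw [hs]; field_simp; rfl
    nlinarith
  have h4 : 1 / 2 * (τ * KK y (pt τ θ)) * Real.log (τ / s') ≤ 6 * (m * τ) * Real.log B := by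
    calc 1 / 2 * (τ * KK y (pt τ θ)) * Real.log (τ / s')
        ≤ 1 / 2 * (12 * (m * τ)) * Real.log (τ / s') := by gcongr
      _ ≤ 1 / 2 * (12 * (m * τ)) * Real.log B := by gcongr
      _ = 6 * (m * τ) * Real.log B := by ring
  have h5 : VV y 0 (sm s (y l)) ≤ (1 + 6 * Real.log B) * (m * τ) := by
    rw [sm_eq_pt s (h0 l)]
    linarith
  refine h5.trans (mul_le_mul_of_nonneg_left ?_ (by positivity))
  have h6 : τ ≤ (2 : ℝ) ^ J / m + s' := max_le (by linarith) (by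
    have : 0 ≤ (2 : ℝ) ^ J / m := by positivity
    linarith)
  calc m * τ ≤ m * ((2 : ℝ) ^ J / m + s') := by gcongr
    _ = (2 : ℝ) ^ J + m * s (y l) + m * (-Real.log ‖y l‖) := by
        rw [hs']; field_simp; ring

theorem energy_main {m : ℕ} (hm : 0 < m) (y : Fin m → ℂ) (hy : ∀ l, ‖y l‖ ≤ 1)
    (h0 : ∀ l, y l ≠ 0)
    (W : ℂ → ℝ) (hWi : CircleIntegrable W 0 1) (hWV : ∀ ζ : ℂ, ‖ζ‖ = 1 → |VV y 0 ζ| ≤ W ζ)
    (B : ℝ) (hB : 1 ≤ B) (s : ℂ → ℝ) (hs : ∀ z, s z = (2 : ℝ) ^ (JJ W m z) / (m * B)) :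
    IE (fun l => sm s (y l)) (fun l => sm s (y l)) ≤
      20 * (1 + Real.log B) * (∑ l, (2 : ℝ) ^ (JJ W m (y l)) + m * ∑ l, s (y l)
        + m * ∑ l, -Real.log ‖y l‖) := by
  have hm' : (0 : ℝ) < m := by exact_mod_cast hm
  have hB0 : 0 < B := by linarith
  have hlB : 0 ≤ Real.log B := Real.log_nonneg hB
  have hspos : ∀ z, 0 < s z := fun z => by rw [hs]; positivity
  have hδ : ∀ l, 0 ≤ -Real.log ‖y l‖ := fun l => by
    rw [neg_nonneg]
    exact Real.log_nonpos (norm_nonneg _) (hy l)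
  have hX : ∀ l, ‖sm s (y l)‖ < 1 := by
    intro l
    unfold sm
    rw [norm_mul, Complex.norm_real, Real.norm_of_nonneg (Real.exp_pos _).le]
    have h1 : Real.exp (-s (y l)) < 1 := by
      rw [Real.exp_lt_one_iff]; linarith [hspos (y l)]
    calc Real.exp (-s (y l)) * ‖y l‖ ≤ Real.exp (-s (y l)) * 1 := by
          gcongr
          exact hy l
      _ < 1 := by linarith
  have hrow : ∀ l, ∑ l', ker 0 (sm s (y l)) (sm s (y l')) ≤
      VV y 0 (sm s (y l)) + ∑ l', s (y l') := by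
    intro l
    have h1 : ∀ l', ker 0 (sm s (y l)) (sm s (y l')) ≤
        -Real.log ‖1 - sm s (y l) * starRingEnd ℂ (y l')‖ + s (y l') := by
      intro l'
      rw [ker_zero_symm]
      have h2 : y l' * starRingEnd ℂ (sm s (y l)) ≠ 1 := by
        intro h3
        have h4 : ‖y l' * starRingEnd ℂ (sm s (y l))‖ = 1 := by rw [h3, norm_one]
        rw [norm_mul, RCLike.norm_conj] at h4
        have h5 := hX l
        have h6 := hy l'
        nlinarith [norm_nonneg (y l'), norm_nonneg (sm s (y l))]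
      have h3 := ker_zero_le_add (s (y l')) (y l') (sm s (y l)) (hspos _).le (hy l') (hX l).le h2
      rw [ker_zero_symm (y l') (sm s (y l)), ker_zero_eq (sm s (y l)) (y l')] at h3
      exact h3
    calc ∑ l', ker 0 (sm s (y l)) (sm s (y l'))
        ≤ ∑ l', (-Real.log ‖1 - sm s (y l) * starRingEnd ℂ (y l')‖ + s (y l')) :=
          sum_le_sum fun l' _ => h1 l'
      _ = VV y 0 (sm s (y l)) + ∑ l', s (y l') := by
          unfold VV
          rw [sum_add_distrib, sum_neg_distrib, zero_sub]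
  have h1 : IE (fun l => sm s (y l)) (fun l => sm s (y l)) ≤
      ∑ l, ((1 + 6 * Real.log B) *
        ((2 : ℝ) ^ (JJ W m (y l)) + m * s (y l) + m * (-Real.log ‖y l‖)) + ∑ l', s (y l')) := by
    unfold IE
    refine sum_le_sum fun l _ => (hrow l).trans ?_
    have := VV_sm_le hm y hy h0 W hWi hWV B hB s hs l
    linarith
  refine h1.trans ?_
  rw [sum_add_distrib, ← mul_sum, sum_add_distrib, sum_add_distrib, ← mul_sum, ← mul_sum,
    sum_const, card_univ, Fintype.card_fin, nsmul_eq_mul]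
  have hS1 : 0 ≤ ∑ l, (2 : ℝ) ^ (JJ W m (y l)) := sum_nonneg fun l _ => by positivity
  have hS2 : 0 ≤ ∑ l, s (y l) := sum_nonneg fun l _ => (hspos _).le
  have hS3 : 0 ≤ ∑ l, -Real.log ‖y l‖ := sum_nonneg fun l _ => hδ l
  set S1 := ∑ l, (2 : ℝ) ^ (JJ W m (y l))
  set S2 := ∑ l, s (y l)
  set S3 := ∑ l, -Real.log ‖y l‖
  have hm2 : 0 ≤ (m : ℝ) * S2 := by positivity
  have hm3 : 0 ≤ (m : ℝ) * S3 := by positivity
  have hT : 0 ≤ S1 + m * S2 + m * S3 := by positivity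
  have hTl : 0 ≤ Real.log B * (S1 + m * S2 + m * S3) := mul_nonneg hlB hT
  nlinarith

end Pool.Agent.Lib.MP_7ab245_nt.L1
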