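import Mathlib
import Pool.Agent.Lib.MP_7ab245_nt.L1.EnergyS
import Pool.Agent.Lib.MP_7ab245_nt.Len.Pot5

/-! The smoothing function and the energy bound. -/

set_option autoImplicit false

open Polynomial Finset

namespace Pool.Agent.Lib.MP_7ab245_nt.L1

open Pool.Agent.Lib.MP_7ab245_nt.Len

/-- `|V|` averaged over the rotations by the fourth roots of unity -/
noncomputable def ana_W {m : ℕ} (y : Fin m → ℂ) (ζ : ℂ) : ℝ :=
  ∑ k ∈ Finset.range 4, |VV y 0 (Complex.I ^ k * ζ)|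

theorem ana_VV_rot {m : ℕ} (y : Fin m → ℂ) (ω ζ : ℂ) :
    VV y 0 (ω * ζ) = VV (fun l => starRingEnd ℂ ω * y l) 0 ζ := by
  unfold VV
  congr 1
  refine Finset.sum_congr rfl fun l _ => ?_
  rw [map_mul, Complex.conj_conj]
  congr 3
  ring

theorem ana_W_rot {m : ℕ} (y : Fin m → ℂ) (ζ : ℂ) : ana_W y (Complex.I * ζ) = ana_W y ζ := by
  unfold ana_W
  simp only [Finset.sum_range_succ, Finset.sum_range_zero, zero_add]
  have h0 : Complex.I ^ 0 * (Complex.I * ζ) = Complex.I ^ 1 * ζ := by ring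
  have h1 : Complex.I ^ 1 * (Complex.I * ζ) = Complex.I ^ 2 * ζ := by ring
  have h2 : Complex.I ^ 2 * (Complex.I * ζ) = Complex.I ^ 3 * ζ := by ring
  have h3 : Complex.I ^ 3 * (Complex.I * ζ) = Complex.I ^ 0 * ζ := by
    have : Complex.I ^ 3 * (Complex.I * ζ) = Complex.I ^ 4 * ζ := by ring
    rw [this, Complex.I_pow_four, pow_zero]
  rw [h0, h1, h2, h3]
  ring

theorem ana_W_neg {m : ℕ} (y : Fin m → ℂ) (ζ : ℂ) : ana_W y (-ζ) = ana_W y ζ := by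
  have h : -ζ = Complex.I * (Complex.I * ζ) := by
    rw [← mul_assoc, Complex.I_mul_I]; ring
  rw [h, ana_W_rot, ana_W_rot]

theorem ana_le_W {m : ℕ} (y : Fin m → ℂ) (ζ : ℂ) : |VV y 0 ζ| ≤ ana_W y ζ := by
  unfold ana_W
  have h := Finset.single_le_sum (f := fun k : ℕ => |VV y 0 (Complex.I ^ k * ζ)|)
    (s := Finset.range 4) (fun k _ => abs_nonneg _) (Finset.mem_range.mpr (show 0 < 4 by norm_num))
  simpa using h

theorem ana_W_nonneg {m : ℕ} (y : Fin m → ℂ) (ζ : ℂ) : 0 ≤ ana_W y ζ :=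
  (abs_nonneg _).trans (ana_le_W y ζ)

theorem ana_int_abs {m : ℕ} (y : Fin m → ℂ) (ω : ℂ) :
    CircleIntegrable (fun ζ => |VV y 0 (ω * ζ)|) 0 1 := by
  have h : (fun ζ => |VV y 0 (ω * ζ)|) = fun ζ => |VV (fun l => starRingEnd ℂ ω * y l) 0 ζ| := by
    funext ζ
    rw [ana_VV_rot]
  rw [h]
  exact (circleIntegrable_VV _).abs

theorem ana_int_W {m : ℕ} (y : Fin m → ℂ) : CircleIntegrable (ana_W y) 0 1 := by
  have h : ana_W y = ∑ k ∈ Finset.range 4, fun ζ => |VV y 0 (Complex.I ^ k * ζ)| := by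
    funext ζ
    rw [Finset.sum_apply]
    rfl
  rw [h]
  exact CircleIntegrable.sum _ fun k _ => ana_int_abs y _

theorem ana_average_rot (f : ℂ → ℝ) (k : ℕ) :
    Real.circleAverage (fun ζ => f (Complex.I ^ k * ζ)) 0 1 = Real.circleAverage f 0 1 := by
  rw [Real.circleAverage_eq_integral_add (f := f) (k * (Real.pi / 2)), Real.circleAverage_def]
  congr 1
  refine intervalIntegral.integral_congr fun θ _ => ?_
  congr 1
  unfold circleMap
  have h1 : Complex.I ^ k = Complex.exp ((k * (Real.pi / 2) : ℝ) * Complex.I) := by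
    have : (((k * (Real.pi / 2) : ℝ) : ℂ) * Complex.I) = (k : ℂ) * (Real.pi / 2 * Complex.I) := by
      push_cast; ring
    rw [this, Complex.exp_nat_mul]
    congr 1
    rw [Complex.exp_pi_div_two_mul_I]
  rw [h1]
  simp only [zero_add, Complex.ofReal_one, one_mul]
  rw [← Complex.exp_add]
  congr 1
  push_cast
  ring

theorem ana_average_W {m : ℕ} (y : Fin m → ℂ) :
    Real.circleAverage (ana_W y) 0 1 = 4 * kap y := by
  have h : ana_W y = ∑ k ∈ Finset.range 4, fun ζ => |VV y 0 (Complex.I ^ k * ζ)| := by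
    funext ζ
    rw [Finset.sum_apply]
    rfl
  rw [h, Real.circleAverage_sum (fun k _ => ana_int_abs y _)]
  have h2 : ∀ k ∈ Finset.range 4,
      Real.circleAverage (fun ζ => |VV y 0 (Complex.I ^ k * ζ)|) 0 1 = kap y := by
    intro k _
    exact ana_average_rot (fun ζ => |VV y 0 ζ|) k
  rw [Finset.sum_congr rfl h2]
  simp

theorem ana_pt (σ : ℝ) {z : ℂ} (hz : z ≠ 0) :
    pt σ z.arg = (Real.exp (-(σ + Real.log ‖z‖)) : ℂ) * z := by
  have h := P5.pt_eq (σ + Real.log ‖z‖) hz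
  rwa [add_assoc, add_neg_cancel, add_zero] at h

theorem ana_JJ_rot (W : ℂ → ℝ) (hW : ∀ ζ : ℂ, ‖ζ‖ = 1 → W (Complex.I * ζ) = W ζ) (m : ℕ)
    (hm : 0 < m) (z : ℂ) : JJ W m (Complex.I * z) = JJ W m z := by
  by_cases hz : z = 0
  · rw [hz, mul_zero]
  · unfold JJ
    congr 1
    ext j
    have h : ∀ i : ℕ, PP W (pt ((2 : ℝ) ^ i / m) (Complex.I * z).arg) =
        PP W (pt ((2 : ℝ) ^ i / m) z.arg) := by
      intro i
      have hI : Complex.I * z ≠ 0 := mul_ne_zero Complex.I_ne_zero hz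
      have hn : ‖Complex.I * z‖ = ‖z‖ := by rw [norm_mul, Complex.norm_I, one_mul]
      have h1 : pt ((2 : ℝ) ^ i / m) (Complex.I * z).arg =
          Complex.I * pt ((2 : ℝ) ^ i / m) z.arg := by
        rw [ana_pt _ hI, ana_pt _ hz, hn]
        ring
      rw [h1]
      refine PP_rot W Complex.I Complex.norm_I hW _ (norm_pt_lt ?_ _)
      positivity
    simp only [Set.mem_ofPred_eq, h]

theorem ana_JJ_le (W W' : ℂ → ℝ) (hWi : CircleIntegrable W 0 1) (hWi' : CircleIntegrable W' 0 1)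
    (hW0 : ∀ ζ : ℂ, ‖ζ‖ = 1 → 0 ≤ W ζ) (h : ∀ ζ : ℂ, ‖ζ‖ = 1 → W ζ ≤ W' ζ) (m : ℕ) (hm : 0 < m)
    (z : ℂ) : JJ W m z ≤ JJ W' m z := by
  unfold JJ
  apply Nat.sInf_le
  intro i hi
  refine (PP_mono W W' hWi hWi' h _ (norm_pt_lt (by positivity) _)).trans ?_
  exact JJ_spec W' hWi' (fun ζ hζ => (hW0 ζ hζ).trans (h ζ hζ)) m hm z i hi

theorem ana_JJ_sq (W W' : ℂ → ℝ) (hWi : CircleIntegrable W 0 1) (hWi' : CircleIntegrable W' 0 1)
    (hW0 : ∀ ζ : ℂ, ‖ζ‖ = 1 → 0 ≤ W ζ) (hWn : ∀ ζ : ℂ, ‖ζ‖ = 1 → W (-ζ) = W ζ)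
    (hT : ∀ ζ : ℂ, ‖ζ‖ = 1 → TT W ζ ≤ W' ζ) (m : ℕ) (hm : 0 < m) (ρ : ℂ) (hρ : ρ ≠ 0) :
    JJ W m ρ ≤ JJ W' m (ρ ^ 2) := by
  have hT0 : ∀ ζ : ℂ, ‖ζ‖ = 1 → 0 ≤ TT W ζ := by
    intro ζ hζ
    unfold TT
    refine mul_nonneg (by norm_num) (hW0 _ ?_)
    unfold rt
    rw [Complex.norm_exp]
    have : (Complex.log ζ / 2).re = 0 := by
      have h2 : (Complex.log ζ / 2) = Complex.log ζ / ((2 : ℝ) : ℂ) := by norm_num
      rw [h2, Complex.div_ofReal_re, Complex.log_re, hζ, Real.log_one, zero_div]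
    rw [this, Real.exp_zero]
  conv_lhs => unfold JJ
  apply Nat.sInf_le
  intro i hi
  have h1 := JJ_spec W' hWi' (fun ζ hζ => (hT0 ζ hζ).trans (hT ζ hζ)) m hm (ρ ^ 2) (i + 1)
    (Nat.le_succ_of_le hi)
  have hs : (0 : ℝ) < (2 : ℝ) ^ i / m := by positivity
  have hs' : (0 : ℝ) < (2 : ℝ) ^ (i + 1) / m := by positivity
  have h2 : PP (TT W) (pt ((2 : ℝ) ^ (i + 1) / m) (ρ ^ 2).arg) ≤ (2 : ℝ) ^ (i + 1) :=
    (PP_mono (TT W) W' (circleIntegrable_TT W hWi hWn) hWi' hT _ (norm_pt_lt hs' _)).trans h1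
  have h3 : pt ((2 : ℝ) ^ (i + 1) / m) (ρ ^ 2).arg = (pt ((2 : ℝ) ^ i / m) ρ.arg) ^ 2 := by
    rw [ana_pt _ (pow_ne_zero 2 hρ), ana_pt _ hρ, mul_pow, norm_pow, Real.log_pow,
      ← Complex.ofReal_pow, ← Real.exp_nat_mul]
    congr 3
    push_cast
    ring
  rw [h3, PP_TT W hWi hWn _ (norm_pt_lt hs _), pow_succ] at h2
  linarith

theorem analysis_main : ∃ C : ℝ, 1 ≤ C ∧ ∀ (m : ℕ) (y : Fin m → ℂ), 0 < m →
    (∀ l, ‖y l‖ ≤ 1) → (∀ l, y l ≠ 0) → ∀ K : ℝ, K = kap y + ∑ l, -Real.log ‖y l‖ →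
    ∀ B : ℝ, 1 ≤ B → ∃ s : ℂ → ℝ, (∀ z, 0 < s z) ∧ (∀ z, s (Complex.I * z) = s z) ∧
      ∑ l, s (y l) ≤ C * (1 + K) / B ∧
      (∀ ρ : Fin m → ℂ, (∀ l, ρ l ^ 2 = y l) → ∑ l, s (ρ l) ≤ C * (1 + K) / B) ∧
      IE (fun l => sm s (y l)) (fun l => sm s (y l)) ≤ C * m * (1 + K) * (1 + Real.log B) := by
  refine ⟨2000000, by norm_num, ?_⟩
  intro m y hm hy h0 K hK B hB
  set W : ℂ → ℝ := ana_W y with hW
  set W' : ℂ → ℝ := fun ζ => W ζ + TT W ζ with hW'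
  have hWi : CircleIntegrable W 0 1 := ana_int_W y
  have hWn : ∀ ζ : ℂ, ‖ζ‖ = 1 → W (-ζ) = W ζ := fun ζ _ => ana_W_neg y ζ
  have hTi : CircleIntegrable (TT W) 0 1 := circleIntegrable_TT W hWi hWn
  have hWi' : CircleIntegrable W' 0 1 := hWi.add hTi
  have hW0 : ∀ ζ : ℂ, 0 ≤ W ζ := ana_W_nonneg y
  have hT0 : ∀ ζ : ℂ, 0 ≤ TT W ζ := fun ζ => mul_nonneg (by norm_num) (hW0 _)
  have hWV : ∀ ζ : ℂ, ‖ζ‖ = 1 → |VV y 0 ζ| ≤ W ζ := fun ζ _ => ana_le_W y ζ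
  have hWV' : ∀ ζ : ℂ, ‖ζ‖ = 1 → |VV y 0 ζ| ≤ W' ζ := fun ζ _ =>
    (ana_le_W y ζ).trans (le_add_of_nonneg_right (hT0 ζ))
  have hmean : Real.circleAverage W' 0 1 = 12 * kap y := by
    have h1 : Real.circleAverage W' 0 1 =
        Real.circleAverage W 0 1 + Real.circleAverage (TT W) 0 1 :=
      Real.circleAverage_add hWi hTi
    rw [h1, circleAverage_TT W hWi hWn, ana_average_W]
    ring
  set δ : ℝ := ∑ l, -Real.log ‖y l‖ with hδ
  have hδ0 : 0 ≤ δ := Finset.sum_nonneg fun l _ => by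
    have := Real.log_nonpos (norm_nonneg (y l)) (hy l)
    linarith
  have hk0 : 0 ≤ kap y := by
    have h1 : 0 ≤ Real.circleAverage W 0 1 :=
      Real.circleAverage_nonneg_of_nonneg fun ζ _ => hW0 ζ
    rw [ana_average_W] at h1
    linarith
  have hK0 : 0 ≤ K := by rw [hK]; linarith
  have hcount := count_main hm y hy h0 W' hWi' hWV'
  rw [hmean] at hcount
  have hm0 : (0 : ℝ) < m := by exact_mod_cast hm
  have hB0 : (0 : ℝ) < B := by linarith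
  have hcount' : ∑ l, (2 : ℝ) ^ (JJ W' m (y l)) ≤ 48000 * m * (1 + K) := by
    refine hcount.trans ?_
    rw [hK]
    nlinarith [mul_nonneg hm0.le hk0, mul_nonneg hm0.le hδ0]
  have hJ1 : ∀ l, JJ W m (y l) ≤ JJ W' m (y l) := fun l =>
    ana_JJ_le W W' hWi hWi' (fun ζ _ => hW0 ζ) (fun ζ _ => le_add_of_nonneg_right (hT0 ζ)) m hm _
  have hJ2 : ∀ ρ : ℂ, ρ ≠ 0 → JJ W m ρ ≤ JJ W' m (ρ ^ 2) := fun ρ hρ =>
    ana_JJ_sq W W' hWi hWi' (fun ζ _ => hW0 ζ) hWn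
      (fun ζ _ => le_add_of_nonneg_left (hW0 ζ)) m hm ρ hρ
  have hsumJ : ∀ g : Fin m → ℕ, (∀ l, g l ≤ JJ W' m (y l)) →
      ∑ l, (2 : ℝ) ^ (g l) ≤ 48000 * m * (1 + K) := by
    intro g hg
    refine le_trans (Finset.sum_le_sum fun l _ => ?_) hcount'
    exact pow_le_pow_right₀ (by norm_num) (hg l)
  have hsum : ∀ g : Fin m → ℕ, (∀ l, g l ≤ JJ W' m (y l)) →
      ∑ l, (2 : ℝ) ^ (g l) / (m * B) ≤ 48000 * (1 + K) / B := by
    intro g hg
    rw [← Finset.sum_div, div_le_div_iff₀ (by positivity) hB0]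
    have := hsumJ g hg
    nlinarith
  have hlog : 0 ≤ Real.log B := Real.log_nonneg hB
  have hC : 48000 * (1 + K) / B ≤ 2000000 * (1 + K) / B := by
    apply div_le_div_of_nonneg_right _ hB0.le
    nlinarith
  refine ⟨fun z => (2 : ℝ) ^ (JJ W m z) / (m * B), ?_, ?_, ?_, ?_, ?_⟩
  · intro z; positivity
  · intro z
    simp only
    rw [ana_JJ_rot W (fun ζ _ => ana_W_rot y ζ) m hm z]
  · exact (hsum _ hJ1).trans hC
  · intro ρ hρ
    refine (hsum (fun l => JJ W m (ρ l)) fun l => ?_).trans hC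
    have h1 : ρ l ≠ 0 := by
      intro h
      apply h0 l
      rw [← hρ l, h]
      norm_num
    have := hJ2 (ρ l) h1
    rwa [hρ l] at this
  · have h1 := energy_main hm y hy h0 W hWi hWV B hB
      (fun z => (2 : ℝ) ^ (JJ W m z) / (m * B)) (fun z => rfl)
    refine h1.trans ?_
    have h2 := hsumJ _ hJ1
    have h3 : (m : ℝ) * ∑ l, (2 : ℝ) ^ (JJ W m (y l)) / (m * B) ≤ 48000 * m * (1 + K) := by
      have h4 := hsum _ hJ1
      have h5 : 48000 * (1 + K) / B ≤ 48000 * (1 + K) :=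
        div_le_self (by positivity) hB
      nlinarith
    have h4 : (m : ℝ) * δ ≤ m * (1 + K) := by
      refine mul_le_mul_of_nonneg_left ?_ hm0.le
      rw [hK]; linarith
    have h5 : ∑ l, (2 : ℝ) ^ (JJ W m (y l)) +
        m * ∑ l, (2 : ℝ) ^ (JJ W m (y l)) / (m * B) + m * δ ≤ 96001 * (m * (1 + K)) := by
      linarith
    calc 20 * (1 + Real.log B) * (∑ l, (2 : ℝ) ^ (JJ W m (y l)) +
        m * ∑ l, (2 : ℝ) ^ (JJ W m (y l)) / (m * B) + m * δ)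
        ≤ 20 * (1 + Real.log B) * (96001 * (m * (1 + K))) := by
          exact mul_le_mul_of_nonneg_left h5 (by positivity)
      _ ≤ 2000000 * m * (1 + K) * (1 + Real.log B) := by
          have : 0 ≤ (m : ℝ) * (1 + K) * (1 + Real.log B) := by positivity
          nlinarith

end Pool.Agent.Lib.MP_7ab245_nt.L1
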