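import Mathlib
import Pool.Agent.Lib.MP_7ab245_nt.L1.Defs
import Pool.Agent.Lib.MP_7ab245_nt.L1.Ker0
import Pool.Agent.Lib.MP_7ab245_nt.Len.Energy2

/-! The arithmetic inputs of `sub_smooth`. -/

set_option autoImplicit false

open Polynomial Finset

namespace Pool.Agent.Lib.MP_7ab245_nt.L1

open Pool.Agent.Lib.MP_7ab245_nt.Len

private theorem arithS_ker_right (s : ℂ → ℝ) (z w : ℂ) : ker 0 z (sm s w) = ker (s w) z w := by
  have h := ker_zero_exp 0 (s w) z w
  rw [neg_zero, Real.exp_zero, Complex.ofReal_one, one_mul, zero_add] at h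
  exact h

private theorem arithS_ker_both (s : ℂ → ℝ) (z w : ℂ) :
    ker 0 (sm s z) (sm s w) = ker (s z + s w) z w := ker_zero_exp _ _ _ _

theorem cyc_smooth_le (f : ℤ[X]) (hf : f.Monic) (hirr : Irreducible f)
    (hM : 1 < (f.map (Int.castRingHom ℂ)).mahlerMeasure) {n : ℕ} (α : Fin n → ℂ)
    (hα : IsRoots f α) (s : ℂ → ℝ) (hs : ∀ z, 0 < s z) (j : ℕ) (hj : 0 < j) :
    ∑ z ∈ primitiveRoots j ℂ, ∑ i, ker 0 z (sm s (Len.refl (α i))) ≤
      j.totient * (∑ i, s (Len.refl (α i)) + hh α) := by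
  have hne : ∀ ζ ∈ primitiveRoots j ℂ, ∀ i, ζ ≠ α i := fun ζ hζ i => by
    have := cyc_pow_ne f hf hirr hM α hα j 1 1 hj one_pos ζ hζ i
    rwa [pow_one, pow_one] at this
  have hn1 : ∀ ζ ∈ primitiveRoots j ℂ, ‖ζ‖ = 1 := by
    intro ζ hζ
    have h1 : ζ ^ j = 1 := ((mem_primitiveRoots hj).mp hζ).pow_eq_one
    exact Complex.norm_eq_one_of_pow_eq_one h1 hj.ne'
  have h1 : ∀ ζ ∈ primitiveRoots j ℂ, ∀ i, ker 0 ζ (sm s (Len.refl (α i))) ≤
      s (Len.refl (α i)) - Real.log ‖ζ - α i‖ + Real.posLog ‖α i‖ := by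
    intro ζ hζ i
    have h2 := ker_refl_le (s (Len.refl (α i))) (hs _).le ζ (α i) (hne ζ hζ i)
    rw [refl_of_le (hn1 ζ hζ).le, hn1 ζ hζ] at h2
    have h3 : Real.posLog (1 : ℝ) = 0 := (Real.posLog_eq_zero_iff _).mpr (by simp)
    rw [h3, add_zero] at h2
    rw [arithS_ker_right]
    exact h2
  have h2 : 0 ≤ ∑ ζ ∈ primitiveRoots j ℂ, ∑ i, Real.log ‖ζ - α i‖ := by
    have h3 : Real.log (∏ ζ ∈ primitiveRoots j ℂ, ∏ i, ‖ζ - α i‖) =
        ∑ ζ ∈ primitiveRoots j ℂ, ∑ i, Real.log ‖ζ - α i‖ := by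
      rw [Real.log_prod]
      · refine Finset.sum_congr rfl fun ζ hζ => ?_
        rw [Real.log_prod]
        intro i _
        exact norm_ne_zero_iff.mpr (sub_ne_zero.mpr (hne ζ hζ i))
      · intro ζ hζ
        exact Finset.prod_ne_zero_iff.mpr fun i _ =>
          norm_ne_zero_iff.mpr (sub_ne_zero.mpr (hne ζ hζ i))
    rw [← h3]
    have h4 := one_le_prod_cyc f hf hirr hM α hα j 1 1 hj one_pos
    simp only [pow_one] at h4
    exact Real.log_nonneg h4
  have h3 : ∑ ζ ∈ primitiveRoots j ℂ, ∑ i, ker 0 ζ (sm s (Len.refl (α i))) ≤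
      ∑ ζ ∈ primitiveRoots j ℂ, ∑ i,
        (s (Len.refl (α i)) - Real.log ‖ζ - α i‖ + Real.posLog ‖α i‖) :=
    Finset.sum_le_sum fun ζ hζ => Finset.sum_le_sum fun i _ => h1 ζ hζ i
  refine h3.trans ?_
  have h4 : ∑ i, Real.posLog ‖α i‖ = hh α := rfl
  simp only [Finset.sum_add_distrib, Finset.sum_sub_distrib, Finset.sum_const,
    nsmul_eq_mul, Complex.card_primitiveRoots, h4]
  linarith

theorem neg_smooth_le (f : ℤ[X]) (hf : f.Monic) (hirr : Irreducible f)
    (hM : 1 < (f.map (Int.castRingHom ℂ)).mahlerMeasure) {n : ℕ} (α : Fin n → ℂ)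
    (hα : IsRoots f α) (hexp : ¬ ∃ g : ℤ[X], f = expand ℤ 2 g) (s : ℂ → ℝ)
    (hs : ∀ z, 0 < s z) :
    ∑ i, ∑ j, ker 0 (-(sm s (Len.refl (α i)))) (sm s (Len.refl (α j))) ≤
      2 * n * (∑ i, s (Len.refl (α i)) + hh α) := by
  have hne : ∀ i j, -(α i) ≠ α j := add_ne_zero_of_not_expand f hf hirr hM α hα hexp
  have h1 : ∀ i j, ker 0 (-(sm s (Len.refl (α i)))) (sm s (Len.refl (α j))) ≤
      (s (Len.refl (α i)) + s (Len.refl (α j))) - Real.log ‖-(α i) - α j‖ +
        Real.posLog ‖α i‖ + Real.posLog ‖α j‖ := by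
    intro i j
    have h2 := ker_refl_le (s (Len.refl (α i)) + s (Len.refl (α j)))
      (add_pos (hs _) (hs _)).le (-(α i)) (α j) (hne i j)
    have h3 : Len.refl (-(α i)) = -(Len.refl (α i)) := by
      have := refl_mul (-1) (α i) (by simp)
      rwa [neg_one_mul, neg_one_mul] at this
    rw [h3, norm_neg] at h2
    have h4 : ker 0 (-(sm s (Len.refl (α i)))) (sm s (Len.refl (α j))) =
        ker (s (Len.refl (α i)) + s (Len.refl (α j))) (-(Len.refl (α i))) (Len.refl (α j)) := by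
      have := ker_zero_exp (s (Len.refl (α i))) (s (Len.refl (α j))) (-(Len.refl (α i)))
        (Len.refl (α j))
      rw [← this]
      unfold sm
      rw [mul_neg]
    rw [h4]
    exact h2
  have h2 : 0 ≤ ∑ i, ∑ j, Real.log ‖-(α i) - α j‖ := by
    have h3 : Real.log (∏ i, ∏ j, ‖-(α i) - α j‖) = ∑ i, ∑ j, Real.log ‖-(α i) - α j‖ := by
      rw [Real.log_prod]
      · refine Finset.sum_congr rfl fun i _ => ?_
        rw [Real.log_prod]
        intro j _
        exact norm_ne_zero_iff.mpr (sub_ne_zero.mpr (hne i j))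
      · intro i _
        exact Finset.prod_ne_zero_iff.mpr fun j _ =>
          norm_ne_zero_iff.mpr (sub_ne_zero.mpr (hne i j))
    rw [← h3]
    exact Real.log_nonneg (one_le_prod_add f hf hirr hM α hα hexp)
  have h3 : ∑ i, ∑ j, ker 0 (-(sm s (Len.refl (α i)))) (sm s (Len.refl (α j))) ≤
      ∑ i, ∑ j, ((s (Len.refl (α i)) + s (Len.refl (α j))) - Real.log ‖-(α i) - α j‖ +
        Real.posLog ‖α i‖ + Real.posLog ‖α j‖) :=
    Finset.sum_le_sum fun i _ => Finset.sum_le_sum fun j _ => h1 i j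
  refine h3.trans ?_
  have h4 : ∑ i, Real.posLog ‖α i‖ = hh α := rfl
  simp only [Finset.sum_add_distrib, Finset.sum_sub_distrib, Finset.sum_const, Finset.card_univ,
    Fintype.card_fin, nsmul_eq_mul, ← Finset.mul_sum, h4]
  linarith

theorem two_four_smooth_le (f : ℤ[X]) (hf : f.Monic) (hirr : Irreducible f)
    (hM : 1 < (f.map (Int.castRingHom ℂ)).mahlerMeasure) {n : ℕ} (α : Fin n → ℂ)
    (hα : IsRoots f α) (s : ℂ → ℝ) (hs : ∀ z, 0 < s z) :
    ∑ i, ∑ j, ker 0 (Len.refl (α i) ^ 2) (sm s (Len.refl (α j)) ^ 4) ≤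
      6 * n * (∑ i, s (Len.refl (α i)) + hh α) := by
  have hne : ∀ i j, α i ^ 2 ≠ α j ^ 4 :=
    fun i j => pow_ne_pow f hf hirr hM α hα 2 4 (by norm_num) i j
  have h1 : ∀ i j, ker 0 (Len.refl (α i) ^ 2) (sm s (Len.refl (α j)) ^ 4) ≤
      4 * s (Len.refl (α j)) - Real.log ‖α i ^ 2 - α j ^ 4‖ +
        2 * Real.posLog ‖α i‖ + 4 * Real.posLog ‖α j‖ := by
    intro i j
    have h2 := ker_refl_le (4 * s (Len.refl (α j))) (by have := hs (Len.refl (α j)); linarith)
      (α i ^ 2) (α j ^ 4) (hne i j)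
    rw [refl_pow, refl_pow, norm_pow, norm_pow, Real.posLog_pow, Real.posLog_pow] at h2
    have h4 : ker 0 (Len.refl (α i) ^ 2) (sm s (Len.refl (α j)) ^ 4) =
        ker (4 * s (Len.refl (α j))) (Len.refl (α i) ^ 2) (Len.refl (α j) ^ 4) := by
      have := ker_zero_exp_pow 0 (s (Len.refl (α j))) 2 4 (Len.refl (α i)) (Len.refl (α j))
      rw [neg_zero, Real.exp_zero, Complex.ofReal_one, one_mul, mul_zero, zero_add] at this
      exact_mod_cast this
    rw [h4]
    exact_mod_cast h2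
  have h2 : 0 ≤ ∑ i, ∑ j, Real.log ‖α i ^ 2 - α j ^ 4‖ := by
    have h3 : Real.log (∏ i, ∏ j, ‖α i ^ 2 - α j ^ 4‖) =
        ∑ i, ∑ j, Real.log ‖α i ^ 2 - α j ^ 4‖ := by
      rw [Real.log_prod]
      · refine Finset.sum_congr rfl fun i _ => ?_
        rw [Real.log_prod]
        intro j _
        exact norm_ne_zero_iff.mpr (sub_ne_zero.mpr (hne i j))
      · intro i _
        exact Finset.prod_ne_zero_iff.mpr fun j _ =>
          norm_ne_zero_iff.mpr (sub_ne_zero.mpr (hne i j))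
    rw [← h3]
    exact Real.log_nonneg (one_le_prod_sub f hf hirr hM α hα 2 4 (by norm_num))
  have h3 : ∑ i, ∑ j, ker 0 (Len.refl (α i) ^ 2) (sm s (Len.refl (α j)) ^ 4) ≤
      ∑ i, ∑ j, (4 * s (Len.refl (α j)) - Real.log ‖α i ^ 2 - α j ^ 4‖ +
        2 * Real.posLog ‖α i‖ + 4 * Real.posLog ‖α j‖) :=
    Finset.sum_le_sum fun i _ => Finset.sum_le_sum fun j _ => h1 i j
  refine h3.trans ?_
  have h4 : ∑ i, Real.posLog ‖α i‖ = hh α := rfl
  simp only [Finset.sum_add_distrib, Finset.sum_sub_distrib, Finset.sum_const, Finset.card_univ,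
    Fintype.card_fin, nsmul_eq_mul, ← Finset.mul_sum, h4]
  have h5 : 0 ≤ (n : ℝ) * ∑ i, s (Len.refl (α i)) :=
    mul_nonneg (Nat.cast_nonneg _) (Finset.sum_nonneg fun i _ => (hs _).le)
  linarith

private theorem arithS_rot (s : ℂ → ℝ) (hsI : ∀ z, s (Complex.I * z) = s z) {ω : ℂ}
    (hω : ω ∈ nthRootsFinset 4 (1 : ℂ)) (z : ℂ) : s (ω * z) = s z := by
  rw [mem_nthRootsFinset (by norm_num)] at hω
  have h1 : (ω - 1) * (ω + 1) * ((ω - Complex.I) * (ω + Complex.I)) = 0 := by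
    have h2 : (ω - 1) * (ω + 1) * ((ω - Complex.I) * (ω + Complex.I)) =
        (ω ^ 2 - 1) * (ω ^ 2 - Complex.I ^ 2) := by ring
    rw [h2, Complex.I_sq]
    linear_combination hω
  have hneg : ∀ z, s (-z) = s z := by
    intro z
    have h3 := hsI (Complex.I * z)
    rw [hsI z, ← mul_assoc, Complex.I_mul_I, neg_one_mul] at h3
    exact h3
  rcases mul_eq_zero.1 h1 with h | h
  · rcases mul_eq_zero.1 h with h | h
    · rw [sub_eq_zero.1 h, one_mul]
    · rw [eq_neg_of_add_eq_zero_left h, neg_one_mul, hneg]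
  · rcases mul_eq_zero.1 h with h | h
    · rw [sub_eq_zero.1 h, hsI]
    · rw [eq_neg_of_add_eq_zero_left h, neg_mul, hneg, hsI]

theorem four_four_smooth_le (f : ℤ[X]) (hf : f.Monic) (hirr : Irreducible f)
    (hM : 1 < (f.map (Int.castRingHom ℂ)).mahlerMeasure) (h0 : f.coeff 0 ≠ 0) {n : ℕ}
    (α : Fin n → ℂ) (hα : IsRoots f α) (s : ℂ → ℝ) (hs : ∀ z, 0 < s z)
    (hsI : ∀ z, s (Complex.I * z) = s z) :
    ∑ i, ∑ j, ker 0 (sm s (Len.refl (α i)) ^ 4) (sm s (Len.refl (α j)) ^ 4) ≤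
      4 * IE (fun i => sm s (Len.refl (α i))) (fun i => sm s (Len.refl (α i)))
        + 8 * n * (∑ i, s (Len.refl (α i)) + hh α) := by
  obtain ⟨r, hr4, hr⟩ := exists_card_torsion f hf hirr α hα 4 (by norm_num)
  have hprod := one_le_prod_eval f hf hirr α hα 4 (by norm_num)
  have hinj := roots_injective f hf hirr α hα
  have hrR : (r : ℝ) ≤ 4 := by exact_mod_cast hr4
  have hr0 : (0 : ℝ) ≤ r := Nat.cast_nonneg _
  have hh0 := hh_nonneg α
  set w : Fin n → ℂ := fun i => Len.refl (α i) with hw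
  set V : Fin n → ℂ := fun i => sm s (w i) with hV
  set μ := nthRootsFinset 4 (1 : ℂ) with hμ
  have hω : ∀ ω ∈ μ, ‖ω‖ = 1 := by
    intro ω hω
    rw [hμ, mem_nthRootsFinset (by norm_num)] at hω
    exact Complex.norm_eq_one_of_pow_eq_one hω (by norm_num)
  have hcard : μ.card = 4 := (Complex.isPrimitiveRoot_exp 4 (by norm_num)).card_nthRootsFinset
  have hV1 : ∀ i, ‖V i‖ < 1 := by
    intro i
    show ‖(Real.exp (-(s (w i))) : ℂ) * w i‖ < 1
    rw [norm_mul, Complex.norm_real, Real.norm_of_nonneg (Real.exp_pos _).le]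
    have h1 : Real.exp (-(s (w i))) < 1 := by
      rw [Real.exp_lt_one_iff]
      have := hs (w i)
      linarith
    calc Real.exp (-(s (w i))) * ‖w i‖ ≤ Real.exp (-(s (w i))) * 1 :=
          mul_le_mul_of_nonneg_left (norm_refl_le _) (Real.exp_pos _).le
      _ < 1 := by linarith
  set g : ℂ → ℝ := fun x => ∑ j, ker 0 (sm s x) (V j) with hg
  have hrot : ∀ ω ∈ μ, ∀ z, sm s (ω * z) = ω * sm s z := by
    intro ω hω1 z
    unfold sm
    rw [arithS_rot s hsI hω1 z]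
    ring
  have h1 : ∑ i, ∑ j, ker 0 (V i ^ 4) (V j ^ 4) = ∑ i, ∑ ω ∈ μ, g (ω * w i) := by
    refine Finset.sum_congr rfl fun i _ => ?_
    rw [hg]
    simp only
    rw [Finset.sum_comm]
    refine Finset.sum_congr rfl fun j _ => ?_
    rw [ker_zero_pow 4 (by norm_num) (V i) (V j)
      (mul_lt_one_of_nonneg_of_lt_one_left (norm_nonneg _) (hV1 i) (hV1 j).le)]
    refine Finset.sum_congr rfl fun ω hω1 => ?_
    rw [hrot ω hω1]
  have h2 : ∀ i, ∑ ω ∈ μ, g (ω * w i) =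
      ∑ ω ∈ μ.filter (fun ω => aeval (ω * α i) f = 0), g (ω * w i) +
      ∑ ω ∈ μ.filter (fun ω => aeval (ω * α i) f ≠ 0), g (ω * w i) := by
    intro i
    rw [Finset.sum_filter_add_sum_filter_not]
  have h3 : ∑ i, ∑ ω ∈ μ.filter (fun ω => aeval (ω * α i) f = 0), g (ω * w i) =
      r * IE V V := by
    have := sum_roots f α hα hinj 4 r (by norm_num) hr g
    have e : IE V V = ∑ i, g (Len.refl (α i)) := by
      unfold IE
      rfl
    rw [e, ← this]
  -- the nonzero part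
  set Ss : ℝ := ∑ i, s (w i) with hSs
  have h4 : ∀ i, ∀ ω ∈ μ.filter (fun ω => aeval (ω * α i) f ≠ 0), g (ω * w i) ≤
      n * s (w i) + Ss - Real.log ‖aeval (ω * α i) f‖ + n * Real.posLog ‖α i‖ + hh α := by
    intro i ω hω1
    rw [Finset.mem_filter] at hω1
    have hne : ∀ j, ω * α i ≠ α j := by
      intro j h
      apply hω1.2
      rw [h]
      exact hα.aeval_root j
    have h5 : ∀ j, ker 0 (sm s (ω * w i)) (V j) ≤ (s (w i) + s (w j)) -
        Real.log ‖ω * α i - α j‖ + Real.posLog ‖α i‖ + Real.posLog ‖α j‖ := by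
      intro j
      have h6 := ker_refl_le (s (w i) + s (w j)) (add_pos (hs _) (hs _)).le (ω * α i) (α j)
        (hne j)
      rw [refl_mul _ _ (hω ω hω1.1), norm_mul, hω ω hω1.1, one_mul] at h6
      have h7 : ker 0 (sm s (ω * w i)) (V j) = ker (s (w i) + s (w j)) (ω * w i) (w j) := by
        rw [hV]
        simp only
        rw [arithS_ker_both, arithS_rot s hsI hω1.1]
      rw [h7]
      exact h6
    have h6 : Real.log ‖aeval (ω * α i) f‖ = ∑ j, Real.log ‖ω * α i - α j‖ := by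
      rw [hα.aeval_eq, norm_prod, Real.log_prod]
      intro j _
      exact norm_ne_zero_iff.mpr (sub_ne_zero.mpr (hne j))
    calc g (ω * w i) ≤ ∑ j, ((s (w i) + s (w j)) - Real.log ‖ω * α i - α j‖ +
          Real.posLog ‖α i‖ + Real.posLog ‖α j‖) := Finset.sum_le_sum fun j _ => h5 j
      _ = _ := by
        rw [h6, hh, hSs]
        simp only [Finset.sum_add_distrib, Finset.sum_sub_distrib, Finset.sum_const,
          Finset.card_univ, Fintype.card_fin, nsmul_eq_mul]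
  have hcard2 : ∀ i, ((μ.filter (fun ω => aeval (ω * α i) f ≠ 0)).card : ℝ) = 4 - r := by
    intro i
    have h5 := Finset.card_filter_add_card_filter_not (s := μ) (fun ω => aeval (ω * α i) f = 0)
    rw [hcard] at h5
    have h6 : (μ.filter (fun ω => aeval (ω * α i) f = 0)).card = r := hr i
    rw [h6] at h5
    have : (4 : ℝ) = r + ((μ.filter (fun ω => aeval (ω * α i) f ≠ 0)).card : ℝ) := by
      exact_mod_cast h5.symm
    linarith
  have h5 : ∑ i, ∑ ω ∈ μ.filter (fun ω => aeval (ω * α i) f ≠ 0), g (ω * w i) ≤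
      (4 - r) * (2 * n * (Ss + hh α)) := by
    have h6 : ∑ i, ∑ ω ∈ μ.filter (fun ω => aeval (ω * α i) f ≠ 0), g (ω * w i) ≤
        ∑ i, ∑ ω ∈ μ.filter (fun ω => aeval (ω * α i) f ≠ 0),
          (n * s (w i) + Ss - Real.log ‖aeval (ω * α i) f‖ + n * Real.posLog ‖α i‖ + hh α) :=
      Finset.sum_le_sum fun i _ => Finset.sum_le_sum fun ω hω1 => h4 i ω hω1
    refine h6.trans ?_
    have h7 : 0 ≤ ∑ i, ∑ ω ∈ μ.filter (fun ω => aeval (ω * α i) f ≠ 0),
        Real.log ‖aeval (ω * α i) f‖ := by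
      have h8 : Real.log (∏ i, ∏ ω ∈ μ.filter (fun ω => aeval (ω * α i) f ≠ 0),
          ‖aeval (ω * α i) f‖) = ∑ i, ∑ ω ∈ μ.filter (fun ω => aeval (ω * α i) f ≠ 0),
          Real.log ‖aeval (ω * α i) f‖ := by
        rw [Real.log_prod]
        · refine Finset.sum_congr rfl fun i _ => ?_
          rw [Real.log_prod]
          intro ω hω1
          rw [Finset.mem_filter] at hω1
          exact norm_ne_zero_iff.mpr hω1.2
        · intro i _
          refine Finset.prod_ne_zero_iff.mpr fun ω hω1 => ?_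
          rw [Finset.mem_filter] at hω1
          exact norm_ne_zero_iff.mpr hω1.2
      rw [← h8]
      exact Real.log_nonneg hprod
    simp only [Finset.sum_add_distrib, Finset.sum_sub_distrib, Finset.sum_const, nsmul_eq_mul,
      hcard2, Finset.card_univ, Fintype.card_fin, ← Finset.mul_sum]
    have h9 : ∑ i, Real.posLog ‖α i‖ = hh α := rfl
    rw [h9, ← hSs]
    linarith
  have hSs0 : 0 ≤ Ss := Finset.sum_nonneg fun i _ => (hs _).le
  have hE : 0 ≤ IE V V := IE_self_nonneg V hV1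
  have h10 : (r : ℝ) * IE V V ≤ 4 * IE V V := mul_le_mul_of_nonneg_right hrR hE
  have h11 : (4 - (r : ℝ)) * (2 * n * (Ss + hh α)) ≤ 4 * (2 * n * (Ss + hh α)) :=
    mul_le_mul_of_nonneg_right (by linarith) (by positivity)
  show ∑ i, ∑ j, ker 0 (V i ^ 4) (V j ^ 4) ≤ 4 * IE V V + 8 * n * (Ss + hh α)
  rw [h1, Finset.sum_congr rfl fun i _ => h2 i, Finset.sum_add_distrib, h3]
  linarith

end Pool.Agent.Lib.MP_7ab245_nt.L1
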