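import Mathlib
import Pool.Agent.Lib.MP_7ab245_nt.L1.Defs
import Pool.Agent.Lib.MP_7ab245_nt.L1.Ker0
import Pool.Agent.Lib.MP_7ab245_nt.Len.MainB

/-! The main inequality with smoothed points: the three terms. -/

set_option autoImplicit false

open Polynomial Finset

namespace Pool.Agent.Lib.MP_7ab245_nt.L1

open Pool.Agent.Lib.MP_7ab245_nt.Len

/-- the smoothed reflected roots -/
noncomputable def Va {n : ℕ} (α : Fin n → ℂ) (a : Fin n → ℝ) (i : Fin n) : ℂ :=
  (Real.exp (-(a i)) : ℂ) * Len.refl (α i)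

/-- total smoothing over the points with the same `N`-th power -/
noncomputable def bb {n : ℕ} (α : Fin n → ℂ) (a : Fin n → ℝ) (N : ℕ) (z : ℂ) : ℝ :=
  ∑ i, if α i ^ N = z ^ N then a i else 0

/-- the reflected roots smoothed by `bb` -/
noncomputable def UU {n : ℕ} (α : Fin n → ℂ) (a : Fin n → ℝ) (N : ℕ) (i : Fin n) : ℂ :=
  (Real.exp (-(bb α a N (α i))) : ℂ) * Len.refl (α i)

theorem le_bb {n : ℕ} (α : Fin n → ℂ) (a : Fin n → ℝ) (ha : ∀ i, 0 ≤ a i) (N : ℕ) (i : Fin n) :
    a i ≤ bb α a N (α i) := by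
  unfold bb
  have h := Finset.single_le_sum (f := fun k => if α k ^ N = α i ^ N then a k else 0)
    (s := Finset.univ) (fun k _ => by
      show 0 ≤ (if α k ^ N = α i ^ N then a k else 0)
      split_ifs
      · exact ha k
      · exact le_rfl) (Finset.mem_univ i)
  simpa using h

theorem bb_mul {n : ℕ} (α : Fin n → ℂ) (a : Fin n → ℝ) (N : ℕ) (ω z : ℂ) (hω : ω ^ N = 1) :
    bb α a N (ω * z) = bb α a N z := by
  unfold bb
  rw [mul_pow, hω, one_mul]

/-- the same double counting for a function on the roots -/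
theorem sum_good (f : ℤ[X]) {n : ℕ} (α : Fin n → ℂ) (hα : IsRoots f α)
    (hinj : Function.Injective α) (h0 : ∀ i, α i ≠ 0) (N r : ℕ) (hN : 0 < N)
    (hr : ∀ i, ((nthRootsFinset N (1 : ℂ)).filter
      fun ω => aeval (ω * α i) f = 0).card = r) (G : ℂ → ℝ) :
    ∑ i, ∑ ω ∈ (nthRootsFinset N (1 : ℂ)).filter (fun ω => aeval (ω * α i) f = 0),
      G (ω * α i) = r * ∑ i, G (α i) := by
  have hω : ∀ ω ∈ nthRootsFinset N (1 : ℂ), ‖ω‖ = 1 := by
    intro ω hω
    rw [mem_nthRootsFinset hN] at hω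
    exact Complex.norm_eq_one_of_pow_eq_one hω hN.ne'
  have hω0 : ∀ ω ∈ nthRootsFinset N (1 : ℂ), ω ≠ 0 := by
    intro ω hω1 h
    have := hω ω hω1
    rw [h, norm_zero] at this
    exact zero_ne_one this
  have hroot : ∀ z : ℂ, aeval z f = 0 ↔ ∃ j, z = α j := by
    intro z
    rw [hα.aeval_eq, Finset.prod_eq_zero_iff]
    constructor
    · rintro ⟨j, _, hj⟩
      exact ⟨j, sub_eq_zero.mp hj⟩
    · rintro ⟨j, hj⟩
      exact ⟨j, Finset.mem_univ _, sub_eq_zero.mpr hj⟩
  have h1 : ∀ i, ∀ ω ∈ nthRootsFinset N (1 : ℂ),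
      (if aeval (ω * α i) f = 0 then G (ω * α i) else 0) =
        ∑ j, if ω * α i = α j then G (α j) else 0 := by
    intro i ω hω1
    by_cases h : aeval (ω * α i) f = 0
    · obtain ⟨j, hj⟩ := (hroot _).mp h
      rw [if_pos h, Finset.sum_eq_single j]
      · rw [if_pos hj, ← hj]
      · intro j' _ hj'
        rw [if_neg]
        intro h2
        exact hj' (hinj (h2.symm.trans hj))
      · intro h2; exact absurd (Finset.mem_univ _) h2
    · rw [if_neg h]
      symm
      apply Finset.sum_eq_zero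
      intro j _
      rw [if_neg]
      intro h2
      exact h ((hroot _).mpr ⟨j, h2⟩)
  have h2 : ∀ j, ∀ ω ∈ nthRootsFinset N (1 : ℂ),
      (∑ i, if ω * α i = α j then G (α j) else 0) =
        if aeval (ω⁻¹ * α j) f = 0 then G (α j) else 0 := by
    intro j ω hω1
    have h0 := hω0 ω hω1
    by_cases h : aeval (ω⁻¹ * α j) f = 0
    · obtain ⟨i, hi⟩ := (hroot _).mp h
      have hi' : ω * α i = α j := by rw [← hi]; field_simp
      rw [if_pos h, Finset.sum_eq_single i]
      · rw [if_pos hi']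
      · intro i' _ hi2
        rw [if_neg]
        intro h2
        apply hi2
        apply hinj
        exact mul_left_cancel₀ h0 (h2.trans hi'.symm)
      · intro h2; exact absurd (Finset.mem_univ _) h2
    · rw [if_neg h]
      apply Finset.sum_eq_zero
      intro i _
      rw [if_neg]
      intro h2
      apply h
      rw [hroot]
      exact ⟨i, by rw [← h2]; field_simp⟩
  have h3 : ∀ j, ∑ ω ∈ nthRootsFinset N (1 : ℂ),
      (if aeval (ω⁻¹ * α j) f = 0 then G (α j) else 0) = r * G (α j) := by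
    intro j
    rw [← Finset.sum_filter, Finset.sum_const, nsmul_eq_mul]
    congr 2
    rw [← hr j]
    refine Finset.card_bij' (fun ω _ => ω⁻¹) (fun ω _ => ω⁻¹) ?_ ?_ (fun ω _ => inv_inv ω)
      (fun ω _ => inv_inv ω)
    · intro ω hω1
      rw [Finset.mem_filter, mem_nthRootsFinset hN] at hω1 ⊢
      exact ⟨by rw [inv_pow, hω1.1, inv_one], hω1.2⟩
    · intro ω hω1
      rw [Finset.mem_filter, mem_nthRootsFinset hN] at hω1 ⊢
      exact ⟨by rw [inv_pow, hω1.1, inv_one], by rw [inv_inv]; exact hω1.2⟩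
  calc ∑ i, ∑ ω ∈ (nthRootsFinset N (1 : ℂ)).filter (fun ω => aeval (ω * α i) f = 0),
        G (ω * α i)
      = ∑ i, ∑ ω ∈ nthRootsFinset N (1 : ℂ), ∑ j,
          (if ω * α i = α j then G (α j) else 0) := by
        refine Finset.sum_congr rfl fun i _ => ?_
        rw [Finset.sum_filter]
        exact Finset.sum_congr rfl fun ω hω1 => h1 i ω hω1
    _ = ∑ j, ∑ ω ∈ nthRootsFinset N (1 : ℂ), ∑ i,
          (if ω * α i = α j then G (α j) else 0) := by
        rw [Finset.sum_comm]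
        simp_rw [Finset.sum_comm (s := (Finset.univ : Finset (Fin n)))
          (t := nthRootsFinset N (1 : ℂ))]
        refine Finset.sum_congr rfl fun ω _ => ?_
        rw [Finset.sum_comm]
    _ = ∑ j, r * G (α j) := by
        refine Finset.sum_congr rfl fun j _ => ?_
        rw [← h3 j]
        exact Finset.sum_congr rfl fun ω hω1 => h2 j ω hω1
    _ = _ := by rw [Finset.mul_sum]

/-- if every root has exactly `r` torsion translates of order dividing `N` among the roots -/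
theorem sum_bb (f : ℤ[X]) {n : ℕ} (α : Fin n → ℂ) (hα : IsRoots f α)
    (hinj : Function.Injective α) (h0 : ∀ i, α i ≠ 0) (a : Fin n → ℝ) (N r : ℕ) (hN : 0 < N)
    (hr : ∀ i, ((nthRootsFinset N (1 : ℂ)).filter
      fun ω => aeval (ω * α i) f = 0).card = r) :
    ∑ i, bb α a N (α i) = r * ∑ i, a i := by
  classical
  have h := sum_good f α hα hinj h0 N r hN hr (fun z => ∑ k, if z = α k then a k else 0)
  have e1 : ∀ i, (∑ k, if α i = α k then a k else 0) = a i := by
    intro i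
    rw [Finset.sum_eq_single i]
    · simp
    · intro k _ hk
      rw [if_neg]
      intro h2
      exact hk (hinj h2.symm)
    · intro h2; exact absurd (Finset.mem_univ _) h2
  simp only [e1] at h
  rw [← h]
  refine Finset.sum_congr rfl fun i _ => ?_
  have hroot : ∀ j, aeval (α j) f = 0 := fun j => hα.aeval_root j
  -- extend the inner sum over all `ω`
  have e2 : ∑ ω ∈ (nthRootsFinset N (1 : ℂ)).filter (fun ω => aeval (ω * α i) f = 0),
      (∑ k, if ω * α i = α k then a k else 0) =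
      ∑ ω ∈ nthRootsFinset N (1 : ℂ), ∑ k, if ω * α i = α k then a k else 0 := by
    rw [Finset.sum_filter]
    refine Finset.sum_congr rfl fun ω _ => ?_
    split_ifs with h2
    · rfl
    · symm
      apply Finset.sum_eq_zero
      intro k _
      rw [if_neg]
      intro h3
      apply h2
      rw [h3]
      exact hroot k
  rw [e2, Finset.sum_comm]
  unfold bb
  refine Finset.sum_congr rfl fun k _ => ?_
  by_cases h2 : α k ^ N = α i ^ N
  · rw [if_pos h2, Finset.sum_eq_single (α k / α i)]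
    · rw [if_pos (div_mul_cancel₀ _ (h0 i))]
    · intro ω _ hω2
      rw [if_neg]
      intro h3
      exact hω2 (eq_div_of_mul_eq (h0 i) h3)
    · intro h3
      exfalso
      apply h3
      rw [mem_nthRootsFinset hN, div_pow, h2, div_self (pow_ne_zero _ (h0 i))]
  · rw [if_neg h2]
    symm
    apply Finset.sum_eq_zero
    intro ω hω1
    rw [if_neg]
    intro h3
    apply h2
    rw [mem_nthRootsFinset hN] at hω1
    rw [← h3, mul_pow, hω1, one_mul]

private theorem coreS_offdiag {n : ℕ} (α : Fin n → ℂ) (A B : Fin n → ℝ) (hA : ∀ i, 0 ≤ A i)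
    (hB : ∀ i, 0 ≤ B i) (a b : ℕ) (hne : ∀ i j, α i ^ a ≠ α j ^ b) :
    IE (fun i => ((Real.exp (-(A i)) : ℂ) * Len.refl (α i)) ^ a)
      (fun i => ((Real.exp (-(B i)) : ℂ) * Len.refl (α i)) ^ b) ≤
      n * (a * ∑ i, A i + b * ∑ i, B i) + n * ((a : ℝ) + b) * hh α
        - Real.log (∏ i, ∏ j, ‖α i ^ a - α j ^ b‖) := by
  have h1 : ∀ i j, ker 0 (((Real.exp (-(A i)) : ℂ) * Len.refl (α i)) ^ a)
      (((Real.exp (-(B j)) : ℂ) * Len.refl (α j)) ^ b) ≤
      (a * A i + b * B j) - Real.log ‖α i ^ a - α j ^ b‖ + a * Real.posLog ‖α i‖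
        + b * Real.posLog ‖α j‖ := by
    intro i j
    rw [ker_zero_exp_pow, ← refl_pow, ← refl_pow]
    have hs : 0 ≤ (a : ℝ) * A i + b * B j :=
      add_nonneg (mul_nonneg (Nat.cast_nonneg _) (hA i)) (mul_nonneg (Nat.cast_nonneg _) (hB j))
    refine (ker_refl_le _ hs _ _ (hne i j)).trans_eq ?_
    rw [norm_pow, norm_pow, Real.posLog_pow, Real.posLog_pow]
  have h2 : IE (fun i => ((Real.exp (-(A i)) : ℂ) * Len.refl (α i)) ^ a)
      (fun i => ((Real.exp (-(B i)) : ℂ) * Len.refl (α i)) ^ b) ≤ ∑ i, ∑ j,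
      ((a * A i + b * B j) - Real.log ‖α i ^ a - α j ^ b‖ + a * Real.posLog ‖α i‖
        + b * Real.posLog ‖α j‖) :=
    Finset.sum_le_sum fun i _ => Finset.sum_le_sum fun j _ => h1 i j
  refine h2.trans_eq ?_
  have h3 : Real.log (∏ i, ∏ j, ‖α i ^ a - α j ^ b‖) =
      ∑ i, ∑ j, Real.log ‖α i ^ a - α j ^ b‖ := by
    rw [Real.log_prod]
    · refine Finset.sum_congr rfl fun i _ => ?_
      rw [Real.log_prod]
      intro j _
      exact norm_ne_zero_iff.mpr (sub_ne_zero.mpr (hne i j))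
    · intro i _
      exact Finset.prod_ne_zero_iff.mpr fun j _ =>
        norm_ne_zero_iff.mpr (sub_ne_zero.mpr (hne i j))
  rw [h3, hh]
  simp only [Finset.sum_add_distrib, Finset.sum_sub_distrib, Finset.sum_const, Finset.card_univ,
    Fintype.card_fin, nsmul_eq_mul, ← Finset.mul_sum]
  ring

private theorem coreS_bb_nonneg {n : ℕ} (α : Fin n → ℂ) (a : Fin n → ℝ) (ha : ∀ i, 0 < a i)
    (N : ℕ) (i : Fin n) : 0 ≤ bb α a N (α i) :=
  (ha i).le.trans (le_bb α a (fun i => (ha i).le) N i)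

theorem termS_one (f : ℤ[X]) (hf : f.Monic) (hirr : Irreducible f)
    (hM : 1 < (f.map (Int.castRingHom ℂ)).mahlerMeasure) (h0 : f.coeff 0 ≠ 0)
    {n : ℕ} (α : Fin n → ℂ)
    (hα : IsRoots f α) (a : Fin n → ℝ) (ha : ∀ i, 0 < a i) (q c r : ℕ) (hq : 2 ≤ q)
    (hc : 0 < c) (hcq : c ≤ q) (hrc : r ≤ c)
    (hprod : (q : ℝ) ^ (c * n) ≤ ∏ i, ∏ j, ‖α i ^ c - α j ^ (q * c)‖)
    (hr : ∀ i, ((nthRootsFinset (q * c) (1 : ℂ)).filter
        fun ω => aeval (ω * α i) f = 0).card = r) :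
    (1 / (c : ℝ)) * IE (fun i => Va α a i ^ c) (fun i => UU α a (q * c) i ^ (q * c)) ≤
      n * ((1 + (q : ℝ) ^ 2) * ∑ i, a i) + n * (1 + q) * hh α - n * Real.log q := by
  have hcR : (0 : ℝ) < c := by exact_mod_cast hc
  have hqR : (0 : ℝ) < q := by exact_mod_cast (by omega : 0 < q)
  have hne : c ≠ q * c := by
    intro h
    nlinarith
  have hsum := sum_bb f α hα (roots_injective f hf hirr α hα) (roots_ne_zero f h0 α hα) a
    (q * c) r (by positivity) hr
  have h1 : IE (fun i => Va α a i ^ c) (fun i => UU α a (q * c) i ^ (q * c)) ≤ _ :=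
    coreS_offdiag α a (fun i => bb α a (q * c) (α i)) (fun i => (ha i).le)
      (coreS_bb_nonneg α a ha (q * c)) c (q * c)
      (fun i j => pow_ne_pow f hf hirr hM α hα c (q * c) hne i j)
  have h2 : (c : ℝ) * n * Real.log q ≤ Real.log (∏ i, ∏ j, ‖α i ^ c - α j ^ (q * c)‖) := by
    have := Real.log_le_log (by positivity) hprod
    rw [Real.log_pow] at this
    push_cast at this
    exact this
  rw [hsum] at h1
  rw [div_mul_eq_mul_div, one_mul, div_le_iff₀ hcR]
  push_cast at h1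
  have hA : 0 ≤ ∑ i, a i := Finset.sum_nonneg fun i _ => (ha i).le
  have h3 : (r : ℝ) ≤ q := by exact_mod_cast hrc.trans hcq
  have h4 : (n : ℝ) * (q * c * (r * ∑ i, a i)) ≤ n * (q * c * (q * ∑ i, a i)) := by gcongr
  have h5 : IE (fun i => Va α a i ^ c) (fun i => UU α a (q * c) i ^ (q * c)) ≤
      n * (c * ∑ i, a i + q * c * (r * ∑ i, a i)) + n * (c + q * c) * hh α
        - Real.log (∏ i, ∏ j, ‖α i ^ c - α j ^ (q * c)‖) := h1
  refine h5.trans ?_
  have e : ((n : ℝ) * ((1 + (q : ℝ) ^ 2) * ∑ i, a i) + n * (1 + q) * hh α - n * Real.log q) * c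
      = n * (c * ∑ i, a i) + n * (q * c * (q * ∑ i, a i)) + n * (c + q * c) * hh α
        - c * n * Real.log q := by ring
  rw [e]
  linarith

private theorem coreS_norm_UU {n : ℕ} (α : Fin n → ℂ) (a : Fin n → ℝ) (ha : ∀ i, 0 < a i)
    (N : ℕ) (i : Fin n) : ‖UU α a N i‖ < 1 := by
  unfold UU
  rw [norm_mul, Complex.norm_real, Real.norm_of_nonneg (Real.exp_pos _).le]
  have h1 : Real.exp (-(bb α a N (α i))) < 1 := by
    rw [Real.exp_lt_one_iff]
    have := le_bb α a (fun i => (ha i).le) N i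
    have := ha i
    linarith
  have h2 := norm_refl_le (α i)
  have h3 := norm_nonneg (Len.refl (α i))
  have h4 := Real.exp_pos (-(bb α a N (α i)))
  nlinarith

private theorem coreS_norm_Va {n : ℕ} (α : Fin n → ℂ) (a : Fin n → ℝ) (ha : ∀ i, 0 < a i)
    (i : Fin n) : ‖Va α a i‖ < 1 := by
  unfold Va
  rw [norm_mul, Complex.norm_real, Real.norm_of_nonneg (Real.exp_pos _).le]
  have h1 : Real.exp (-(a i)) < 1 := by
    rw [Real.exp_lt_one_iff]
    have := ha i
    linarith
  have h2 := norm_refl_le (α i)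
  have h3 := norm_nonneg (Len.refl (α i))
  have h4 := Real.exp_pos (-(a i))
  nlinarith

private theorem coreS_diag (f : ℤ[X]) {n : ℕ} (α : Fin n → ℂ) (hα : IsRoots f α)
    (hinj : Function.Injective α) (h0 : ∀ i, α i ≠ 0) (a : Fin n → ℝ) (ha : ∀ i, 0 < a i)
    (N r : ℕ) (hN : 0 < N)
    (hr : ∀ i, ((nthRootsFinset N (1 : ℂ)).filter
      fun ω => aeval (ω * α i) f = 0).card = r)
    (hprod : 1 ≤ ∏ i, ∏ ω ∈ (nthRootsFinset N (1 : ℂ)).filter
      (fun ω => aeval (ω * α i) f ≠ 0), ‖aeval (ω * α i) f‖) :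
    IE (fun i => UU α a N i ^ N) (fun i => UU α a N i ^ N) ≤
      r * IE (UU α a N) (UU α a N) + 2 * n * ((N : ℝ) - r) * (∑ i, bb α a N (α i) + hh α) := by
  have hN' : (0 : ℝ) < N := by exact_mod_cast hN
  set μ := nthRootsFinset N (1 : ℂ) with hμ
  have hω1 : ∀ ω ∈ μ, ω ^ N = 1 := by
    intro ω hω
    rw [hμ, mem_nthRootsFinset hN] at hω
    exact hω
  have hω : ∀ ω ∈ μ, ‖ω‖ = 1 := fun ω h => Complex.norm_eq_one_of_pow_eq_one (hω1 ω h) hN.ne'
  have hcard : μ.card = N := (Complex.isPrimitiveRoot_exp N hN.ne').card_nthRootsFinset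
  set u := UU α a N with hu
  set b : Fin n → ℝ := fun i => bb α a N (α i) with hb
  have hb0 : ∀ i, 0 ≤ b i := coreS_bb_nonneg α a ha N
  set g : ℂ → ℝ := fun x => ∑ j, ker 0 x (u j) with hg
  set G : ℂ → ℝ := fun z => g ((Real.exp (-(bb α a N z)) : ℂ) * Len.refl z) with hG
  have hGω : ∀ i, ∀ ω ∈ μ, G (ω * α i) = g (ω * u i) := by
    intro i ω hω2
    rw [hG, hu]
    simp only
    unfold UU
    rw [bb_mul α a N ω (α i) (hω1 ω hω2), refl_mul _ _ (hω ω hω2)]
    congr 1
    ring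
  have h1 : IE (fun i => u i ^ N) (fun i => u i ^ N) = ∑ i, ∑ ω ∈ μ, g (ω * u i) := by
    unfold IE
    refine Finset.sum_congr rfl fun i _ => ?_
    rw [hg]
    simp only
    rw [Finset.sum_comm]
    refine Finset.sum_congr rfl fun j _ => ?_
    refine ker_zero_pow N hN (u i) (u j) ?_
    have h2 := coreS_norm_UU α a ha N i
    have h3 := coreS_norm_UU α a ha N j
    rw [← hu] at h2 h3
    have h4 := norm_nonneg (u i)
    have h5 := norm_nonneg (u j)
    nlinarith
  have h2 : ∀ i, ∑ ω ∈ μ, g (ω * u i) =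
      ∑ ω ∈ μ.filter (fun ω => aeval (ω * α i) f = 0), g (ω * u i) +
      ∑ ω ∈ μ.filter (fun ω => aeval (ω * α i) f ≠ 0), g (ω * u i) := by
    intro i
    rw [Finset.sum_filter_add_sum_filter_not]
  have h3 : ∑ i, ∑ ω ∈ μ.filter (fun ω => aeval (ω * α i) f = 0), g (ω * u i) =
      r * IE u u := by
    have := sum_good f α hα hinj h0 N r hN hr G
    have e : IE u u = ∑ i, G (α i) := by
      unfold IE
      refine Finset.sum_congr rfl fun i _ => ?_
      rfl
    rw [e, ← this]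
    refine Finset.sum_congr rfl fun i _ => Finset.sum_congr rfl fun ω hω2 => ?_
    exact (hGω i ω (Finset.mem_filter.mp hω2).1).symm
  -- the nonzero part
  have h4 : ∀ i, ∀ ω ∈ μ.filter (fun ω => aeval (ω * α i) f ≠ 0), g (ω * u i) ≤
      n * b i + ∑ j, b j - Real.log ‖aeval (ω * α i) f‖ + n * Real.posLog ‖α i‖ + hh α := by
    intro i ω hω2
    rw [Finset.mem_filter] at hω2
    have hne : ∀ j, ω * α i ≠ α j := by
      intro j h
      apply hω2.2
      rw [h]
      exact hα.aeval_root j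
    have h5 : ∀ j, ker 0 (ω * u i) (u j) ≤ (b i + b j) - Real.log ‖ω * α i - α j‖
        + Real.posLog ‖α i‖ + Real.posLog ‖α j‖ := by
      intro j
      have h6 : ω * u i = (Real.exp (-(b i)) : ℂ) * Len.refl (ω * α i) := by
        rw [refl_mul _ _ (hω ω hω2.1)]
        show ω * ((Real.exp (-(bb α a N (α i))) : ℂ) * Len.refl (α i)) = _
        ring
      have h7 : u j = (Real.exp (-(b j)) : ℂ) * Len.refl (α j) := rfl
      rw [h6, h7, ker_zero_exp]
      have := ker_refl_le (b i + b j) (add_nonneg (hb0 i) (hb0 j)) (ω * α i) (α j) (hne j)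
      rw [norm_mul, hω ω hω2.1, one_mul] at this
      exact this
    have h6 : Real.log ‖aeval (ω * α i) f‖ = ∑ j, Real.log ‖ω * α i - α j‖ := by
      rw [hα.aeval_eq, norm_prod, Real.log_prod]
      intro j _
      exact norm_ne_zero_iff.mpr (sub_ne_zero.mpr (hne j))
    calc g (ω * u i) ≤ ∑ j, ((b i + b j) - Real.log ‖ω * α i - α j‖ + Real.posLog ‖α i‖ +
          Real.posLog ‖α j‖) := Finset.sum_le_sum fun j _ => h5 j
      _ = _ := by
        rw [h6, hh]
        simp only [Finset.sum_add_distrib, Finset.sum_sub_distrib, Finset.sum_const,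
          Finset.card_univ, Fintype.card_fin, nsmul_eq_mul]
  have hcard2 : ∀ i, ((μ.filter (fun ω => aeval (ω * α i) f ≠ 0)).card : ℝ) = N - r := by
    intro i
    have h5 := Finset.card_filter_add_card_filter_not (s := μ) (fun ω => aeval (ω * α i) f = 0)
    rw [hcard] at h5
    have h6 : (μ.filter (fun ω => aeval (ω * α i) f = 0)).card = r := hr i
    rw [h6] at h5
    have : (N : ℝ) = r + ((μ.filter (fun ω => aeval (ω * α i) f ≠ 0)).card : ℝ) := by
      exact_mod_cast h5.symm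
    linarith
  have h5 : ∑ i, ∑ ω ∈ μ.filter (fun ω => aeval (ω * α i) f ≠ 0), g (ω * u i) ≤
      2 * n * ((N : ℝ) - r) * (∑ i, b i + hh α) := by
    have h6 : ∑ i, ∑ ω ∈ μ.filter (fun ω => aeval (ω * α i) f ≠ 0), g (ω * u i) ≤
        ∑ i, ∑ ω ∈ μ.filter (fun ω => aeval (ω * α i) f ≠ 0),
          (n * b i + ∑ j, b j - Real.log ‖aeval (ω * α i) f‖ + n * Real.posLog ‖α i‖ + hh α) :=
      Finset.sum_le_sum fun i _ => Finset.sum_le_sum fun ω hω1 => h4 i ω hω1
    refine h6.trans ?_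
    have h7 : 0 ≤ ∑ i, ∑ ω ∈ μ.filter (fun ω => aeval (ω * α i) f ≠ 0),
        Real.log ‖aeval (ω * α i) f‖ := by
      have h8 : Real.log (∏ i, ∏ ω ∈ μ.filter (fun ω => aeval (ω * α i) f ≠ 0),
          ‖aeval (ω * α i) f‖) = ∑ i, ∑ ω ∈ μ.filter (fun ω => aeval (ω * α i) f ≠ 0),
          Real.log ‖aeval (ω * α i) f‖ := by
        rw [Real.log_prod]
        · refine Finset.sum_congr rfl fun i _ => ?_
          rw [Real.log_prod]
          intro ω hω1
          rw [Finset.mem_filter] at hω1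
          exact norm_ne_zero_iff.mpr hω1.2
        · intro i _
          refine Finset.prod_ne_zero_iff.mpr fun ω hω1 => ?_
          rw [Finset.mem_filter] at hω1
          exact norm_ne_zero_iff.mpr hω1.2
      rw [← h8]
      exact Real.log_nonneg hprod
    simp only [Finset.sum_add_distrib, Finset.sum_sub_distrib, Finset.sum_const, nsmul_eq_mul,
      hcard2, Finset.card_univ, Fintype.card_fin, ← Finset.mul_sum]
    have h9 : ∑ i, Real.posLog ‖α i‖ = hh α := rfl
    rw [h9]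
    have e : 2 * (n : ℝ) * ((N : ℝ) - r) * (∑ i, b i + hh α) =
      ((N : ℝ) - r) * (n * ∑ i, b i) + n * (((N : ℝ) - r) * ∑ i, b i)
        + ((N : ℝ) - r) * (n * hh α) + n * (((N : ℝ) - r) * hh α) := by ring
    rw [e]
    linarith
  rw [h1, Finset.sum_congr rfl fun i _ => h2 i, Finset.sum_add_distrib, h3]
  linarith

theorem termS_two (f : ℤ[X]) (hf : f.Monic) (hirr : Irreducible f)
    (hM : 1 < (f.map (Int.castRingHom ℂ)).mahlerMeasure) (h0 : f.coeff 0 ≠ 0)
    {n : ℕ} (α : Fin n → ℂ)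
    (hα : IsRoots f α) (a : Fin n → ℝ) (ha : ∀ i, 0 < a i) (q c r : ℕ) (hq : 2 ≤ q)
    (hc : 0 < c) (hcq : c ≤ q) (hrc : r ≤ c)
    (hr : ∀ i, ((nthRootsFinset (q * c) (1 : ℂ)).filter
        fun ω => aeval (ω * α i) f = 0).card = r) :
    (1 / (c : ℝ)) * IE (fun i => UU α a (q * c) i ^ (q * c)) (fun i => UU α a (q * c) i ^ (q * c)) ≤
      IE (Va α a) (Va α a) + 4 * n * (q : ℝ) ^ 2 * (∑ i, a i) + 2 * n * q * hh α := by
  have hcR : (0 : ℝ) < c := by exact_mod_cast hc
  have hqR : (2 : ℝ) ≤ q := by exact_mod_cast hq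
  have hrR : (r : ℝ) ≤ c := by exact_mod_cast hrc
  have hcqR : (c : ℝ) ≤ q := by exact_mod_cast hcq
  have hr0 : (0 : ℝ) ≤ r := by positivity
  have hn0 : (0 : ℝ) ≤ n := Nat.cast_nonneg _
  have hh0 := hh_nonneg α
  have hinj := roots_injective f hf hirr α hα
  have hne0 := roots_ne_zero f h0 α hα
  have hsum := sum_bb f α hα hinj hne0 a (q * c) r (by positivity) hr
  have h1 := coreS_diag f α hα hinj hne0 a ha (q * c) r (by positivity) hr
    (one_le_prod_eval f hf hirr α hα (q * c) (by positivity))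
  rw [hsum] at h1
  push_cast at h1
  set A := ∑ i, a i with hA
  have hA0 : 0 ≤ A := Finset.sum_nonneg fun i _ => (ha i).le
  set I1 := IE (UU α a (q * c)) (UU α a (q * c)) with hI1
  have hI10 : 0 ≤ I1 := IE_self_nonneg _ (coreS_norm_UU α a ha (q * c))
  have h2 : I1 ≤ IE (Va α a) (Va α a) + 2 * n * (q * A) := by
    have h3 := IE_smooth_le (Va α a) (coreS_norm_Va α a ha)
      (fun i => bb α a (q * c) (α i) - a i)
      (fun i => sub_nonneg.mpr (le_bb α a (fun i => (ha i).le) (q * c) i))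
    have h4 : (fun i => (Real.exp (-(bb α a (q * c) (α i) - a i)) : ℂ) * Va α a i)
        = UU α a (q * c) := by
      funext i
      unfold Va UU
      rw [← mul_assoc, ← Complex.ofReal_mul, ← Real.exp_add]
      congr 3
      ring
    rw [h4, Fintype.card_fin, Finset.sum_sub_distrib, hsum] at h3
    refine h3.trans ?_
    have h5 : (r : ℝ) * A ≤ q * A := by
      have := hrR.trans hcqR
      gcongr
    have h6 : 2 * (n : ℝ) * (r * A - A) ≤ 2 * n * (q * A) := by
      gcongr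
      linarith
    linarith
  rw [div_mul_eq_mul_div, one_mul, div_le_iff₀ hcR]
  have h3 : (r : ℝ) * I1 ≤ c * I1 := by gcongr
  have h4 : 2 * (n : ℝ) * (q * c - r) * (r * A + hh α) ≤ 2 * n * (q * c) * (q * A + hh α) := by
    have h5 : (r : ℝ) * A ≤ q * A := by
      have := hrR.trans hcqR
      gcongr
    have h6 : (0 : ℝ) ≤ r * A + hh α := by positivity
    have h7 : (q : ℝ) * c - r ≤ q * c := by linarith
    calc 2 * (n : ℝ) * (q * c - r) * (r * A + hh α) ≤ 2 * (n : ℝ) * (q * c) * (r * A + hh α) := by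
          gcongr
      _ ≤ _ := by gcongr
  have h5 : (c : ℝ) * I1 ≤ c * (IE (Va α a) (Va α a) + 2 * n * (q * A)) := by gcongr
  have h6 : 2 * (n : ℝ) * (q * A) ≤ 2 * n * (q ^ 2 * A) := by
    have : (q : ℝ) ≤ q ^ 2 := by nlinarith
    gcongr
  have h7 : (c : ℝ) * (2 * (n : ℝ) * (q * A)) ≤ c * (2 * n * (q ^ 2 * A)) := by gcongr
  have e : (IE (Va α a) (Va α a) + 4 * n * (q : ℝ) ^ 2 * A + 2 * n * q * hh α) * c
      = c * IE (Va α a) (Va α a) + c * (2 * n * (q ^ 2 * A))
        + 2 * n * (q * c) * (q * A + hh α) := by ring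
  rw [e]
  calc IE (fun i => UU α a (q * c) i ^ (q * c)) (fun i => UU α a (q * c) i ^ (q * c))
      ≤ r * I1 + 2 * n * (q * c - r) * (r * A + hh α) := h1
    _ ≤ _ := by linarith

theorem termS_three (f : ℤ[X]) (hf : f.Monic) (hirr : Irreducible f)
    (hM : 1 < (f.map (Int.castRingHom ℂ)).mahlerMeasure) (h0 : f.coeff 0 ≠ 0)
    {n : ℕ} (α : Fin n → ℂ)
    (hα : IsRoots f α) (a : Fin n → ℝ) (ha : ∀ i, 0 < a i) (p q c c' r r' : ℕ)
    (hp : 2 ≤ p) (hq : 2 ≤ q) (hpq : p ≠ q) (hc : 0 < c) (hc' : 0 < c')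
    (hcp : c ≤ p) (hcq : c' ≤ q) (hrc : r ≤ c) (hrc' : r' ≤ c')
    (hr : ∀ i, ((nthRootsFinset (p * c) (1 : ℂ)).filter
        fun ω => aeval (ω * α i) f = 0).card = r)
    (hr' : ∀ i, ((nthRootsFinset (q * c') (1 : ℂ)).filter
        fun ω => aeval (ω * α i) f = 0).card = r') :
    (1 / ((c : ℝ) * c')) * IE (fun i => UU α a (p * c) i ^ (p * (c * c')))
        (fun i => UU α a (q * c') i ^ (q * (c * c'))) ≤
      n * (((p : ℝ) ^ 2 + (q : ℝ) ^ 2) * ∑ i, a i) + n * (p + q) * hh α := by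
  have hcR : (0 : ℝ) < c := by exact_mod_cast hc
  have hcR' : (0 : ℝ) < c' := by exact_mod_cast hc'
  have hne : p * (c * c') ≠ q * (c * c') := by
    intro h
    exact hpq (Nat.eq_of_mul_eq_mul_right (by positivity) h)
  have hinj := roots_injective f hf hirr α hα
  have hne0 := roots_ne_zero f h0 α hα
  have hsum := sum_bb f α hα hinj hne0 a (p * c) r (by positivity) hr
  have hsum' := sum_bb f α hα hinj hne0 a (q * c') r' (by positivity) hr'
  have h1 : IE (fun i => UU α a (p * c) i ^ (p * (c * c')))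
      (fun i => UU α a (q * c') i ^ (q * (c * c'))) ≤ _ :=
    coreS_offdiag α (fun i => bb α a (p * c) (α i)) (fun i => bb α a (q * c') (α i))
      (coreS_bb_nonneg α a ha (p * c)) (coreS_bb_nonneg α a ha (q * c')) (p * (c * c'))
      (q * (c * c')) (fun i j => pow_ne_pow f hf hirr hM α hα _ _ hne i j)
  have h2 : 0 ≤ Real.log (∏ i, ∏ j, ‖α i ^ (p * (c * c')) - α j ^ (q * (c * c'))‖) :=
    Real.log_nonneg (one_le_prod_sub f hf hirr hM α hα _ _ hne)
  rw [hsum, hsum'] at h1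
  rw [div_mul_eq_mul_div, one_mul, div_le_iff₀ (by positivity)]
  push_cast at h1
  set A := ∑ i, a i with hA
  have hA0 : 0 ≤ A := Finset.sum_nonneg fun i _ => (ha i).le
  have h3 : (r : ℝ) ≤ p := by exact_mod_cast hrc.trans hcp
  have h4 : (r' : ℝ) ≤ q := by exact_mod_cast hrc'.trans hcq
  have h5 : (n : ℝ) * (p * (c * c') * (r * A)) ≤ n * (p * (c * c') * (p * A)) := by gcongr
  have h6 : (n : ℝ) * (q * (c * c') * (r' * A)) ≤ n * (q * (c * c') * (q * A)) := by gcongr
  have e : ((n : ℝ) * (((p : ℝ) ^ 2 + (q : ℝ) ^ 2) * A) + n * (p + q) * hh α) * (c * c')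
      = n * (p * (c * c') * (p * A)) + n * (q * (c * c') * (q * A))
        + n * (p * (c * c') + q * (c * c')) * hh α := by ring
  rw [e]
  refine le_trans h1 ?_
  linarith

end Pool.Agent.Lib.MP_7ab245_nt.L1
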