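import Mathlib
import Pool.Agent.Lib.MP_7ab245_nt.L1.Defs

/-! Positivity for the first powers of the points `v i` and the powers of the points `u q i`. -/

set_option autoImplicit false

open Polynomial Finset

namespace Pool.Agent.Lib.MP_7ab245_nt.L1

open Pool.Agent.Lib.MP_7ab245_nt.Len

private theorem fam_hasSum_ker (x y : ℂ) (hxy : ‖x‖ * ‖y‖ < 1) :
    HasSum (fun l : ℕ => 1 / (l : ℝ) * ((x * starRingEnd ℂ y) ^ l).re) (ker 0 x y) := by
  set z : ℂ := x * starRingEnd ℂ y with hz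
  have hz1 : ‖z‖ < 1 := by
    rw [hz, norm_mul, RCLike.norm_conj]
    exact hxy
  have h' := Complex.hasSum_re (Complex.hasSum_taylorSeries_neg_log hz1)
  have e1 : (-Complex.log (1 - z)).re = ker 0 x y := by
    rw [Complex.neg_re, Complex.log_re, ker, neg_zero, Real.exp_zero, Complex.ofReal_one, one_mul]
  rw [e1] at h'
  have e2 : (fun l : ℕ => (z ^ l / (l : ℂ)).re) =
      fun l : ℕ => 1 / (l : ℝ) * (z ^ l).re := by
    funext l
    have e3 : z ^ l / (l : ℂ) = ((1 / l : ℝ) : ℂ) * z ^ l := by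
      push_cast
      ring
    rw [e3, Complex.re_ofReal_mul]
  rwa [e2] at h'

/-- power sums -/
private noncomputable def fpw {n : ℕ} (w : Fin n → ℂ) (m : ℕ) : ℂ := ∑ i, w i ^ m

/-- the general mixed term -/
private noncomputable def ftx {m n : ℕ} (x : Fin m → ℂ) (w : Fin n → ℂ) (a b l : ℕ) : ℝ :=
  1 / (l : ℝ) * (fpw x (a * l) * starRingEnd ℂ (fpw w (b * l))).re

private theorem fam_hasSum {m n : ℕ} (x : Fin m → ℂ) (hx : ∀ i, ‖x i‖ < 1) (w : Fin n → ℂ)
    (hw : ∀ i, ‖w i‖ < 1) (a b : ℕ) (ha : 0 < a) :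
    HasSum (ftx x w a b) (IE (fun i => x i ^ a) (fun i => w i ^ b)) := by
  have hm : ∀ i, ‖x i ^ a‖ < 1 := fun i => by
    rw [norm_pow]
    exact pow_lt_one₀ (norm_nonneg _) (hx i) ha.ne'
  have hn : ∀ i, ‖w i ^ b‖ ≤ 1 := fun i => by
    rw [norm_pow]
    exact pow_le_one₀ (norm_nonneg _) (hw i).le
  have h : HasSum (fun l : ℕ => ∑ i, ∑ j,
      1 / (l : ℝ) * ((x i ^ a * starRingEnd ℂ (w j ^ b)) ^ l).re)
      (IE (fun i => x i ^ a) (fun i => w i ^ b)) := by
    refine hasSum_sum fun i _ => hasSum_sum fun j _ => fam_hasSum_ker _ _ ?_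
    calc ‖x i ^ a‖ * ‖w j ^ b‖ ≤ ‖x i ^ a‖ * 1 :=
          mul_le_mul_of_nonneg_left (hn j) (norm_nonneg _)
      _ < 1 := by rw [mul_one]; exact hm i
  have e : (fun l : ℕ => ∑ i, ∑ j,
      1 / (l : ℝ) * ((x i ^ a * starRingEnd ℂ (w j ^ b)) ^ l).re) = ftx x w a b := by
    funext l
    rw [ftx, fpw, fpw, map_sum, Finset.sum_mul_sum, Complex.re_sum, Finset.mul_sum]
    refine Finset.sum_congr rfl fun i _ => ?_
    rw [Complex.re_sum, Finset.mul_sum]
    refine Finset.sum_congr rfl fun j _ => ?_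
    rw [mul_pow, ← pow_mul, ← map_pow, ← pow_mul]
  rwa [e] at h

private theorem fam_hasSum_dvd {m n : ℕ} (x : Fin m → ℂ) (hx : ∀ i, ‖x i‖ < 1)
    (w : Fin n → ℂ) (hw : ∀ i, ‖w i‖ < 1) (a b c : ℕ) (ha : 0 < a) (hc : 0 < c) :
    HasSum (fun l => if c ∣ l then ftx x w a b l else 0)
      ((1 / (c : ℝ)) * IE (fun i => x i ^ (a * c)) (fun i => w i ^ (b * c))) := by
  have hc' : (0 : ℝ) < c := by exact_mod_cast hc
  have h := (fam_hasSum x hx w hw (a * c) (b * c) (Nat.mul_pos ha hc)).mul_left (1 / (c : ℝ))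
  have hinj : Function.Injective (fun m : ℕ => c * m) := fun x y hxy =>
    Nat.eq_of_mul_eq_mul_left hc hxy
  rw [← hinj.hasSum_iff]
  · have e : (fun m : ℕ => 1 / (c : ℝ) * ftx x w (a * c) (b * c) m) =
        (fun l => if c ∣ l then ftx x w a b l else 0) ∘ (fun m : ℕ => c * m) := by
      funext m
      rw [Function.comp_apply, if_pos (Dvd.intro m rfl), ftx, ftx, mul_assoc a c m,
        mul_assoc b c m, ← mul_assoc]
      congr 1
      push_cast
      rw [one_div_mul_one_div]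
    rwa [← e]
  · intro l hl
    rw [if_neg]
    rintro ⟨m, rfl⟩
    exact hl ⟨m, rfl⟩

theorem psd_fam {n : ℕ} (v : Fin n → ℂ) (hv : ∀ i, ‖v i‖ < 1) (P : Finset ℕ)
    (u : ℕ → Fin n → ℂ) (hu : ∀ q ∈ P, ∀ i, ‖u q i‖ < 1) (c : ℕ → ℕ)
    (hc : ∀ q ∈ P, 0 < c q) (hP : ∀ q ∈ P, 0 < q)
    (hcop : ∀ p ∈ P, ∀ q ∈ P, p ≠ q → (c p).Coprime (c q)) (a : ℝ) :
    0 ≤ IE v v
      + 2 * a * ∑ q ∈ P, (1 / (c q : ℝ)) *
          IE (fun i => v i ^ c q) (fun i => u q i ^ (q * c q))
      + a ^ 2 * (∑ q ∈ P, (1 / (c q : ℝ)) *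
          IE (fun i => u q i ^ (q * c q)) (fun i => u q i ^ (q * c q))
        + ∑ p ∈ P, ∑ q ∈ P.erase p, (1 / ((c p : ℝ) * c q)) *
            IE (fun i => u p i ^ (p * (c p * c q))) (fun i => u q i ^ (q * (c p * c q)))) := by
  have h1 : HasSum (ftx v v 1 1) (IE v v) := by
    have h := fam_hasSum v hv v hv 1 1 one_pos
    simpa only [pow_one] using h
  have h2 : HasSum (fun l => 2 * a * ∑ q ∈ P, if c q ∣ l then ftx v (u q) 1 q l else 0)
      (2 * a * ∑ q ∈ P, (1 / (c q : ℝ)) *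
          IE (fun i => v i ^ c q) (fun i => u q i ^ (q * c q))) := by
    refine HasSum.mul_left _ (hasSum_sum fun q hq => ?_)
    have := fam_hasSum_dvd v hv (u q) (hu q hq) 1 q (c q) one_pos (hc q hq)
    rwa [one_mul] at this
  have h3 : HasSum (fun l => ∑ q ∈ P, if c q ∣ l then ftx (u q) (u q) q q l else 0)
      (∑ q ∈ P, (1 / (c q : ℝ)) *
          IE (fun i => u q i ^ (q * c q)) (fun i => u q i ^ (q * c q))) :=
    hasSum_sum fun q hq =>
      fam_hasSum_dvd (u q) (hu q hq) (u q) (hu q hq) q q (c q) (hP q hq) (hc q hq)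
  have h4 : HasSum (fun l => ∑ p ∈ P, ∑ q ∈ P.erase p,
        if c p * c q ∣ l then ftx (u p) (u q) p q l else 0)
      (∑ p ∈ P, ∑ q ∈ P.erase p, (1 / ((c p : ℝ) * c q)) *
            IE (fun i => u p i ^ (p * (c p * c q))) (fun i => u q i ^ (q * (c p * c q)))) := by
    refine hasSum_sum fun p hp => hasSum_sum fun q hq => ?_
    have hq' := Finset.mem_of_mem_erase hq
    have := fam_hasSum_dvd (u p) (hu p hp) (u q) (hu q hq') p q (c p * c q) (hP p hp)
      (Nat.mul_pos (hc p hp) (hc q hq'))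
    push_cast at this
    exact this
  refine ((h1.add h2).add ((h3.add h4).mul_left (a ^ 2))).nonneg fun l => ?_
  -- the square
  set T : ℕ → ℂ := fun q => if c q ∣ l then fpw (u q) (q * l) else 0 with hT
  have key : 1 / (l : ℝ) * Complex.normSq (fpw v l + (a : ℂ) * ∑ q ∈ P, T q) =
      ftx v v 1 1 l + 2 * a * (∑ q ∈ P, if c q ∣ l then ftx v (u q) 1 q l else 0) +
      a ^ 2 * ((∑ q ∈ P, if c q ∣ l then ftx (u q) (u q) q q l else 0) +
        ∑ p ∈ P, ∑ q ∈ P.erase p, if c p * c q ∣ l then ftx (u p) (u q) p q l else 0) := by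
    have t11 : ftx v v 1 1 l = 1 / (l : ℝ) * Complex.normSq (fpw v l) := by
      rw [ftx, one_mul, Complex.mul_conj, Complex.ofReal_re]
    have t1q : ∀ q ∈ P, (if c q ∣ l then ftx v (u q) 1 q l else 0) =
        1 / (l : ℝ) * (fpw v l * starRingEnd ℂ (T q)).re := by
      intro q _
      by_cases h : c q ∣ l
      · simp only [hT, h, if_true, ftx, one_mul]
      · simp only [hT, h, if_false, map_zero, mul_zero, Complex.zero_re]
    have tqq : ∀ q ∈ P, (if c q ∣ l then ftx (u q) (u q) q q l else 0) =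
        1 / (l : ℝ) * (T q * starRingEnd ℂ (T q)).re := by
      intro q _
      by_cases h : c q ∣ l
      · simp only [hT, h, if_true, ftx]
      · simp only [hT, h, if_false, map_zero, mul_zero, Complex.zero_re]
    have tpq : ∀ p ∈ P, ∀ q ∈ P.erase p,
        (if c p * c q ∣ l then ftx (u p) (u q) p q l else 0) =
        1 / (l : ℝ) * (T p * starRingEnd ℂ (T q)).re := by
      intro p hp q hq
      have hne : p ≠ q := (Finset.ne_of_mem_erase hq).symm
      have hco : (c p).Coprime (c q) := hcop p hp q (Finset.mem_of_mem_erase hq) hne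
      by_cases h : c p * c q ∣ l
      · have h1 : c p ∣ l := (Dvd.intro _ rfl).trans h
        have h2 : c q ∣ l := (Dvd.intro_left _ rfl).trans h
        simp only [hT, h, h1, h2, if_true, ftx]
      · by_cases h1 : c p ∣ l
        · by_cases h2 : c q ∣ l
          · exact absurd (hco.mul_dvd_of_dvd_of_dvd h1 h2) h
          · simp only [hT, h, h2, if_false, map_zero, mul_zero, Complex.zero_re]
        · simp only [hT, h, h1, if_false, zero_mul, Complex.zero_re, mul_zero]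
    have hsplit : ∀ p ∈ P, (∑ q ∈ P, (T p * starRingEnd ℂ (T q)).re) =
        (T p * starRingEnd ℂ (T p)).re + ∑ q ∈ P.erase p, (T p * starRingEnd ℂ (T q)).re :=
      fun p hp => (Finset.add_sum_erase P _ hp).symm
    have hnorm : Complex.normSq (fpw v l + (a : ℂ) * ∑ q ∈ P, T q) =
        Complex.normSq (fpw v l) + 2 * a * (∑ q ∈ P, (fpw v l * starRingEnd ℂ (T q)).re) +
        a ^ 2 * ∑ p ∈ P, ∑ q ∈ P, (T p * starRingEnd ℂ (T q)).re := by
      rw [Complex.normSq_add, map_mul, Complex.normSq_ofReal]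
      have e1 : (fpw v l * starRingEnd ℂ ((a : ℂ) * ∑ q ∈ P, T q)).re =
          a * ∑ q ∈ P, (fpw v l * starRingEnd ℂ (T q)).re := by
        rw [map_mul, Complex.conj_ofReal, map_sum, mul_left_comm, Complex.re_ofReal_mul,
          Finset.mul_sum, Complex.re_sum]
      have e2 : Complex.normSq (∑ q ∈ P, T q) =
          ∑ p ∈ P, ∑ q ∈ P, (T p * starRingEnd ℂ (T q)).re := by
        have : ((Complex.normSq (∑ q ∈ P, T q) : ℝ) : ℂ).re =
            ∑ p ∈ P, ∑ q ∈ P, (T p * starRingEnd ℂ (T q)).re := by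
          rw [← Complex.mul_conj, map_sum, Finset.sum_mul_sum, Complex.re_sum]
          exact Finset.sum_congr rfl fun p _ => Complex.re_sum _ _
        rwa [Complex.ofReal_re] at this
      rw [e1, e2]
      ring
    rw [hnorm, t11, Finset.sum_congr rfl t1q, Finset.sum_congr rfl tqq,
      Finset.sum_congr rfl fun p hp => Finset.sum_congr rfl (tpq p hp),
      Finset.sum_congr rfl hsplit, Finset.sum_add_distrib]
    simp only [← Finset.mul_sum]
    ring
  rw [← key]
  exact mul_nonneg (div_nonneg zero_le_one (Nat.cast_nonneg _)) (Complex.normSq_nonneg _)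

end Pool.Agent.Lib.MP_7ab245_nt.L1
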