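import Mathlib
import Pool.Agent.Lib.MP_7ab245_nt.L1.CoreS
import Pool.Agent.Lib.MP_7ab245_nt.L1.PsdFam

/-! The main inequality with smoothed points: conclusion. -/

set_option autoImplicit false

open Polynomial Finset

namespace Pool.Agent.Lib.MP_7ab245_nt.L1

open Pool.Agent.Lib.MP_7ab245_nt.Len

/-- the main inequality -/
theorem coreS_ineq (f : ℤ[X]) (hf : f.Monic) (hirr : Irreducible f)
    (hM : 1 < (f.map (Int.castRingHom ℂ)).mahlerMeasure) (h0 : f.coeff 0 ≠ 0)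
    {n : ℕ} (hn : 0 < n) (α : Fin n → ℂ) (hα : IsRoots f α) (P : Finset ℕ) (R Q : ℝ)
    (hR : 2 ≤ R) (hP : ∀ q ∈ P, q.Prime ∧ R < q ∧ (q : ℝ) ≤ Q)
    (hexp : ∀ q ∈ P, ¬ ∃ g : ℤ[X], f = expand ℤ q g) (a : Fin n → ℝ) (ha : ∀ i, 0 < a i)
    (E t : ℝ) (ht : 0 ≤ t) (hE : IE (Va α a) (Va α a) ≤ n * E) (ns : ℝ)
    (hns : 4 * Q ^ 2 * ∑ i, a i ≤ ns) :
    0 ≤ E + 2 * t * P.card * (ns + (1 + Q) * hh α - Real.log R)
      + t ^ 2 * (P.card * (E + 2 * Q * hh α + ns)
        + (P.card : ℝ) ^ 2 * (ns + 2 * Q * hh α)) := by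
  classical
  have hnR : (0 : ℝ) < n := by exact_mod_cast hn
  have hh0 := hh_nonneg α
  have hA0 : 0 ≤ ∑ i, a i := Finset.sum_nonneg fun i _ => (ha i).le
  have hns0 : 0 ≤ ns := le_trans (by positivity) hns
  have key : ∀ q : ℕ, ∃ c : ℕ, q ∈ P → ((c = 1 ∨ c = q) ∧
      (q : ℝ) ^ (c * n) ≤ ∏ i, ∏ j, ‖α i ^ c - α j ^ (q * c)‖ ∧
      ∃ r : ℕ, 0 < r ∧ r ≤ c ∧ ∀ i, ((nthRootsFinset (q * c) (1 : ℂ)).filter
        fun ω => aeval (ω * α i) f = 0).card = r) := by
    intro q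
    by_cases hq : q ∈ P
    · obtain ⟨hq1, hq2, hq3⟩ := hP q hq
      have hq4 : q ≠ 2 := by
        rintro rfl
        push_cast at hq2
        linarith
      obtain ⟨c, h1, h2, h3⟩ := prime_package f hf hirr hM α hα q hq1 hq4 (hexp q hq)
      exact ⟨c, fun _ => ⟨h1, h2, h3⟩⟩
    · exact ⟨1, fun h => absurd h hq⟩
  choose c hc using key
  have hcpos : ∀ q ∈ P, 0 < c q := by
    intro q hq
    rcases (hc q hq).1 with h | h
    · omega
    · rw [h]; exact (hP q hq).1.pos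
  have hcle : ∀ q ∈ P, c q ≤ q := by
    intro q hq
    rcases (hc q hq).1 with h | h
    · rw [h]; exact (hP q hq).1.one_lt.le
    · rw [h]
  -- the points lie in the open disc
  have hexpl : ∀ (b : ℝ) (z : ℂ), 0 < b → ‖(Real.exp (-b) : ℂ) * Len.refl z‖ < 1 := by
    intro b z hb
    rw [norm_mul, Complex.norm_real, Real.norm_eq_abs, abs_of_pos (Real.exp_pos _)]
    have h1 : Real.exp (-b) < 1 := by
      rw [Real.exp_lt_one_iff]
      linarith
    calc Real.exp (-b) * ‖Len.refl z‖ ≤ Real.exp (-b) * 1 :=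
          mul_le_mul_of_nonneg_left (norm_refl_le _) (Real.exp_pos _).le
      _ < 1 := by rw [mul_one]; exact h1
  have hv : ∀ i, ‖Va α a i‖ < 1 := fun i => hexpl _ _ (ha i)
  have hu : ∀ q ∈ P, ∀ i, ‖UU α a (q * c q) i‖ < 1 := fun q _ i =>
    hexpl _ _ (lt_of_lt_of_le (ha i) (le_bb α a (fun i => (ha i).le) (q * c q) i))
  have hmain := psd_fam (Va α a) hv P (fun q => UU α a (q * c q)) hu c hcpos
    (fun q hq => (hP q hq).1.pos) (by
      intro p hp q hq hpq
      rcases (hc p hp).1 with h | h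
      · rw [h]; exact Nat.coprime_one_left _
      · rcases (hc q hq).1 with h' | h'
        · rw [h']; exact Nat.coprime_one_right _
        · rw [h, h']; exact (Nat.coprime_primes (hP p hp).1 (hP q hq).1).mpr hpq) t
  -- numerical facts for the primes
  have hq2 : ∀ q ∈ P, (q : ℝ) ^ 2 ≤ Q ^ 2 := by
    intro q hq
    exact pow_le_pow_left₀ (by positivity) (hP q hq).2.2 2
  have hq1 : ∀ q ∈ P, (1 : ℝ) ≤ q := by
    intro q hq
    have := (hP q hq).1.one_lt.le
    exact_mod_cast this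
  have hqA : ∀ q ∈ P, (q : ℝ) ^ 2 * ∑ i, a i ≤ Q ^ 2 * ∑ i, a i := fun q hq =>
    mul_le_mul_of_nonneg_right (hq2 q hq) hA0
  have hsum1 : ∑ q ∈ P, (1 / (c q : ℝ)) *
      IE (fun i => Va α a i ^ c q) (fun i => UU α a (q * c q) i ^ (q * c q)) ≤
      ∑ _q ∈ P, (n : ℝ) * (ns + (1 + Q) * hh α - Real.log R) := by
    apply Finset.sum_le_sum
    intro q hq
    obtain ⟨hqp, hqR, hqQ⟩ := hP q hq
    obtain ⟨_, hprod, r, hr0, hrc, hr⟩ := hc q hq
    have h1 := termS_one f hf hirr hM h0 α hα a ha q (c q) r hqp.two_le (hcpos q hq) (hcle q hq)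
      hrc hprod hr
    refine h1.trans ?_
    have h2 : Real.log R ≤ Real.log q := Real.log_le_log (by linarith) hqR.le
    have h3 : (1 + (q : ℝ)) * hh α ≤ (1 + Q) * hh α :=
      mul_le_mul_of_nonneg_right (by linarith) hh0
    have h4 : (1 + (q : ℝ) ^ 2) * ∑ i, a i ≤ ns := by
      have h5 : (1 : ℝ) * ∑ i, a i ≤ (q : ℝ) ^ 2 * ∑ i, a i := by
        refine mul_le_mul_of_nonneg_right ?_ hA0
        exact one_le_pow₀ (hq1 q hq)
      have h6 := hqA q hq
      nlinarith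
    have h7 : (1 + (q : ℝ) ^ 2) * ∑ i, a i + (1 + q) * hh α - Real.log q ≤
        ns + (1 + Q) * hh α - Real.log R := by linarith
    calc n * ((1 + (q : ℝ) ^ 2) * ∑ i, a i) + n * (1 + q) * hh α - n * Real.log q
        = n * ((1 + (q : ℝ) ^ 2) * ∑ i, a i + (1 + q) * hh α - Real.log q) := by ring
      _ ≤ _ := mul_le_mul_of_nonneg_left h7 hnR.le
  have hsum2 : ∑ q ∈ P, (1 / (c q : ℝ)) *
      IE (fun i => UU α a (q * c q) i ^ (q * c q)) (fun i => UU α a (q * c q) i ^ (q * c q)) ≤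
      ∑ _q ∈ P, (n : ℝ) * (E + 2 * Q * hh α + ns) := by
    apply Finset.sum_le_sum
    intro q hq
    obtain ⟨hqp, hqR, hqQ⟩ := hP q hq
    obtain ⟨_, hprod, r, hr0, hrc, hr⟩ := hc q hq
    have h1 := termS_two f hf hirr hM h0 α hα a ha q (c q) r hqp.two_le (hcpos q hq) (hcle q hq)
      hrc hr
    refine h1.trans ?_
    have h3 : 2 * (q : ℝ) * hh α ≤ 2 * Q * hh α :=
      mul_le_mul_of_nonneg_right (by linarith) hh0
    have h4 : 4 * (q : ℝ) ^ 2 * ∑ i, a i ≤ ns := by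
      have h6 := hqA q hq
      linarith
    have h7 : E + 4 * (q : ℝ) ^ 2 * (∑ i, a i) + 2 * q * hh α ≤ E + 2 * Q * hh α + ns := by
      linarith
    calc IE (Va α a) (Va α a) + 4 * n * (q : ℝ) ^ 2 * (∑ i, a i) + 2 * n * q * hh α
        ≤ n * E + 4 * n * (q : ℝ) ^ 2 * (∑ i, a i) + 2 * n * q * hh α := by linarith
      _ = n * (E + 4 * (q : ℝ) ^ 2 * (∑ i, a i) + 2 * q * hh α) := by ring
      _ ≤ _ := mul_le_mul_of_nonneg_left h7 hnR.le
  have hsum3 : ∑ p ∈ P, ∑ q ∈ P.erase p, (1 / ((c p : ℝ) * c q)) *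
            IE (fun i => UU α a (p * c p) i ^ (p * (c p * c q)))
              (fun i => UU α a (q * c q) i ^ (q * (c p * c q))) ≤
      (P.card : ℝ) ^ 2 * (n * (ns + 2 * Q * hh α)) := by
    have hQ0 : 0 ≤ n * (ns + 2 * Q * hh α) ∨ P = ∅ := by
      rcases P.eq_empty_or_nonempty with h | ⟨q, hq⟩
      · exact Or.inr h
      · left
        have hQ : 0 ≤ Q := le_trans (by positivity) (hP q hq).2.2
        positivity
    rcases hQ0 with hQ0 | hQ0
    swap
    · rw [hQ0]; simp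
    calc ∑ p ∈ P, ∑ q ∈ P.erase p, (1 / ((c p : ℝ) * c q)) *
            IE (fun i => UU α a (p * c p) i ^ (p * (c p * c q)))
              (fun i => UU α a (q * c q) i ^ (q * (c p * c q)))
        ≤ ∑ p ∈ P, ∑ _q ∈ P.erase p, ((n : ℝ) * (ns + 2 * Q * hh α)) := by
          apply Finset.sum_le_sum
          intro p hp
          apply Finset.sum_le_sum
          intro q hq
          have hq' := Finset.mem_of_mem_erase hq
          have hpq : p ≠ q := (Finset.ne_of_mem_erase hq).symm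
          obtain ⟨_, _, r, hr0, hrc, hr⟩ := hc p hp
          obtain ⟨_, _, r', hr0', hrc', hr'⟩ := hc q hq'
          have h1 := termS_three f hf hirr hM h0 α hα a ha p q (c p) (c q) r r'
            (hP p hp).1.two_le (hP q hq').1.two_le hpq (hcpos p hp) (hcpos q hq') (hcle p hp)
            (hcle q hq') hrc hrc' hr hr'
          refine h1.trans ?_
          have h3 : ((p : ℝ) + q) * hh α ≤ 2 * Q * hh α := by
            refine mul_le_mul_of_nonneg_right ?_ hh0
            linarith [(hP p hp).2.2, (hP q hq').2.2]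
          have h4 : ((p : ℝ) ^ 2 + (q : ℝ) ^ 2) * ∑ i, a i ≤ ns := by
            have h5 := hqA p hp
            have h6 := hqA q hq'
            have h8 : 0 ≤ Q ^ 2 * ∑ i, a i := by positivity
            linarith
          calc n * (((p : ℝ) ^ 2 + (q : ℝ) ^ 2) * ∑ i, a i) + n * (p + q) * hh α
              = n * (((p : ℝ) ^ 2 + (q : ℝ) ^ 2) * ∑ i, a i + (p + q) * hh α) := by ring
            _ ≤ n * (ns + 2 * Q * hh α) :=
              mul_le_mul_of_nonneg_left (by linarith) hnR.le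
      _ ≤ ∑ p ∈ P, ∑ _q ∈ P, ((n : ℝ) * (ns + 2 * Q * hh α)) := by
          apply Finset.sum_le_sum
          intro p hp
          apply Finset.sum_le_sum_of_subset_of_nonneg (Finset.erase_subset _ _)
          intro _ _ _
          exact hQ0
      _ = _ := by
          rw [Finset.sum_const, Finset.sum_const, nsmul_eq_mul, nsmul_eq_mul]
          ring
  rw [Finset.sum_const, nsmul_eq_mul] at hsum1 hsum2
  have h7 := mul_le_mul_of_nonneg_left hsum1 (by positivity : 0 ≤ 2 * t)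
  have h8 := mul_le_mul_of_nonneg_left (add_le_add hsum2 hsum3) (by positivity : 0 ≤ t ^ 2)
  have h9 : 0 ≤ (n : ℝ) * (E + 2 * t * P.card * (ns + (1 + Q) * hh α - Real.log R)
      + t ^ 2 * (P.card * (E + 2 * Q * hh α + ns)
        + (P.card : ℝ) ^ 2 * (ns + 2 * Q * hh α))) := by
    calc (0 : ℝ) ≤ _ := hmain
      _ ≤ n * E + 2 * t * ((P.card : ℝ) * (n * (ns + (1 + Q) * hh α - Real.log R)))
          + t ^ 2 * ((P.card : ℝ) * (n * (E + 2 * Q * hh α + ns))
            + (P.card : ℝ) ^ 2 * (n * (ns + 2 * Q * hh α))) :=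
          add_le_add (add_le_add hE h7) h8
      _ = _ := by ring
  exact nonneg_of_mul_nonneg_right h9 hnR

end Pool.Agent.Lib.MP_7ab245_nt.L1
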