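import Mathlib
import Pool.Agent.Lib.MP_7ab245_nt.L1.CoreS3
import Pool.Agent.Lib.MP_7ab245_nt.Len.CoreE

/-! From smoothed energies to the Mahler measure. -/

set_option autoImplicit false

open Polynomial Finset

namespace Pool.Agent.Lib.MP_7ab245_nt.L1

open Pool.Agent.Lib.MP_7ab245_nt.Len

/-- elementary facts on `E = A + b log (A + b)` -/
private lemma E_factsS (A b E : ℝ) (hA : 1 ≤ A) (hb : 1 ≤ b)
    (hE : E = A + b * Real.log (A + b)) :
    1 ≤ E ∧ A + 13 * b * Real.log (40000 * E) ≤ 40000 * E := by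
  obtain ⟨t, ht⟩ : ∃ t, t = Real.log (A + b) := ⟨_, rfl⟩
  have h2 : Real.log 2 ≤ t := by
    rw [ht]; exact Real.log_le_log (by norm_num) (by linarith)
  have hl2 := Real.log_two_gt_d9
  have ht0 : 0.69 ≤ t := by linarith
  rw [← ht] at hE
  have hbt : 0.69 ≤ b * t := by nlinarith
  have hE1 : 1 ≤ E := by linarith
  refine ⟨hE1, ?_⟩
  have htab : t ≤ A + b := by
    have := Real.log_le_sub_one_of_pos (x := A + b) (by linarith)
    linarith
  have hE2 : E ≤ (A + b) ^ 2 := by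
    rw [hE]
    have : b * t ≤ b * (A + b) := by gcongr
    nlinarith
  have h3 : Real.log (40000 * E) ≤ 11.1 + 2 * t := by
    rw [Real.log_mul (by norm_num) (by linarith)]
    have h4 : Real.log E ≤ 2 * t := by
      have := Real.log_le_log (by linarith) hE2
      rw [Real.log_pow, ← ht] at this
      push_cast at this
      exact this
    have h5 : Real.log 40000 ≤ 11.1 := by
      have h6 : Real.log 40000 ≤ Real.log ((2 : ℝ) ^ 16) :=
        Real.log_le_log (by norm_num) (by norm_num)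
      rw [Real.log_pow] at h6
      push_cast at h6
      have := Real.log_two_lt_d9
      linarith
    linarith
  have h6 : 13 * b * Real.log (40000 * E) ≤ 13 * b * (11.1 + 2 * t) := by gcongr
  have h7 : 13 * b * (11.1 + 2 * t) ≤ 300 * (b * t) := by nlinarith
  rw [hE]
  rw [hE] at h6
  linarith

theorem core_smooth (A b E0 : ℝ) (hA : 1 ≤ A) (hb : 1 ≤ b)
    (hE0 : E0 = A + b * Real.log (A + b)) (f : ℤ[X]) (hf : f.Monic) (hirr : Irreducible f)
    (hM : 1 < (f.map (Int.castRingHom ℂ)).mahlerMeasure)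
    (hM2 : (f.map (Int.castRingHom ℂ)).mahlerMeasure < 2) (h0 : f.coeff 0 ≠ 0)
    (hexp : ∀ q : ℕ, q.Prime → ¬ ∃ g : ℤ[X], f = expand ℤ q g)
    {n : ℕ} (hn : 0 < n) (α : Fin n → ℂ) (hα : IsRoots f α)
    (hEB : ∀ B : ℝ, 1 ≤ B → ∃ a : Fin n → ℝ, (∀ i, 0 < a i) ∧ ∑ i, a i ≤ 1 / B ∧
      IE (Va α a) (Va α a) ≤ n * (A + b * Real.log B)) :
    1 / 10 ^ 20 * (Real.log E0 / E0) ^ 3 ≤
      Real.log (f.map (Int.castRingHom ℂ)).mahlerMeasure := by
  have _ := hM2
  obtain ⟨hE01, hE02⟩ := E_factsS A b E0 hA hb hE0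
  obtain ⟨E, hE⟩ : ∃ E, E = 40000 * E0 := ⟨_, rfl⟩
  rw [← hE] at hE02
  have hE4 : 40000 ≤ E := by
    rw [hE]; linarith
  have hEpos : 0 < E := by linarith
  obtain ⟨R, P, hR, hP, hN1, hN2, hLR, hR2, hR5⟩ := exists_primes E hE4
  have hlam1 : 1 ≤ Real.log E := by
    rw [Real.le_log_iff_exp_le hEpos]
    have := Real.exp_one_lt_d9
    linarith
  have hlam0 : 0 < Real.log E := by linarith
  have hlamE : Real.log E ≤ E := by
    have := Real.log_le_sub_one_of_pos hEpos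
    linarith
  have hRR : (40000 : ℝ) ≤ R := by exact_mod_cast hR
  have hnR : (0 : ℝ) < n := by exact_mod_cast hn
  have hhlog : hh α = Real.log (mm f) := hh_eq_log_mahler f α hα
  have hh0 : 0 ≤ hh α := hh_nonneg α
  obtain ⟨t, ht⟩ : ∃ t, t = Real.log E / E := ⟨_, rfl⟩
  obtain ⟨x, hx⟩ : ∃ x, x = t * P.card := ⟨_, rfl⟩
  obtain ⟨B, hB⟩ : ∃ B, B = 2 * x ^ 2 := ⟨_, rfl⟩
  have ht0 : 0 ≤ t := by rw [ht]; positivity
  have hx1 : 1 ≤ x := by
    rw [hx, ht]
    calc (1 : ℝ) ≤ 4 * E / Real.log E := by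
          rw [le_div_iff₀ hlam0]; linarith
      _ = Real.log E / E * (4 * E ^ 2 / Real.log E ^ 2) := by field_simp
      _ ≤ Real.log E / E * P.card := by gcongr
  have hx2 : x ≤ 5 * E / Real.log E := by
    rw [hx, ht]
    calc Real.log E / E * P.card ≤ Real.log E / E * (5 * E ^ 2 / Real.log E ^ 2) := by gcongr
      _ = 5 * E / Real.log E := by field_simp
  have hB1 : 1 ≤ B := by rw [hB]; nlinarith
  have hB0 : 0 < B := by linarith
  have hxE : x ≤ 5 * E := by
    refine hx2.trans ?_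
    exact div_le_self (by linarith) hlam1
  have hBE : B ≤ 50 * E ^ 2 := by
    rw [hB]
    calc 2 * x ^ 2 ≤ 2 * (5 * E) ^ 2 := by gcongr
      _ = 50 * E ^ 2 := by ring
  obtain ⟨B', hB'⟩ : ∃ B', B' = 4 * (16 * (R : ℝ)) ^ 2 * B := ⟨_, rfl⟩
  have hRsq : (1 : ℝ) ≤ (16 * (R : ℝ)) ^ 2 := one_le_pow₀ (by linarith)
  have hB'1 : 1 ≤ B' := by
    rw [hB']
    nlinarith
  have hB'E : B' ≤ E ^ 13 := by
    rw [hB']
    calc 4 * (16 * (R : ℝ)) ^ 2 * B ≤ 4 * (E ^ 5) ^ 2 * (50 * E ^ 2) := by gcongr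
      _ = 200 * E ^ 12 := by ring
      _ ≤ E * E ^ 12 := by gcongr; linarith
      _ = E ^ 13 := by ring
  obtain ⟨a, ha, hsum, hIE⟩ := hEB B' hB'1
  have hIE2 : IE (Va α a) (Va α a) ≤ n * E := by
    refine hIE.trans ?_
    have h4 : Real.log B' ≤ 13 * Real.log E := by
      have h5 := Real.log_le_log (by linarith) hB'E
      rw [Real.log_pow] at h5
      push_cast at h5
      exact h5
    have h5 : b * Real.log B' ≤ b * (13 * Real.log E) := by gcongr
    have h6 : A + b * Real.log B' ≤ E := by linarith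
    gcongr
  have hns : 4 * (16 * (R : ℝ)) ^ 2 * ∑ i, a i ≤ 1 / B := by
    calc 4 * (16 * (R : ℝ)) ^ 2 * ∑ i, a i ≤ 4 * (16 * (R : ℝ)) ^ 2 * (1 / B') := by gcongr
      _ = 1 / B := by
        rw [hB']
        have : (16 * (R : ℝ)) ^ 2 ≠ 0 := by positivity
        field_simp
  have hcore := coreS_ineq f hf hirr hM h0 hn α hα P R (16 * R) (by linarith) hP
    (fun q hq => hexp q (hP q hq).1) a ha E t ht0 hIE2 (1 / B) hns
  have hfin := final_numeric E (Real.log E) P.card R (Real.log R) B t x (hh α) hE4 hlam1 hlamE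
    hN1 hN2 (by linarith) hR2 hLR ht hx hB hh0 hcore
  have hfin1 := hfin.1
  rw [hhlog] at hfin1
  refine le_trans ?_ hfin1
  have h2 : Real.log E0 ≤ Real.log E := by
    apply Real.log_le_log (by linarith)
    rw [hE]
    linarith
  have h3 : 0 ≤ Real.log E0 := Real.log_nonneg hE01
  have hE0pos : 0 < E0 := by linarith
  calc 1 / 10 ^ 20 * (Real.log E0 / E0) ^ 3
      ≤ 1 / (6400 * 40000 ^ 3) * (Real.log E0 / E0) ^ 3 := by
        gcongr
        norm_num
    _ = Real.log E0 ^ 3 / (6400 * (40000 * E0) ^ 3) := by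
        field_simp
    _ ≤ Real.log E ^ 3 / (6400 * (40000 * E0) ^ 3) := by
        gcongr
    _ = _ := by rw [hE]

end Pool.Agent.Lib.MP_7ab245_nt.L1
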