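import Mathlib
import Pool.Agent.Lib.MP_7ab245_nt.SQ.Iff

/-!
For a function `w` tending to infinity, Lehmer's bound for the irreducible polynomials of degree `n`
and length at most `w n`, with one constant, is equivalent to Lehmer's conjecture.
(Replace `f` by `f(X ^ q)`, `q` a large prime number.)
-/

set_option autoImplicit false

open Polynomial IntermediateField

namespace Pool.Agent.Lib.MP_7ab245_nt.L1

open Pool.Agent.Lib.MP_7ab245_nt.SQ

/-- the length of `f(X^m)` -/
lemma length_expand (f : ℤ[X]) {m : ℕ} (hm : 0 < m) :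
    ∑ i ∈ (expand ℤ m f).support, |((expand ℤ m f).coeff i : ℝ)| ≤
      ∑ i ∈ f.support, |(f.coeff i : ℝ)| := by
  classical
  have h1 : (expand ℤ m f).support ⊆ f.support.image (fun i => i * m) := by
    intro i hi
    rw [mem_support_iff, coeff_expand hm] at hi
    split_ifs at hi with h2
    · refine Finset.mem_image.mpr ⟨i / m, mem_support_iff.mpr hi, Nat.div_mul_cancel h2⟩
    · exact absurd rfl hi
  refine (Finset.sum_le_sum_of_subset_of_nonneg h1 fun _ _ _ => abs_nonneg _).trans ?_
  rw [Finset.sum_image (fun a _ b _ hab => Nat.eq_of_mul_eq_mul_right hm hab)]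
  refine Finset.sum_le_sum fun i _ => ?_
  rw [coeff_expand_mul hm]

/-- For EVERY function `w` tending to infinity: Lehmer's conjecture is equivalent to its restriction
to the irreducible polynomials of degree `n` and length at most `w n`. -/
theorem q1_iff_len (w : ℕ → ℝ) (hw : Filter.Tendsto w Filter.atTop Filter.atTop) :
    (∃ μ : ℝ, 1 < μ ∧ ∀ f : ℤ[X], 1 < (f.map (Int.castRingHom ℂ)).mahlerMeasure →
      μ ≤ (f.map (Int.castRingHom ℂ)).mahlerMeasure) ↔
    ∃ μ : ℝ, 1 < μ ∧ ∀ f : ℤ[X], Irreducible f → 1 < (f.map (Int.castRingHom ℂ)).mahlerMeasure →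
      ∑ i ∈ f.support, |(f.coeff i : ℝ)| ≤ w f.natDegree →
        μ ≤ (f.map (Int.castRingHom ℂ)).mahlerMeasure := by
  constructor
  · rintro ⟨μ, h1, h2⟩
    exact ⟨μ, h1, fun f _ hf _ => h2 f hf⟩
  · rintro ⟨μ, h1, h2⟩
    refine ⟨min μ 2, lt_min h1 one_lt_two, iff_reduce ?_⟩
    -- monic case
    have key : ∀ f : ℤ[X], f.Monic → Irreducible f → 1 < (f.map (Int.castRingHom ℂ)).mahlerMeasure →
        min μ 2 ≤ (f.map (Int.castRingHom ℂ)).mahlerMeasure := by
      intro f hmon hirr hM
      by_cases hM2 : 2 ≤ (f.map (Int.castRingHom ℂ)).mahlerMeasure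
      · exact (min_le_right _ _).trans hM2
      rw [not_le] at hM2
      have hd0 : 0 < f.natDegree := by
        rcases Nat.eq_zero_or_pos f.natDegree with h0 | h0
        · exfalso
          have : f = 1 := hmon.natDegree_eq_zero.mp h0
          rw [this] at hM
          simp at hM
        · exact h0
      obtain ⟨δ, hδ1, hδ⟩ := iff_gap f.natDegree
      obtain ⟨q₀, hq₀⟩ : ∃ q₀ : ℕ, (2 : ℝ) < δ ^ q₀ := pow_unbounded_of_one_lt 2 hδ1
      have h3 : Filter.Tendsto (fun q : ℕ => w (f.natDegree * q)) Filter.atTop Filter.atTop :=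
        hw.comp (Filter.tendsto_id.const_mul_atTop' hd0)
      obtain ⟨q₁, hq₁⟩ := Filter.eventually_atTop.mp
        (h3.eventually_ge_atTop (∑ i ∈ f.support, |(f.coeff i : ℝ)|))
      obtain ⟨q, hqge, hq⟩ := Nat.exists_infinite_primes (max q₀ q₁)
      have hexp : Irreducible (expand ℤ q f) := by
        apply iff_irreducible_expand hmon hirr hq
        intro α hα b hb
        obtain ⟨g, hg1, hg2⟩ := iff_pow_root hmon hirr hα hq.pos b hb
        have hg0 : 0 ≤ (g.map (Int.castRingHom ℂ)).mahlerMeasure := mahlerMeasure_nonneg _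
        have hg3 : 1 < (g.map (Int.castRingHom ℂ)).mahlerMeasure := by
          by_contra hcon
          have := pow_le_one₀ (n := q) hg0 (not_lt.mp hcon)
          linarith
        have hg4 := hδ g hg1 hg3
        have h5 : δ ^ q₀ ≤ (g.map (Int.castRingHom ℂ)).mahlerMeasure ^ q :=
          (pow_le_pow_right₀ hδ1.le ((le_max_left _ _).trans hqge)).trans
            (pow_le_pow_left₀ (by linarith) hg4 q)
        linarith
      have hmap : (expand ℤ q f).map (Int.castRingHom ℂ) = expand ℂ q (f.map (Int.castRingHom ℂ)) :=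
        map_expand
      have hMe : ((expand ℤ q f).map (Int.castRingHom ℂ)).mahlerMeasure =
          (f.map (Int.castRingHom ℂ)).mahlerMeasure := by
        rw [hmap, iff_mahler_expand _ hq.pos]
      rw [← hMe]
      refine (min_le_left _ _).trans (h2 _ hexp (by rw [hMe]; exact hM) ?_)
      rw [natDegree_expand]
      exact (length_expand _ hq.pos).trans (hq₁ q ((le_max_right _ _).trans hqge))
    -- general irreducible polynomials
    intro f hirr hM
    have hf0 : f ≠ 0 := hirr.ne_zero
    have hlc : ‖((f.leadingCoeff : ℤ) : ℂ)‖ ≤ (f.map (Int.castRingHom ℂ)).mahlerMeasure := by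
      have h3 := leadingCoeff_le_mahlerMeasure (f.map (Int.castRingHom ℂ))
      rw [leadingCoeff_map_of_injective (RingHom.injective_int _)] at h3
      simpa using h3
    have hlc0 : f.leadingCoeff ≠ 0 := leadingCoeff_ne_zero.mpr hf0
    have hcases : 2 ≤ |f.leadingCoeff| ∨ f.leadingCoeff = 1 ∨ f.leadingCoeff = -1 := by
      have : 0 < |f.leadingCoeff| := abs_pos.mpr hlc0
      rcases abs_cases f.leadingCoeff with h4 | h4 <;> omega
    rcases hcases with h4 | h4 | h4
    · refine (min_le_right _ _).trans (le_trans ?_ hlc)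
      rw [Complex.norm_intCast]
      exact_mod_cast h4
    · exact key f h4 hirr hM
    · have h5 : (-f).Monic := by rw [Monic, leadingCoeff_neg, h4]; norm_num
      have h6 : (((-f).map (Int.castRingHom ℂ))).mahlerMeasure =
          (f.map (Int.castRingHom ℂ)).mahlerMeasure := by
        have h8 : (-f).map (Int.castRingHom ℂ) = C (-1) * f.map (Int.castRingHom ℂ) := by
          rw [Polynomial.map_neg, map_neg, C_1, neg_one_mul]
        rw [h8, mahlerMeasure_mul, mahlerMeasure_const, norm_neg, norm_one, one_mul]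
      have h7 := key (-f) h5 ((Associated.neg_left (Associated.refl f)).symm.irreducible hirr)
        (by rw [h6]; exact hM)
      rwa [h6] at h7

end Pool.Agent.Lib.MP_7ab245_nt.L1
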