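import Mathlib
import Pool.Agent.Lib.MP_7ab245_nt.L1.Defs
import Pool.Agent.Lib.MP_7ab245_nt.Len.Refl
import Pool.Agent.Lib.MP_7ab245_nt.Len.MainA
import Pool.Agent.Lib.MP_7ab245_nt.Len.Energy

/-! Means of logarithms: `kap` and `mlog`. -/

set_option autoImplicit false

open Polynomial Finset

namespace Pool.Agent.Lib.MP_7ab245_nt.L1

open Pool.Agent.Lib.MP_7ab245_nt.Len

/-! ### integrability -/

private theorem r1b_ci_lin (c : ℂ) :
    CircleIntegrable (fun ζ : ℂ => Real.log ‖1 - ζ * c‖) 0 1 := by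
  have h : MeromorphicOn (fun ζ : ℂ => 1 - ζ * c) (Metric.sphere 0 |1|) := by
    have h1 : AnalyticOnNhd ℂ (fun ζ : ℂ => 1 - ζ * c) (Metric.sphere 0 |1|) :=
      analyticOnNhd_const.sub (analyticOnNhd_id.mul analyticOnNhd_const)
    exact h1.meromorphicOn
  exact h.circleIntegrable_log_norm

private theorem r1b_ci_VV {m : ℕ} (x : Fin m → ℂ) (ω : ℂ) :
    CircleIntegrable (fun ζ : ℂ => VV x 0 (ω * ζ)) 0 1 := by
  have h1 : CircleIntegrable (fun ζ : ℂ => ∑ j, Real.log ‖1 - ζ * (ω * starRingEnd ℂ (x j))‖) 0 1 := by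
    have h := CircleIntegrable.sum (univ : Finset (Fin m))
      (f := fun j => fun ζ : ℂ => Real.log ‖1 - ζ * (ω * starRingEnd ℂ (x j))‖) (c := 0) (R := 1)
      (fun j _ => r1b_ci_lin _)
    convert h using 1
    funext ζ
    rw [Finset.sum_apply]
  have h2 := h1.neg
  convert h2 using 1
  funext ζ
  simp only [VV, zero_sub, Pi.neg_apply]
  congr 1
  refine Finset.sum_congr rfl fun j _ => ?_
  rw [show ω * ζ * starRingEnd ℂ (x j) = ζ * (ω * starRingEnd ℂ (x j)) by ring]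

private theorem r1b_ci_VV' {m : ℕ} (x : Fin m → ℂ) :
    CircleIntegrable (VV x 0) 0 1 := by
  have h := r1b_ci_VV x 1
  simpa only [one_mul] using h

private theorem r1b_ci_eval (P : ℂ[X]) :
    CircleIntegrable (fun z : ℂ => Real.log ‖P.eval z‖) 0 1 := by
  have h : MeromorphicOn (fun z : ℂ => P.eval z) (Metric.sphere 0 |1|) := by
    have h1 : AnalyticOnNhd ℂ (fun z : ℂ => P.eval z) (Metric.sphere 0 |1|) := by
      have := AnalyticOnNhd.eval_polynomial (𝕜 := ℂ) P
      exact this.mono (Set.subset_univ _)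
    exact h1.meromorphicOn
  exact h.circleIntegrable_log_norm

private theorem r1b_avg_rot (ω : ℂ) (hω : ‖ω‖ = 1) (G : ℂ → ℝ) :
    Real.circleAverage (fun ζ => G (ω * ζ)) 0 1 = Real.circleAverage G 0 1 := by
  rw [Real.circleAverage_eq_integral_add (f := G) ω.arg, Real.circleAverage]
  congr 1
  refine intervalIntegral.integral_congr fun θ _ => ?_
  show G _ = G _
  congr 1
  have h1 : ω = Complex.exp (ω.arg * Complex.I) := by
    have := Complex.norm_mul_exp_arg_mul_I ω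
    rw [hω] at this
    simpa using this.symm
  rw [circleMap, circleMap]
  simp only [Complex.ofReal_one, one_mul, zero_add]
  conv_lhs => rw [h1]
  rw [← Complex.exp_add]
  congr 1
  push_cast
  ring

private theorem r1b_finite_codiscrete {S : Set ℂ} (hS : S.Finite) :
    Sᶜ ∈ Filter.codiscreteWithin (Metric.sphere (0 : ℂ) |1|) :=
  Filter.codiscreteWithin_mono (Set.subset_univ _) hS.compl_mem_codiscrete

/-! ### `kap` -/

private theorem r1b_bad_finite {m : ℕ} (x : Fin m → ℂ) (N : ℕ) (hN : 0 < N) :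
    {ζ : ℂ | ∃ l, 1 - (ζ * starRingEnd ℂ (x l)) ^ N = 0}.Finite := by
  have h : ∀ l : Fin m, {ζ : ℂ | 1 - (ζ * starRingEnd ℂ (x l)) ^ N = 0}.Finite := by
    intro l
    set p : ℂ[X] := 1 - (X * C (starRingEnd ℂ (x l))) ^ N with hp
    have hp0 : p ≠ 0 := by
      intro h0
      have h1 : p.eval 0 = 0 := by rw [h0, eval_zero]
      rw [hp] at h1
      simp [hN.ne'] at h1
    refine (p.roots.toFinset.finite_toSet).subset fun ζ hζ => ?_
    rw [Finset.mem_coe, Multiset.mem_toFinset, mem_roots hp0, IsRoot.def, hp]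
    have h1 : 1 - (ζ * starRingEnd ℂ (x l)) ^ N = 0 := hζ
    rw [eval_sub, eval_one, eval_pow, eval_mul, eval_X, eval_C, h1]
  have h2 : {ζ : ℂ | ∃ l, 1 - (ζ * starRingEnd ℂ (x l)) ^ N = 0} =
      ⋃ l, {ζ : ℂ | 1 - (ζ * starRingEnd ℂ (x l)) ^ N = 0} := by
    ext ζ
    simp
  rw [h2]
  exact Set.finite_iUnion h

private theorem r1b_pow_eq {m : ℕ} (x : Fin m → ℂ) (N : ℕ) (hN : 0 < N) (ζ : ℂ)
    (hζ : ¬ ∃ l, 1 - (ζ * starRingEnd ℂ (x l)) ^ N = 0) :
    VV (fun l => x l ^ N) 0 (ζ ^ N) = ∑ ω ∈ nthRootsFinset N (1 : ℂ), VV x 0 (ω * ζ) := by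
  push Not at hζ
  simp only [VV, zero_sub]
  rw [Finset.sum_neg_distrib, Finset.sum_comm]
  congr 1
  refine Finset.sum_congr rfl fun l _ => ?_
  have h1 : 1 - ζ ^ N * starRingEnd ℂ (x l ^ N) =
      ∏ ω ∈ nthRootsFinset N (1 : ℂ), (1 - ω * ζ * starRingEnd ℂ (x l)) := by
    rw [map_pow, ← mul_pow, ← prod_one_sub N hN]
    exact Finset.prod_congr rfl fun ω _ => by ring
  have h2 : (∏ ω ∈ nthRootsFinset N (1 : ℂ), (1 - ω * ζ * starRingEnd ℂ (x l))) ≠ 0 := by
    rw [← h1, map_pow, ← mul_pow]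
    exact hζ l
  rw [h1, norm_prod, Real.log_prod]
  intro ω hω
  exact norm_ne_zero_iff.mpr (Finset.prod_ne_zero_iff.mp h2 ω hω)

theorem kap_pow_le {m : ℕ} (x : Fin m → ℂ) (hx : ∀ l, ‖x l‖ ≤ 1) (N : ℕ) (hN : 0 < N) :
    kap (fun l => x l ^ N) ≤ N * kap x := by
  have hcard : (nthRootsFinset N (1 : ℂ)).card = N :=
    (Complex.isPrimitiveRoot_exp N hN.ne').card_nthRootsFinset
  have hω : ∀ ω ∈ nthRootsFinset N (1 : ℂ), ‖ω‖ = 1 := by
    intro ω hω
    rw [mem_nthRootsFinset hN] at hω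
    exact Complex.norm_eq_one_of_pow_eq_one hω hN.ne'
  have hi : ∀ ω : ℂ, CircleIntegrable (fun ζ : ℂ => |VV x 0 (ω * ζ)|) 0 1 := fun ω =>
    (r1b_ci_VV x ω).abs
  have hsum : CircleIntegrable (fun ζ : ℂ => ∑ ω ∈ nthRootsFinset N (1 : ℂ), VV x 0 (ω * ζ))
      0 1 := by
    have h := CircleIntegrable.sum (nthRootsFinset N (1 : ℂ))
      (f := fun ω => fun ζ : ℂ => VV x 0 (ω * ζ)) (c := 0) (R := 1)
      (fun ω _ => r1b_ci_VV x ω)
    convert h using 1
    funext ζ
    rw [Finset.sum_apply]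
  have hsum' : CircleIntegrable (fun ζ : ℂ => ∑ ω ∈ nthRootsFinset N (1 : ℂ),
      |VV x 0 (ω * ζ)|) 0 1 := by
    have h := CircleIntegrable.sum (nthRootsFinset N (1 : ℂ))
      (f := fun ω => fun ζ : ℂ => |VV x 0 (ω * ζ)|) (c := 0) (R := 1)
      (fun ω _ => hi ω)
    convert h using 1
    funext ζ
    rw [Finset.sum_apply]
  have e1 : kap (fun l => x l ^ N) =
      Real.circleAverage (fun ζ => |VV (fun l => x l ^ N) 0 (ζ ^ N)|) 0 1 := by
    rw [kap, Real.circleAverage, Real.circleAverage]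
    congr 1
    exact (integral_comp_pow (fun ζ => |VV (fun l => x l ^ N) 0 ζ|) N hN
      (r1b_ci_VV' (fun l => x l ^ N)).abs).symm
  have e2 : Real.circleAverage (fun ζ => |VV (fun l => x l ^ N) 0 (ζ ^ N)|) 0 1 =
      Real.circleAverage (fun ζ => |∑ ω ∈ nthRootsFinset N (1 : ℂ), VV x 0 (ω * ζ)|) 0 1 := by
    refine Real.circleAverage_congr_codiscreteWithin ?_ one_ne_zero
    filter_upwards [r1b_finite_codiscrete (r1b_bad_finite x N hN)] with ζ hζ
    rw [r1b_pow_eq x N hN ζ hζ]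
  have e3 : Real.circleAverage (fun ζ => |∑ ω ∈ nthRootsFinset N (1 : ℂ), VV x 0 (ω * ζ)|) 0 1 ≤
      Real.circleAverage (fun ζ => ∑ ω ∈ nthRootsFinset N (1 : ℂ), |VV x 0 (ω * ζ)|) 0 1 :=
    Real.circleAverage_mono hsum.abs hsum' fun ζ _ => Finset.abs_sum_le_sum_abs _ _
  have e4 : Real.circleAverage (fun ζ => ∑ ω ∈ nthRootsFinset N (1 : ℂ), |VV x 0 (ω * ζ)|) 0 1 =
      N * kap x := by
    rw [Real.circleAverage_fun_sum fun ω _ => hi ω,
      Finset.sum_congr rfl fun ω hω' => r1b_avg_rot ω (hω ω hω') (fun ζ => |VV x 0 ζ|),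
      Finset.sum_const, hcard, nsmul_eq_mul]
    rfl
  rw [e1, e2]
  exact e3.trans e4.le

/-! ### `mlog` -/

theorem mlog_nonneg (f : ℤ[X]) : 0 ≤ mlog f :=
  Real.circleAverage_nonneg_of_nonneg fun _ _ => abs_nonneg _

theorem hh_le_mlog (f : ℤ[X]) {n : ℕ} (α : Fin n → ℂ) (hα : IsRoots f α) :
    hh α ≤ mlog f := by
  rw [hh_eq_log_mahler f α hα, ← logMahlerMeasure_eq_log_MahlerMeasure, logMahlerMeasure_def]
  exact Real.circleAverage_mono (r1b_ci_eval _) (r1b_ci_eval _).abs fun z _ => le_abs_self _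

theorem mlog_X_pow_mul (r : ℕ) (f : ℤ[X]) : mlog (X ^ r * f) = mlog f := by
  refine Real.circleAverage_congr_sphere fun z hz => ?_
  have hz1 : ‖z‖ = 1 := by
    have := mem_sphere_zero_iff_norm.mp hz
    rwa [abs_one] at this
  simp only [Polynomial.map_mul, Polynomial.map_pow, map_X, eval_mul, eval_pow, eval_X, norm_mul,
    norm_pow, hz1, one_pow, one_mul]

theorem mlog_neg (f : ℤ[X]) : mlog (-f) = mlog f := by
  unfold mlog
  simp only [Polynomial.map_neg, eval_neg, norm_neg]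

private theorem r1b_log_eval (f : ℤ[X]) {n : ℕ} (α : Fin n → ℂ) (hα : IsRoots f α) (ζ : ℂ)
    (hζ : ‖ζ‖ = 1) (hne : (f.map (Int.castRingHom ℂ)).eval ζ ≠ 0) :
    VV (fun i => Len.refl (α i)) 0 ζ =
      hh α - Real.log ‖(f.map (Int.castRingHom ℂ)).eval ζ‖ := by
  have h1 : (f.map (Int.castRingHom ℂ)).eval ζ = ∏ i, (ζ - α i) := by
    rw [hα, eval_prod]
    simp
  rw [h1] at hne ⊢
  have hne' : ∀ j, ζ - α j ≠ 0 := fun j h => hne (Finset.prod_eq_zero (Finset.mem_univ j) h)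
  rw [norm_prod, Real.log_prod fun j _ => norm_ne_zero_iff.mpr (hne' j), hh, VV,
    ← Finset.sum_sub_distrib, zero_sub, ← Finset.sum_neg_distrib]
  refine Finset.sum_congr rfl fun j _ => ?_
  have h2 := norm_F_eq (α j) ζ hζ
  have h3 : 0 < ‖ζ - α j‖ := norm_pos_iff.mpr (hne' j)
  have hmx : (0 : ℝ) < max 1 ‖α j‖ := lt_of_lt_of_le one_pos (le_max_left _ _)
  have h4 : ‖1 - ζ * starRingEnd ℂ (Len.refl (α j))‖ ≠ 0 := by
    intro h
    rw [h, zero_mul] at h2
    exact h3.ne h2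
  rw [← h2, Real.log_mul h4 hmx.ne', Real.posLog_eq_log_max_one (norm_nonneg _)]
  ring

theorem kap_refl_le (f : ℤ[X]) {n : ℕ} (α : Fin n → ℂ) (hα : IsRoots f α) :
    kap (fun i => Len.refl (α i)) ≤ 2 * mlog f := by
  have hf0 : f.map (Int.castRingHom ℂ) ≠ 0 := (hα.monic.map _).ne_zero
  have hfin : {ζ : ℂ | (f.map (Int.castRingHom ℂ)).eval ζ = 0}.Finite := by
    refine ((f.map (Int.castRingHom ℂ)).roots.toFinset.finite_toSet).subset fun ζ hζ => ?_
    rw [Finset.mem_coe, Multiset.mem_toFinset, mem_roots hf0, IsRoot.def]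
    exact hζ
  have e1 : kap (fun i => Len.refl (α i)) = Real.circleAverage
      (fun ζ => |hh α - Real.log ‖(f.map (Int.castRingHom ℂ)).eval ζ‖|) 0 1 := by
    refine Real.circleAverage_congr_codiscreteWithin ?_ one_ne_zero
    filter_upwards [r1b_finite_codiscrete hfin, Filter.self_mem_codiscreteWithin _] with ζ hζ hs
    have hz1 : ‖ζ‖ = 1 := by
      have := mem_sphere_zero_iff_norm.mp hs
      rwa [abs_one] at this
    rw [r1b_log_eval f α hα ζ hz1 hζ]
  have hi := r1b_ci_eval (f.map (Int.castRingHom ℂ))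
  have e2 : Real.circleAverage
      (fun ζ => |hh α - Real.log ‖(f.map (Int.castRingHom ℂ)).eval ζ‖|) 0 1 ≤
      Real.circleAverage
      (fun ζ => mlog f + |Real.log ‖(f.map (Int.castRingHom ℂ)).eval ζ‖|) 0 1 := by
    refine Real.circleAverage_mono ((circleIntegrable_const _ _ _).sub hi).abs
      ((circleIntegrable_const _ _ _).add hi.abs) fun ζ _ => ?_
    have hh0 : 0 ≤ hh α := Finset.sum_nonneg fun i _ => Real.posLog_nonneg
    have h1 := abs_sub (hh α) (Real.log ‖(f.map (Int.castRingHom ℂ)).eval ζ‖)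
    have h2 := hh_le_mlog f α hα
    rw [abs_of_nonneg hh0] at h1
    linarith
  have e3 : Real.circleAverage
      (fun ζ => mlog f + |Real.log ‖(f.map (Int.castRingHom ℂ)).eval ζ‖|) 0 1 = 2 * mlog f := by
    have hi' : CircleIntegrable
        (fun ζ => |Real.log ‖(f.map (Int.castRingHom ℂ)).eval ζ‖|) 0 1 := hi.abs
    rw [Real.circleAverage_fun_add (circleIntegrable_const _ _ _) hi',
      Real.circleAverage_const]
    show mlog f + mlog f = _
    ring
  rw [e1]
  exact e2.trans e3.le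

/-- the length bounds the mean of `|log |f||` -/
theorem mlog_le_log_length (f : ℤ[X]) (hf : f ≠ 0) :
    mlog f ≤ 2 * Real.log (∑ m ∈ f.support, |(f.coeff m : ℝ)|) := by
  set L := ∑ m ∈ f.support, |(f.coeff m : ℝ)| with hL
  set P := f.map (Int.castRingHom ℂ) with hP
  have hi := r1b_ci_eval P
  have hM := one_le_mahlerMeasure_of_ne_zero hf
  rw [← hP] at hM
  have hML : P.mahlerMeasure ≤ L := mm_le_len f
  have hL1 : 1 ≤ L := hM.trans hML
  have h0 : 0 ≤ Real.circleAverage (fun z => Real.log ‖P.eval z‖) 0 1 := by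
    rw [← logMahlerMeasure_def, logMahlerMeasure_eq_log_MahlerMeasure]
    exact Real.log_nonneg hM
  have e1 : mlog f ≤ Real.circleAverage (fun z => 2 * Real.log L - Real.log ‖P.eval z‖) 0 1 := by
    refine Real.circleAverage_mono hi.abs ((circleIntegrable_const _ _ _).sub hi) fun z hz => ?_
    have hz1 : ‖z‖ = 1 := by
      have := mem_sphere_zero_iff_norm.mp hz
      rwa [abs_one] at this
    have hle : ‖P.eval z‖ ≤ L := by
      rw [hP, eval_map, eval₂_eq_sum, Polynomial.sum_def, hL]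
      refine (norm_sum_le _ _).trans (Finset.sum_le_sum fun m _ => ?_)
      rw [norm_mul, norm_pow, hz1, one_pow, mul_one]
      simp
    rcases abs_cases (Real.log ‖P.eval z‖) with ⟨h, _⟩ | ⟨h, _⟩
    · have hlog : Real.log ‖P.eval z‖ ≤ Real.log L := by
        rcases eq_or_lt_of_le (norm_nonneg (P.eval z)) with h' | h'
        · rw [← h', Real.log_zero]
          exact Real.log_nonneg hL1
        · exact Real.log_le_log h' hle
      rw [h]
      linarith
    · rw [h]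
      have := Real.log_nonneg hL1
      linarith
  rw [Real.circleAverage_fun_sub (circleIntegrable_const _ _ _) hi,
    Real.circleAverage_const] at e1
  linarith

end Pool.Agent.Lib.MP_7ab245_nt.L1
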