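import Mathlib
import Pool.Agent.Lib.MP_7ab245_nt.L1.Red1b

/-! The sum of the squares of the coefficients bounds the mean of `|log |f||`. -/

set_option autoImplicit false

open Polynomial Finset

namespace Pool.Agent.Lib.MP_7ab245_nt.L1

open Pool.Agent.Lib.MP_7ab245_nt.Len

/-- the elementary inequality behind `mlog_le_log_sq` -/
lemma abs_log_le_aux (x A : ℝ) (hx : 0 ≤ x) (hA : 0 < A) :
    |Real.log x| ≤ A⁻¹ * (1 + x ^ 2) - 1 + Real.log A - Real.log x := by
  have h1 : Real.log (1 + x ^ 2) ≤ A⁻¹ * (1 + x ^ 2) - 1 + Real.log A := by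
    have h2 : 0 < A⁻¹ * (1 + x ^ 2) := by positivity
    have h3 := Real.log_le_sub_one_of_pos h2
    rw [Real.log_mul (by positivity) (by positivity), Real.log_inv] at h3
    linarith
  have h4 : 0 ≤ Real.log (1 + x ^ 2) := Real.log_nonneg (by nlinarith [sq_nonneg x])
  have h5 : 2 * Real.log x ≤ Real.log (1 + x ^ 2) := by
    rcases eq_or_lt_of_le hx with h | h
    · rw [← h, Real.log_zero]; linarith [Real.log_nonneg (show (1 : ℝ) ≤ 1 + (0:ℝ) ^ 2 by norm_num)]
    · have h6 : 2 * Real.log x = Real.log (x ^ 2) := by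
        rw [Real.log_pow]; push_cast; ring
      rw [h6]
      exact Real.log_le_log (by positivity) (by linarith)
  rcases abs_cases (Real.log x) with ⟨h, _⟩ | ⟨h, _⟩ <;> rw [h] <;> linarith

/-- the sum of the squares of the coefficients bounds the mean of `|log |f||` -/
theorem mlog_le_log_sq (f : ℤ[X]) (hf : f ≠ 0) :
    mlog f ≤ Real.log (1 + ∑ m ∈ f.support, (f.coeff m : ℝ) ^ 2) := by
  set S := ∑ m ∈ f.support, (f.coeff m : ℝ) ^ 2 with hS
  set P := f.map (Int.castRingHom ℂ) with hP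
  have hS0 : 0 ≤ S := Finset.sum_nonneg fun m _ => sq_nonneg _
  obtain ⟨A, hA⟩ : ∃ A, A = 1 + S := ⟨_, rfl⟩
  have hA0 : 0 < A := by rw [hA]; linarith
  have hi : CircleIntegrable (fun z => Real.log ‖P.eval z‖) 0 1 := by
    apply MeromorphicOn.circleIntegrable_log_norm
    exact fun z _ => (AnalyticAt.aeval_polynomial analyticAt_id P).meromorphicAt
  have hM := one_le_mahlerMeasure_of_ne_zero hf
  rw [← hP] at hM
  have h0 : 0 ≤ Real.circleAverage (fun z => Real.log ‖P.eval z‖) 0 1 := by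
    rw [← logMahlerMeasure_def, logMahlerMeasure_eq_log_MahlerMeasure]
    exact Real.log_nonneg hM
  have hcont : Continuous fun z : ℂ => 1 + ‖P.eval z‖ ^ 2 := by fun_prop
  have hc1 : CircleIntegrable (fun z : ℂ => 1 + ‖P.eval z‖ ^ 2) 0 1 :=
    hcont.continuousOn.circleIntegrable'
  have hpar : Real.circleAverage (fun z => ‖P.eval z‖ ^ 2) 0 1 = S := by
    rw [← P.sum_sq_norm_coeff_eq_circleAverage, hS]
    have hsupp : P.support = f.support := by
      rw [hP]
      exact support_map_of_injective f (RingHom.injective_int (Int.castRingHom ℂ))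
    rw [hsupp]
    refine Finset.sum_congr rfl fun m _ => ?_
    rw [hP, coeff_map]
    simp
  have hav : Real.circleAverage (fun z : ℂ => 1 + ‖P.eval z‖ ^ 2) 0 1 = A := by
    rw [Real.circleAverage_fun_add (circleIntegrable_const _ _ _)
      ((by fun_prop : Continuous fun z : ℂ => ‖P.eval z‖ ^ 2).continuousOn.circleIntegrable'),
      Real.circleAverage_const, hpar, hA]
  have hc2 : CircleIntegrable (fun z : ℂ => A⁻¹ * (1 + ‖P.eval z‖ ^ 2)) 0 1 :=
    (by fun_prop : Continuous fun z : ℂ => A⁻¹ * (1 + ‖P.eval z‖ ^ 2)).continuousOn.circleIntegrable'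
  have hc3 : CircleIntegrable (fun z : ℂ => A⁻¹ * (1 + ‖P.eval z‖ ^ 2) + (Real.log A - 1)) 0 1 :=
    (by fun_prop : Continuous fun z : ℂ =>
      A⁻¹ * (1 + ‖P.eval z‖ ^ 2) + (Real.log A - 1)).continuousOn.circleIntegrable'
  have e1 : mlog f ≤ Real.circleAverage
      (fun z => (A⁻¹ * (1 + ‖P.eval z‖ ^ 2) + (Real.log A - 1)) - Real.log ‖P.eval z‖) 0 1 := by
    refine Real.circleAverage_mono hi.abs (hc3.sub hi) fun z _ => ?_
    have := abs_log_le_aux ‖P.eval z‖ A (norm_nonneg _) hA0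
    linarith
  rw [Real.circleAverage_fun_sub hc3 hi,
    Real.circleAverage_fun_add hc2 (circleIntegrable_const _ _ _),
    Real.circleAverage_const] at e1
  have e2 : Real.circleAverage (fun z : ℂ => A⁻¹ * (1 + ‖P.eval z‖ ^ 2)) 0 1 = 1 := by
    have := Real.circleAverage_fun_smul (a := A⁻¹) (f := fun z : ℂ => 1 + ‖P.eval z‖ ^ 2)
      (c := 0) (R := 1)
    simp only [smul_eq_mul] at this
    rw [this, hav]
    exact inv_mul_cancel₀ hA0.ne'
  rw [e2] at e1
  rw [← hA]
  linarith

end Pool.Agent.Lib.MP_7ab245_nt.L1
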