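import Mathlib
import Pool.Agent.Lib.MP_7ab245_nt.L1.Defs

/-! Powers of cyclotomic roots, and maximal expansion of an irreducible polynomial. -/

set_option autoImplicit false

open Polynomial Finset

namespace Pool.Agent.Lib.MP_7ab245_nt.L1

open Pool.Agent.Lib.MP_7ab245_nt.Len

/-- raising to a power prime to the order is injective on roots of unity of that order -/
private lemma red1a_inj {j a : ℕ} (hj : 0 < j) (ha : Nat.Coprime a j) {x y : ℂ}
    (hx : x ^ j = 1) (hy : y ^ j = 1) (hxy : x ^ a = y ^ a) : x = y := by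
  have hy0 : y ≠ 0 := by
    rintro rfl
    rw [zero_pow hj.ne'] at hy
    exact zero_ne_one hy
  have h1 : (x / y) ^ a = 1 := by
    rw [div_pow, hxy, div_self (pow_ne_zero _ hy0)]
  have h2 : (x / y) ^ j = 1 := by rw [div_pow, hx, hy, div_one]
  have h3 : (x / y) ^ (Nat.gcd a j) = 1 := pow_gcd_eq_one.2 ⟨h1, h2⟩
  rw [ha, pow_one] at h3
  exact (div_eq_one_iff_eq hy0).1 h3

/-- sizes of the fibres of a power map on primitive roots of unity -/
private lemma red1a_fib {j j' N : ℕ} (hj : 0 < j) (hj' : 0 < j') (hdvd : j' ∣ j) (w w' : ℂ)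
    (hw : IsPrimitiveRoot w j') (hw' : IsPrimitiveRoot w' j') :
    ((primitiveRoots j ℂ).filter (fun x => x ^ N = w)).card ≤
      ((primitiveRoots j ℂ).filter (fun x => x ^ N = w')).card := by
  have : NeZero j := ⟨hj.ne'⟩
  have : NeZero j' := ⟨hj'.ne'⟩
  obtain ⟨b, -, hb, hbw⟩ := hw.isPrimitiveRoot_iff.1 hw'
  obtain ⟨u, hu⟩ := ZMod.unitsMap_surjective hdvd (ZMod.unitOfCoprime b hb)
  set a : ℕ := (u : ZMod j).val with ha
  have hac : Nat.Coprime a j := ZMod.val_coe_unit_coprime u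
  have hab : ((a : ℕ) : ZMod j') = (b : ZMod j') := by
    have h1 : ((ZMod.unitsMap hdvd u : (ZMod j')ˣ) : ZMod j') = (b : ZMod j') := by
      rw [hu]; rfl
    rw [← h1, ha]
    simp [ZMod.unitsMap_def, ZMod.natCast_val]
  have hmod : a ≡ b [MOD j'] := (ZMod.natCast_eq_natCast_iff _ _ _).1 hab
  have hwa : w ^ a = w' := by
    have h1 : a ≡ b [MOD orderOf w] := by rw [← hw.eq_orderOf]; exact hmod
    rw [← hbw, ← pow_mod_orderOf w a, ← pow_mod_orderOf w b]
    exact congrArg (fun k => w ^ k) h1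
  refine Finset.card_le_card_of_injOn (fun x => x ^ a) ?_ ?_
  · intro x hx
    rw [Finset.mem_coe, Finset.mem_filter, mem_primitiveRoots hj] at hx
    rw [Finset.mem_coe, Finset.mem_filter, mem_primitiveRoots hj]
    refine ⟨hx.1.pow_of_coprime a hac, ?_⟩
    rw [← pow_mul, mul_comm, pow_mul, hx.2, hwa]
  · intro x hx y hy hxy
    rw [Finset.mem_coe, Finset.mem_filter, mem_primitiveRoots hj] at hx hy
    exact red1a_inj hj hac hx.1.pow_eq_one hy.1.pow_eq_one hxy

/-- sums over the `N`-th powers of the primitive `j`-th roots of unity -/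
private lemma red1a_one (N j : ℕ) (hj : 0 < j) : ∃ c j' : ℕ, 0 < j' ∧
    ∀ H : ℂ → ℝ, ∑ ζ ∈ primitiveRoots j ℂ, H (ζ ^ N) =
      c * ∑ ζ ∈ primitiveRoots j' ℂ, H ζ := by
  classical
  set j' : ℕ := j / Nat.gcd j N with hj'def
  have hg : 0 < Nat.gcd j N := Nat.gcd_pos_of_pos_left _ hj
  have hdvd : j' ∣ j := Nat.div_dvd_of_dvd (Nat.gcd_dvd_left j N)
  have hj' : 0 < j' := Nat.div_pos (Nat.le_of_dvd hj (Nat.gcd_dvd_left j N)) hg
  have hpow : ∀ x : ℂ, IsPrimitiveRoot x j → IsPrimitiveRoot (x ^ N) j' := by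
    intro x hx
    have h1 : orderOf (x ^ N) = orderOf x / Nat.gcd (orderOf x) N := by
      rcases Nat.eq_zero_or_pos N with h0 | h0
      · subst h0
        rw [pow_zero, orderOf_one, Nat.gcd_zero_right, ← hx.eq_orderOf, Nat.div_self hj]
      · exact orderOf_pow' x h0.ne'
    rw [← hx.eq_orderOf] at h1
    rw [hj'def, ← h1]
    exact IsPrimitiveRoot.orderOf _
  have hx0 : IsPrimitiveRoot (Complex.exp (2 * Real.pi * Complex.I / j)) j :=
    Complex.isPrimitiveRoot_exp j hj.ne'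
  set w0 : ℂ := (Complex.exp (2 * Real.pi * Complex.I / j)) ^ N with hw0
  have hw0p : IsPrimitiveRoot w0 j' := hpow _ hx0
  refine ⟨((primitiveRoots j ℂ).filter (fun x => x ^ N = w0)).card, j', hj', fun H => ?_⟩
  rw [← Finset.sum_fiberwise_of_maps_to (s := primitiveRoots j ℂ) (t := primitiveRoots j' ℂ)
    (g := fun x => x ^ N) (fun x hx => (mem_primitiveRoots hj').2
      (hpow x ((mem_primitiveRoots hj).1 hx))), Finset.mul_sum]
  refine Finset.sum_congr rfl fun w hw => ?_
  rw [mem_primitiveRoots hj'] at hw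
  have hc : ((primitiveRoots j ℂ).filter (fun x => x ^ N = w)).card =
      ((primitiveRoots j ℂ).filter (fun x => x ^ N = w0)).card :=
    le_antisymm (red1a_fib hj hj' hdvd w w0 hw hw0p) (red1a_fib hj hj' hdvd w0 w hw0p hw)
  rw [← hc, ← nsmul_eq_mul, ← Finset.sum_const]
  refine Finset.sum_congr rfl fun x hx => ?_
  rw [(Finset.mem_filter.1 hx).2]

theorem cyc_pow (N : ℕ) (hN : 0 < N) (S : Multiset ℕ) (hS : ∀ j ∈ S, 0 < j) :
    ∃ S' : Multiset ℕ, (∀ j ∈ S', 0 < j) ∧
      ∀ H : ℂ → ℝ, cyc S (fun ζ => H (ζ ^ N)) = cyc S' H := by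
  induction S using Multiset.induction_on with
  | empty => exact ⟨0, by simp, fun H => by simp [cyc]⟩
  | cons j S ih =>
    obtain ⟨S', hS', hH'⟩ := ih fun k hk => hS k (Multiset.mem_cons_of_mem hk)
    obtain ⟨c, j', hj', hH⟩ := red1a_one N j (hS j (Multiset.mem_cons_self j S))
    refine ⟨Multiset.replicate c j' + S', ?_, fun H => ?_⟩
    · intro k hk
      rcases Multiset.mem_add.1 hk with h | h
      · rw [Multiset.eq_of_mem_replicate h]; exact hj'
      · exact hS' k h
    · have h1 : cyc (j ::ₘ S) (fun ζ => H (ζ ^ N)) =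
          ∑ ζ ∈ primitiveRoots j ℂ, H (ζ ^ N) + cyc S (fun ζ => H (ζ ^ N)) := by simp [cyc]
      have h2 : cyc (Multiset.replicate c j' + S') H =
          c * ∑ ζ ∈ primitiveRoots j' ℂ, H ζ + cyc S' H := by
        simp [cyc, Multiset.map_replicate, Multiset.sum_replicate]
      rw [h1, h2, hH, hH']

theorem exists_expand_max (g : ℤ[X]) (hg : g.Monic) (hirr : Irreducible g) :
    ∃ (N : ℕ) (h : ℤ[X]), 0 < N ∧ g = expand ℤ N h ∧ h.Monic ∧ Irreducible h ∧
      ∀ q : ℕ, q.Prime → ¬ ∃ h' : ℤ[X], h = expand ℤ q h' := by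
  suffices H : ∀ d : ℕ, ∀ g : ℤ[X], g.natDegree ≤ d → g.Monic → Irreducible g →
      ∃ (N : ℕ) (h : ℤ[X]), 0 < N ∧ g = expand ℤ N h ∧ h.Monic ∧ Irreducible h ∧
      ∀ q : ℕ, q.Prime → ¬ ∃ h' : ℤ[X], h = expand ℤ q h' from
    H g.natDegree g le_rfl hg hirr
  intro d
  induction d with
  | zero =>
    intro g hd hg hirr
    exfalso
    have h1 : g = 1 := hg.natDegree_eq_zero.mp (Nat.le_zero.mp hd)
    exact hirr.not_isUnit (h1 ▸ isUnit_one)
  | succ d ih =>
    intro g hd hg hirr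
    by_cases hex : ∃ q : ℕ, q.Prime ∧ ∃ g' : ℤ[X], g = expand ℤ q g'
    · obtain ⟨q, hq, g', hg'⟩ := hex
      have hmon : g'.Monic := by
        have := hg
        rw [hg'] at this
        exact (monic_expand_iff hq.pos).mp this
      have hirr' : Irreducible g' := by
        rw [hg'] at hirr
        exact of_irreducible_expand hq.ne_zero hirr
      have hpos : 0 < g'.natDegree := by
        rcases Nat.eq_zero_or_pos g'.natDegree with h | h
        · exfalso
          exact hirr'.not_isUnit (hmon.natDegree_eq_zero.mp h ▸ isUnit_one)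
        · exact h
      have hdeg : g.natDegree = g'.natDegree * q := by rw [hg', natDegree_expand]
      have hlt : g'.natDegree < g.natDegree := by
        rw [hdeg]
        exact lt_mul_of_one_lt_right hpos hq.one_lt
      obtain ⟨N, h, h0, h1, h2, h3, h4⟩ := ih g' (by omega) hmon hirr'
      refine ⟨q * N, h, Nat.mul_pos hq.pos h0, ?_, h2, h3, h4⟩
      rw [hg', h1, expand_expand]
    · refine ⟨1, g, one_pos, by simp, hg, hirr, ?_⟩
      intro q hq h'
      exact hex ⟨q, hq, h'⟩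

end Pool.Agent.Lib.MP_7ab245_nt.L1
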