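import Mathlib
import Pool.Agent.Lib.MP_7ab245_nt.L1.Defs
import Pool.Agent.Lib.MP_7ab245_nt.L1.Ker0
import Pool.Agent.Lib.MP_7ab245_nt.Len.Cyc
import Pool.Agent.Lib.MP_7ab245_nt.Len.Sub

/-! The smoothed energy of the roots of `g` is controlled by that of all points. -/

set_option autoImplicit false

open Polynomial Finset

namespace Pool.Agent.Lib.MP_7ab245_nt.L1

open Pool.Agent.Lib.MP_7ab245_nt.Len

/-- invariance of the amount of smoothing under the fourth roots of unity -/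
private theorem subS_inv (s : ℂ → ℝ) (hsI : ∀ z, s (Complex.I * z) = s z) (ω z : ℂ)
    (hω : ω ^ 4 = 1) : s (ω * z) = s z := by
  have hneg : ∀ z, s (-z) = s z := by
    intro z
    have h1 : -z = Complex.I * (Complex.I * z) := by
      rw [← mul_assoc, Complex.I_mul_I]; ring
    rw [h1, hsI, hsI]
  have h1 : (ω ^ 2) ^ 2 = 1 ^ 2 := by rw [← pow_mul, hω]; norm_num
  rcases sq_eq_sq_iff_eq_or_eq_neg.1 h1 with h2 | h2
  · have h3 : ω ^ 2 = 1 ^ 2 := by rw [h2]; norm_num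
    rcases sq_eq_sq_iff_eq_or_eq_neg.1 h3 with h4 | h4
    · rw [h4, one_mul]
    · rw [h4, neg_one_mul, hneg]
  · have h3 : ω ^ 2 = Complex.I ^ 2 := by rw [h2, Complex.I_sq]
    rcases sq_eq_sq_iff_eq_or_eq_neg.1 h3 with h4 | h4
    · rw [h4, hsI]
    · rw [h4, neg_mul, hneg, hsI]

/-- points with the same fourth power are smoothed by the same amount -/
private theorem subS_inv' (s : ℂ → ℝ) (hsI : ∀ z, s (Complex.I * z) = s z) (a b : ℂ)
    (hab : a ^ 4 = b ^ 4) : s a = s b := by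
  by_cases hb : b = 0
  · subst hb
    have : a = 0 := by
      have h : a ^ 4 = 0 := by rw [hab]; norm_num
      exact pow_eq_zero_iff (by norm_num) |>.1 h
    rw [this]
  · have h1 : a = (a / b) * b := by field_simp
    rw [h1]
    refine subS_inv s hsI _ _ ?_
    rw [div_pow, hab]
    exact div_self (pow_ne_zero 4 hb)

private theorem subS_norm (s : ℂ → ℝ) (hs : ∀ z, 0 < s z) (z : ℂ) (hz : ‖z‖ ≤ 1) :
    ‖sm s z‖ < 1 := by
  rw [sm, norm_mul, Complex.norm_real, Real.norm_eq_abs, abs_of_pos (Real.exp_pos _)]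
  have h1 : Real.exp (-(s z)) < 1 := by
    rw [Real.exp_lt_one_iff]
    linarith [hs z]
  have h2 := Real.exp_pos (-(s z))
  nlinarith [norm_nonneg z]

private theorem subS_norm_exp (c : ℝ) (hc : 0 ≤ c) (z : ℂ) :
    ‖(Real.exp (-c) : ℂ) * z‖ ≤ ‖z‖ := by
  rw [norm_mul, Complex.norm_real, Real.norm_eq_abs, abs_of_pos (Real.exp_pos _)]
  have h1 : Real.exp (-c) ≤ 1 := by
    rw [Real.exp_le_one_iff]
    linarith
  nlinarith [norm_nonneg z]

private theorem subS_ne (x y : ℂ) (hx : ‖x‖ ≤ 1) (hy : ‖y‖ < 1) :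
    x * starRingEnd ℂ y ≠ 1 := by
  intro h
  have h1 : ‖x * starRingEnd ℂ y‖ = 1 := by rw [h, norm_one]
  rw [norm_mul, RCLike.norm_conj] at h1
  nlinarith [norm_nonneg x, norm_nonneg y]

private theorem subS_neg_neg (x y : ℂ) : ker 0 (-x) (-y) = ker 0 x y := by
  rw [ker, ker, map_neg, neg_mul_neg]

/-- the final computation -/
private theorem subS_numeric (e G G' W X1 X1' X3 X3' C1 C1' C2 U n m ε η DD EV D' A η1 η2 : ℝ)
    (he : 0 < e) (hε : 0 ≤ ε) (hn : 0 ≤ n) (hU : 0 ≤ U) (hDD : 0 ≤ DD) (hG : 0 ≤ G)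
    (hη10 : 0 ≤ η1) (hη20 : 0 ≤ η2) (hη1 : η1 ≤ η) (hη2 : η2 ≤ η)
    (hm : m = U + e * n)
    (hX1 : X1 - n * η1 = C1 + e * (G - n * A))
    (hX1' : X1' - n * η1 = C1' + e * (G' - n * A))
    (hX3 : X3 - 4 * n * η2 = C2 + e * W)
    (hC : 1 / 2 * C1' + 1 / 2 * C2 ≤ 1 / 2 * C1 + 2 * U * ε)
    (hG' : G' ≤ 2 * n * ε) (hW : W ≤ 6 * n * ε) (hEV : EV ≤ 4 * G + 8 * n * ε)
    (hX3' : X3' ≤ X3 + 2 * n * η1) (hD' : D' ≤ 2 * DD + 8 * m * η2)
    (hEV0 : 0 ≤ EV)
    (h1 : X1 ^ 2 ≤ DD * G) (h2 : X1' ^ 2 ≤ DD * G) (h3 : X3' ^ 2 ≤ D' * EV) :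
    G ≤ 24 * DD / e ^ 2 + 108 * m * η / e ^ 2 + 18 * (m / e) * ε := by
  have hm0 : 0 ≤ m := by rw [hm]; positivity
  have hη0 : 0 ≤ η := hη10.trans hη1
  set H := G + 2 * n * ε with hH
  set D := DD + 4 * m * η with hD
  have hnε : 0 ≤ n * ε := mul_nonneg hn hε
  have hmη : 0 ≤ m * η := mul_nonneg hm0 hη0
  have hH0 : 0 ≤ H := by rw [hH]; nlinarith only [hEV, hEV0]
  have hGH : G ≤ H := by rw [hH]; nlinarith only [hnε]
  have hD0 : 0 ≤ D := by rw [hD]; nlinarith only [hDD, hmη]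
  have hDDD : DD ≤ D := by rw [hD]; nlinarith only [hmη]
  have hmη2 : m * η2 ≤ m * η := mul_le_mul_of_nonneg_left hη2 hm0
  have h1' : X1 ^ 2 ≤ D * H := h1.trans (mul_le_mul hDDD hGH hG hD0)
  have h2' : X1' ^ 2 ≤ D * H := h2.trans (mul_le_mul hDDD hGH hG hD0)
  have h3' : X3' ^ 2 ≤ D * (8 * H) := by
    have k1 : D' * EV ≤ (2 * D) * EV :=
      mul_le_mul_of_nonneg_right (by rw [hD]; linarith) hEV0
    have k2 : (2 * D) * EV ≤ (2 * D) * (4 * H) :=
      mul_le_mul_of_nonneg_left (by rw [hH]; linarith) (by positivity)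
    calc X3' ^ 2 ≤ (2 * D) * (4 * H) := h3.trans (k1.trans k2)
      _ = D * (8 * H) := by ring
  have a1 := sub_linear _ _ _ (5 / 24 * e) (by positivity) hD0 hH0 h1'
  have a2 := sub_linear _ _ _ (5 / 24 * e) (by positivity) hD0 hH0 h2'
  have a3 := sub_linear _ _ _ (7 / 96 * e) (by positivity) hD0 (by positivity) h3'
  set d := D / e with hd
  have hDd : D = d * e := by rw [hd]; field_simp
  have b1 : D / (2 * (5 / 24 * e)) = 12 / 5 * d := by rw [hDd]; field_simp; ring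
  have b3 : D / (2 * (7 / 96 * e)) = 48 / 7 * d := by rw [hDd]; field_simp; ring
  rw [b1] at a1 a2
  rw [b3] at a3
  have hd0 : 0 ≤ d := by positivity
  have c1 := (abs_le.mp a1).2
  have c2 := (abs_le.mp a2).1
  have c3 := (abs_le.mp a3).1
  have k1 : e * G' ≤ e * (2 * n * ε) := mul_le_mul_of_nonneg_left hG' he.le
  have k2 : e * W ≤ e * (6 * n * ε) := mul_le_mul_of_nonneg_left hW he.le
  have kU : 0 ≤ U * ε := mul_nonneg hU hε
  have hnη1 : n * η1 ≤ n * η := mul_le_mul_of_nonneg_left hη1 hn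
  have hnη2 : n * η2 ≤ n * η := mul_le_mul_of_nonneg_left hη2 hn
  -- the main inequality
  have key : e * G ≤ 1 / 2 * (e * H) + 12 * d + 8 * (m * ε) + 6 * (n * η) := by
    have kk : e * G = X1 - X1' - X3 + e * G' + e * W + (C1' + C2 - C1) + 4 * n * η2 := by
      have e1 : C1 = X1 - n * η1 - e * (G - n * A) := by linarith only [hX1]
      have e2 : C1' = X1' - n * η1 - e * (G' - n * A) := by linarith only [hX1']
      have e3 : C2 = X3 - 4 * n * η2 - e * W := by linarith only [hX3]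
      rw [e1, e2, e3]; ring
    have km : m * ε = U * ε + e * (n * ε) := by rw [hm]; ring
    rw [kk, km]
    linarith only [c1, c2, c3, hC, hX3', hd0, hnη1, hnη2, k1, k2, kU]
  have hne : n * e ≤ m := by rw [hm]; nlinarith only [hU]
  have key2 : e * G ≤ 24 * d + 18 * (m * ε) + 12 * (n * η) := by
    have k3 : e * (n * ε) ≤ m * ε := by
      have := mul_le_mul_of_nonneg_right hne hε
      nlinarith only [this]
    have k5 : e * H = e * G + 2 * (e * (n * ε)) := by rw [hH]; ring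
    linarith only [k3, key]
  have key3 : e * G ≤ e * (24 * DD / e ^ 2 + 108 * m * η / e ^ 2 + 18 * (m / e) * ε) := by
    have k6 : e * (24 * DD / e ^ 2 + 108 * m * η / e ^ 2 + 18 * (m / e) * ε) =
        24 * DD / e + 108 * (m * η) / e + 18 * (m * ε) := by
      field_simp
    have k7 : 24 * d = 24 * DD / e + 96 * (m * η) / e := by
      rw [hd, hD]; field_simp; ring
    have k8 : n * η ≤ (m * η) / e := by
      rw [le_div_iff₀ he]
      have := mul_le_mul_of_nonneg_right hne hη0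
      nlinarith only [this]
    have k9 : 108 * (m * η) / e = 96 * (m * η) / e + 12 * ((m * η) / e) := by
      field_simp; ring
    rw [k6, k9]
    linarith only [k7, k8, key2]
  exact le_of_mul_le_mul_left key3 he

theorem sub_smooth {n m : ℕ} (v : Fin n → ℂ) (hv0 : ∀ i, v i ≠ 0) (hv1 : ∀ i, ‖v i‖ ≤ 1)
    (y : Fin m → ℂ) (hy0 : ∀ l, y l ≠ 0) (hy1 : ∀ l, ‖y l‖ ≤ 1) (S : Multiset ℕ)
    (hS : ∀ j ∈ S, 0 < j) (E : ℕ) (hE : 0 < E)
    (hdec : ∀ H : ℂ → ℝ, ∑ l, H (y l) = cyc S H + E * ∑ i, H (v i))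
    (s : ℂ → ℝ) (hs : ∀ z, 0 < s z) (hsI : ∀ z, s (Complex.I * z) = s z)
    (ρ : Fin m → ℂ) (hρ : ∀ l, ρ l ^ 2 = y l) (ε η : ℝ) (hε : 0 ≤ ε)
    (hη1 : ∑ l, s (y l) ≤ η) (hη2 : ∑ l, s (ρ l) ≤ η)
    (hF : ∀ j : ℕ, 0 < j → ∑ z ∈ primitiveRoots j ℂ, ∑ i, ker 0 z (sm s (v i)) ≤
      j.totient * ε)
    (hG : ∑ i, ∑ j, ker 0 (-(sm s (v i))) (sm s (v j)) ≤ 2 * n * ε)
    (hW : ∑ i, ∑ j, ker 0 (v i ^ 2) (sm s (v j) ^ 4) ≤ 6 * n * ε)
    (hEV : ∑ i, ∑ j, ker 0 (sm s (v i) ^ 4) (sm s (v j) ^ 4) ≤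
      4 * IE (fun i => sm s (v i)) (fun i => sm s (v i)) + 8 * n * ε) :
    IE (fun i => sm s (v i)) (fun i => sm s (v i)) ≤
      24 * IE (fun l => sm s (y l)) (fun l => sm s (y l)) / (E : ℝ) ^ 2
        + 108 * m * η / (E : ℝ) ^ 2 + 18 * (m / E) * ε := by
  -- fourth roots
  have hex : ∀ w : ℂ, ∃ z : ℂ, z ^ 4 = w := fun w =>
    IsAlgClosed.exists_pow_nat_eq w (by norm_num)
  choose r hr using hex
  have hsr : ∀ z : ℂ, s (r (z ^ 4)) = s z := fun z => subS_inv' s hsI _ _ (hr _)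
  have hsneg : ∀ z : ℂ, s (-z) = s z := fun z => by
    have := subS_inv s hsI (-1) z (by norm_num)
    rwa [neg_one_mul] at this
  -- the points moved towards the origin
  set V : Fin n → ℂ := fun i => sm s (v i) with hV
  set X : Fin m → ℂ := fun l => sm s (y l) with hX
  have hVn : ∀ i, ‖V i‖ < 1 := fun i => subS_norm s hs _ (hv1 i)
  have hXn : ∀ l, ‖X l‖ < 1 := fun l => subS_norm s hs _ (hy1 l)
  have hV4n : ∀ i, ‖V i ^ 4‖ < 1 := fun i => by
    rw [norm_pow]; exact pow_lt_one₀ (norm_nonneg _) (hVn i) (by norm_num)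
  set F : ℂ → ℝ := fun z => ∑ i, ker 0 z (V i) with hFdef
  set F4 : ℂ → ℝ := fun z => ∑ i, ker 0 z (V i ^ 4) with hF4def
  have hFadd : ∀ (t : ℝ) (z : ℂ), 0 ≤ t → ‖z‖ ≤ 1 →
      F ((Real.exp (-t) : ℂ) * z) ≤ F z + n * t := by
    intro t z ht hz
    have h1 : ∀ i : Fin n, ker 0 ((Real.exp (-t) : ℂ) * z) (V i) ≤ ker 0 z (V i) + t :=
      fun i => ker_zero_le_add t z (V i) ht hz (hVn i).le (subS_ne _ _ hz (hVn i))
    calc F ((Real.exp (-t) : ℂ) * z) ≤ ∑ i, (ker 0 z (V i) + t) :=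
          Finset.sum_le_sum fun i _ => h1 i
      _ = F z + n * t := by
          rw [Finset.sum_add_distrib, Finset.sum_const, Finset.card_univ, Fintype.card_fin,
            nsmul_eq_mul]
  have hF4add : ∀ (t : ℝ) (z : ℂ), 0 ≤ t → ‖z‖ ≤ 1 →
      F4 ((Real.exp (-t) : ℂ) * z) ≤ F4 z + n * t := by
    intro t z ht hz
    have h1 : ∀ i : Fin n, ker 0 ((Real.exp (-t) : ℂ) * z) (V i ^ 4) ≤
        ker 0 z (V i ^ 4) + t :=
      fun i => ker_zero_le_add t z (V i ^ 4) ht hz (hV4n i).le (subS_ne _ _ hz (hV4n i))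
    calc F4 ((Real.exp (-t) : ℂ) * z) ≤ ∑ i, (ker 0 z (V i ^ 4) + t) :=
          Finset.sum_le_sum fun i _ => h1 i
      _ = F4 z + n * t := by
          rw [Finset.sum_add_distrib, Finset.sum_const, Finset.card_univ, Fintype.card_fin,
            nsmul_eq_mul]
  -- the two test functions
  set Fh : ℂ → ℝ := fun z => F (sm s z) - n * s z with hFh
  set Hh : ℂ → ℝ := fun w => F4 ((Real.exp (-(4 * s (r w))) : ℂ) * w) - 4 * n * s (r w)
    with hHh
  have hFhle : ∀ z : ℂ, ‖z‖ = 1 → Fh z ≤ F z := by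
    intro z hz
    have := hFadd (s z) z (hs z).le hz.le
    rw [hFh]
    simp only [sm]
    linarith
  have hcard : ((nthRootsFinset 4 (1 : ℂ)).card : ℝ) = 4 := by
    rw [(Complex.isPrimitiveRoot_exp 4 (by norm_num)).card_nthRootsFinset]
    norm_num
  have hF4' : ∀ z : ℂ, ‖z‖ = 1 → Hh (z ^ 4) = ∑ ω ∈ nthRootsFinset 4 (1 : ℂ), Fh (ω * z) := by
    intro z hz
    have h1 : ∀ ω ∈ nthRootsFinset 4 (1 : ℂ), Fh (ω * z) = F (ω * sm s z) - n * s z := by
      intro ω hω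
      rw [mem_nthRootsFinset (by norm_num)] at hω
      rw [hFh]
      simp only [sm]
      rw [subS_inv s hsI ω z hω]
      congr 2
      ring
    rw [Finset.sum_congr rfl h1, Finset.sum_sub_distrib, Finset.sum_const, nsmul_eq_mul, hcard]
    rw [hHh]
    simp only
    rw [hsr z]
    have h2 : (Real.exp (-(4 * s z)) : ℂ) * z ^ 4 = (sm s z) ^ 4 := by
      rw [sm, mul_pow]
      congr 1
      rw [← Complex.ofReal_pow, ← Real.exp_nat_mul]
      congr 2
      push_cast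
      ring
    rw [h2]
    have h3 : F4 (sm s z ^ 4) = ∑ ω ∈ nthRootsFinset 4 (1 : ℂ), F (ω * sm s z) := by
      rw [hF4def, hFdef]
      simp only
      rw [Finset.sum_comm]
      refine Finset.sum_congr rfl fun i _ => ?_
      refine ker_zero_pow 4 (by norm_num) (sm s z) (V i) ?_
      have a1 := hVn i
      have a2 := subS_norm s hs z hz.le
      nlinarith only [a1, a2, norm_nonneg (V i), norm_nonneg (sm s z)]
    rw [h3]
    ring
  have hFhsum : ∀ j : ℕ, 0 < j → ∑ ζ ∈ primitiveRoots j ℂ, Fh ζ ≤ j.totient * ε := by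
    intro j hj
    refine le_trans (Finset.sum_le_sum fun z hz => hFhle z ?_) (hF j hj)
    rw [mem_primitiveRoots hj] at hz
    exact hz.norm'_eq_one (by omega)
  have hcyc := sub_cyc_ineq Fh Hh ε hε hFhsum hF4' 0 S hS
  simp only [pow_zero, pow_one, mul_one] at hcyc
  -- the decomposition
  have d1 := hdec Fh
  have d2 := hdec fun z => Fh (-z)
  have d3 := hdec fun z => Hh (z ^ 2)
  have e4 : (m : ℝ) = cycdeg S + E * n := by
    have := hdec fun _ => 1
    simp only [Finset.sum_const, Finset.card_univ, Fintype.card_fin, nsmul_eq_mul, mul_one] at this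
    rw [this, sub_cyc_one]
  have f1 : ∑ l, Fh (y l) = IE X V - n * ∑ l, s (y l) := by
    rw [hFh]
    simp only
    rw [Finset.sum_sub_distrib, Finset.mul_sum]
    rfl
  have f1v : ∑ i, Fh (v i) = IE V V - n * ∑ i, s (v i) := by
    rw [hFh]
    simp only
    rw [Finset.sum_sub_distrib, Finset.mul_sum]
    rfl
  have hsmneg : ∀ z : ℂ, sm s (-z) = -(sm s z) := by
    intro z
    rw [sm, sm, hsneg, mul_neg]
  have f2 : ∑ l, Fh (-(y l)) = IE (fun l => -(X l)) V - n * ∑ l, s (y l) := by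
    rw [hFh]
    simp only
    rw [Finset.sum_sub_distrib, Finset.mul_sum]
    simp only [hsneg, hsmneg]
    rfl
  have f2v : ∑ i, Fh (-(v i)) =
      ∑ i, ∑ j, ker 0 (-(V i)) (V j) - n * ∑ i, s (v i) := by
    rw [hFh]
    simp only
    rw [Finset.sum_sub_distrib, Finset.mul_sum]
    simp only [hsneg, hsmneg]
    rfl
  have hρ4 : ∀ l, s (r (y l ^ 2)) = s (ρ l) := by
    intro l
    have : y l ^ 2 = ρ l ^ 4 := by rw [← hρ l, ← pow_mul]
    rw [this, hsr]
  have f3 : ∑ l, Hh (y l ^ 2) =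
      ∑ l, F4 ((Real.exp (-(4 * s (ρ l))) : ℂ) * y l ^ 2) - 4 * n * ∑ l, s (ρ l) := by
    rw [hHh]
    simp only
    rw [Finset.sum_sub_distrib, Finset.mul_sum]
    simp only [hρ4]
  have f3v : ∑ i, Hh (v i ^ 2) ≤ 6 * n * ε := by
    refine le_trans (Finset.sum_le_sum fun i _ => ?_) hW
    have hv2 : ‖v i ^ 2‖ ≤ 1 := by
      rw [norm_pow]; exact pow_le_one₀ (norm_nonneg _) (hv1 i)
    have h1 := hF4add (4 * s (r (v i ^ 2))) (v i ^ 2) (by linarith [hs (r (v i ^ 2))]) hv2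
    have h2 : Hh (v i ^ 2) = F4 ((Real.exp (-(4 * s (r (v i ^ 2)))) : ℂ) * v i ^ 2) -
      4 * n * s (r (v i ^ 2)) := rfl
    have h3 : F4 (v i ^ 2) = ∑ j, ker 0 (v i ^ 2) (V j ^ 4) := rfl
    rw [h2, ← h3]
    linarith
  rw [f1, f1v] at d1
  rw [f2, f2v] at d2
  rw [f3] at d3
  -- the third pairing
  set c : Fin m → ℝ := fun l => max (4 * s (ρ l)) (2 * s (y l)) with hc
  set Z : Fin m → ℂ := fun l => (Real.exp (-(c l)) : ℂ) * y l ^ 2 with hZ
  have hc4 : ∀ l, 4 * s (ρ l) ≤ c l := fun l => le_max_left _ _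
  have hc2 : ∀ l, 2 * s (y l) ≤ c l := fun l => le_max_right _ _
  have hcle : ∀ l, c l ≤ 4 * s (ρ l) + 2 * s (y l) := fun l => by
    refine max_le ?_ ?_ <;> linarith [hs (ρ l), hs (y l)]
  have hy2 : ∀ l, ‖y l ^ 2‖ ≤ 1 := fun l => by
    rw [norm_pow]; exact pow_le_one₀ (norm_nonneg _) (hy1 l)
  have hZe : ∀ l, Z l = (Real.exp (-(c l - 4 * s (ρ l))) : ℂ) *
      ((Real.exp (-(4 * s (ρ l))) : ℂ) * y l ^ 2) := by
    intro l
    rw [hZ]
    simp only
    rw [← mul_assoc, ← Complex.ofReal_mul, ← Real.exp_add]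
    congr 3
    ring
  have g3 : ∑ l, F4 (Z l) ≤
      ∑ l, F4 ((Real.exp (-(4 * s (ρ l))) : ℂ) * y l ^ 2) + 2 * n * ∑ l, s (y l) := by
    have h1 : ∀ l, F4 (Z l) ≤ F4 ((Real.exp (-(4 * s (ρ l))) : ℂ) * y l ^ 2) +
        n * (2 * s (y l)) := by
      intro l
      rw [hZe l]
      refine (hF4add (c l - 4 * s (ρ l)) _ (by linarith [hc4 l]) ?_).trans ?_
      · exact (subS_norm_exp _ (by linarith [hs (ρ l)]) _).trans (hy2 l)
      · have : c l - 4 * s (ρ l) ≤ 2 * s (y l) := by linarith [hcle l]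
        have h0 : (0 : ℝ) ≤ n := Nat.cast_nonneg n
        nlinarith only [this]
    refine (Finset.sum_le_sum fun l _ => h1 l).trans ?_
    rw [Finset.sum_add_distrib, ← Finset.mul_sum, ← Finset.mul_sum]
    apply le_of_eq
    ring
  have hX2n : ∀ l, ‖X l ^ 2‖ < 1 := fun l => by
    rw [norm_pow]; exact pow_lt_one₀ (norm_nonneg _) (hXn l) (by norm_num)
  have hZX : ∀ l, Z l = (Real.exp (-(c l - 2 * s (y l))) : ℂ) * (X l ^ 2) := by
    intro l
    rw [hZ, hX]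
    simp only [sm]
    rw [mul_pow, ← mul_assoc, ← Complex.ofReal_pow, ← Complex.ofReal_mul, ← Real.exp_nat_mul,
      ← Real.exp_add]
    congr 3
    push_cast
    ring
  have hZn : ∀ l, ‖Z l‖ < 1 := fun l => by
    rw [hZX l]
    exact (subS_norm_exp _ (by linarith [hc2 l]) _).trans_lt (hX2n l)
  have hD' : IE Z Z ≤ 2 * IE X X + 8 * m * ∑ l, s (ρ l) := by
    have h1 := IE_smooth_le (fun l => X l ^ 2) hX2n (fun l => c l - 2 * s (y l))
      (fun l => by linarith only [hc2, hc2 l])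
    have h2 : (fun l => (Real.exp (-(c l - 2 * s (y l))) : ℂ) * (X l ^ 2)) = Z := by
      funext l; rw [hZX l]
    rw [h2, Fintype.card_fin] at h1
    have h3 := IE_sq_le X hXn
    have h4 : ∑ l, (c l - 2 * s (y l)) ≤ 4 * ∑ l, s (ρ l) := by
      rw [Finset.mul_sum]
      exact Finset.sum_le_sum fun l _ => by linarith [hcle l]
    have h5 : (2 * (m : ℝ)) * ∑ l, (c l - 2 * s (y l)) ≤ (2 * (m : ℝ)) * (4 * ∑ l, s (ρ l)) :=
      mul_le_mul_of_nonneg_left h4 (by positivity)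
    linarith
  have hneg : IE (fun l => -(X l)) (fun l => -(X l)) = IE X X := by
    rw [IE, IE]
    simp only [subS_neg_neg]
  have cs1 := IE_cs X hXn V hVn
  have cs2 := IE_cs (fun l => -(X l)) (fun l => by rw [norm_neg]; exact hXn l) V hVn
  rw [hneg] at cs2
  have cs3 := IE_cs Z hZn (fun i => V i ^ 4) hV4n
  have hZV : IE Z (fun i => V i ^ 4) = ∑ l, F4 (Z l) := rfl
  rw [hZV] at cs3
  have hs1 : 0 ≤ ∑ l, s (y l) := Finset.sum_nonneg fun l _ => (hs _).le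
  have hs2 : 0 ≤ ∑ l, s (ρ l) := Finset.sum_nonneg fun l _ => (hs _).le
  exact subS_numeric (e := (E : ℝ)) (G := IE V V)
    (G' := ∑ i, ∑ j, ker 0 (-(V i)) (V j)) (W := ∑ i, Hh (v i ^ 2))
    (X1 := IE X V) (X1' := IE (fun l => -(X l)) V)
    (X3 := ∑ l, F4 ((Real.exp (-(4 * s (ρ l))) : ℂ) * y l ^ 2))
    (X3' := ∑ l, F4 (Z l)) (C1 := cyc S Fh) (C1' := cyc S fun z => Fh (-z))
    (C2 := cyc S fun z => Hh (z ^ 2)) (U := cycdeg S) (n := n) (m := m) (ε := ε) (η := η)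
    (DD := IE X X) (EV := IE (fun i => V i ^ 4) (fun i => V i ^ 4)) (D' := IE Z Z)
    (A := ∑ i, s (v i)) (η1 := ∑ l, s (y l)) (η2 := ∑ l, s (ρ l))
    (by exact_mod_cast hE) hε (by positivity) (by positivity)
    (IE_self_nonneg X hXn) (IE_self_nonneg V hVn) hs1 hs2 hη1 hη2 e4 d1 d2 d3 hcyc
    hG f3v hEV g3 hD' (IE_self_nonneg _ hV4n) cs1 cs2 cs3

end Pool.Agent.Lib.MP_7ab245_nt.L1
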